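import Pool.Agent.DgE.Defs

/-!
# Package DgE-CrtN: the Chinese remainder theorem for numbers of solutions, `n` unknowns

The same as `Pool.Agent.PtC.Crt` with `x : Fin n → ℕ` in `Fintype.piFinset (fun _ => range m)`:
`R m x` depends on the `x i` modulo `m` only (`h1`) and is multiplicative (`h2`). For coprime
`a, b > 0` the map `x ↦ (x mod a, x mod b)` is a bijection of the solutions modulo `a b` to the pairs
(`Nat.chineseRemainder`); strong induction on the squarefree `m`. For `m = 1` the number is `1` (`h3`;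
`Fintype.piFinset (fun _ => range 1)` has one element). ∎

Difficulty: 1.2 h.
-/

set_option autoImplicit false

namespace Pool.Agent.DgE

open Finset

open scoped Classical in
theorem crtn_mul {n : ℕ} (R : ℕ → (Fin n → ℕ) → Prop) (h1 : ∀ m x, R m (fun i => x i % m) ↔ R m x)
    (h2 : ∀ a b x, Nat.Coprime a b → (R (a * b) x ↔ R a x ∧ R b x)) {a b : ℕ} (ha : 0 < a)
    (hb : 0 < b) (hab : Nat.Coprime a b) :
    #{x ∈ Fintype.piFinset (fun _ : Fin n => range (a * b)) | R (a * b) x} =
      #{x ∈ Fintype.piFinset (fun _ : Fin n => range a) | R a x} *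
        #{x ∈ Fintype.piFinset (fun _ : Fin n => range b) | R b x} := by
  rw [← Finset.card_product]
  have hc : ∀ u v : ℕ, (Nat.chineseRemainder hab u v : ℕ) % a = u % a ∧
      (Nat.chineseRemainder hab u v : ℕ) % b = v % b := fun u v =>
    ⟨(Nat.chineseRemainder hab u v).2.1, (Nat.chineseRemainder hab u v).2.2⟩
  refine Finset.card_nbij' (fun x => (fun i => x i % a, fun i => x i % b))
    (fun y i => (Nat.chineseRemainder hab (y.1 i) (y.2 i) : ℕ)) ?_ ?_ ?_ ?_
  · intro x hx
    simp only [coe_filter, Fintype.mem_piFinset, mem_range, Set.mem_setOf_eq, coe_product,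
      Set.mem_prod] at hx ⊢
    obtain ⟨-, hR⟩ := hx
    rw [h2 a b x hab] at hR
    exact ⟨⟨fun i => Nat.mod_lt _ ha, (h1 a x).2 hR.1⟩, ⟨fun i => Nat.mod_lt _ hb, (h1 b x).2 hR.2⟩⟩
  · intro y hy
    simp only [coe_filter, Fintype.mem_piFinset, mem_range, Set.mem_setOf_eq, coe_product,
      Set.mem_prod] at hy ⊢
    obtain ⟨⟨-, hy1⟩, ⟨-, hy2⟩⟩ := hy
    refine ⟨fun i => Nat.chineseRemainder_lt_mul hab _ _ ha.ne' hb.ne', ?_⟩
    rw [h2 a b _ hab]
    constructor
    · rw [← h1 a]
      have : (fun i => (Nat.chineseRemainder hab (y.1 i) (y.2 i) : ℕ) % a) =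
          fun i => y.1 i % a := funext fun i => (hc _ _).1
      rw [this]
      exact (h1 a _).2 hy1
    · rw [← h1 b]
      have : (fun i => (Nat.chineseRemainder hab (y.1 i) (y.2 i) : ℕ) % b) =
          fun i => y.2 i % b := funext fun i => (hc _ _).2
      rw [this]
      exact (h1 b _).2 hy2
  · intro x hx
    simp only [coe_filter, Fintype.mem_piFinset, mem_range, Set.mem_setOf_eq] at hx
    funext i
    have hlt := Nat.chineseRemainder_lt_mul hab (x i % a) (x i % b) ha.ne' hb.ne'
    have h3 : (Nat.chineseRemainder hab (x i % a) (x i % b) : ℕ) ≡ x i [MOD a] := by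
      have := (hc (x i % a) (x i % b)).1
      rw [Nat.mod_mod] at this
      exact this
    have h4 : (Nat.chineseRemainder hab (x i % a) (x i % b) : ℕ) ≡ x i [MOD b] := by
      have := (hc (x i % a) (x i % b)).2
      rw [Nat.mod_mod] at this
      exact this
    have h5 := (Nat.modEq_and_modEq_iff_modEq_mul hab).1 ⟨h3, h4⟩
    exact Nat.ModEq.eq_of_lt_of_lt h5 hlt (hx.1 i)
  · intro y hy
    simp only [coe_filter, Fintype.mem_piFinset, mem_range, Set.mem_setOf_eq, coe_product,
      Set.mem_prod] at hy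
    obtain ⟨⟨hy1, -⟩, ⟨hy2, -⟩⟩ := hy
    refine Prod.ext (funext fun i => ?_) (funext fun i => ?_)
    · exact ((hc (y.1 i) (y.2 i)).1).trans (Nat.mod_eq_of_lt (hy1 i))
    · exact ((hc (y.1 i) (y.2 i)).2).trans (Nat.mod_eq_of_lt (hy2 i))

open scoped Classical in
theorem crtn_sqf {n : ℕ} (R : ℕ → (Fin n → ℕ) → Prop) (h1 : ∀ m x, R m (fun i => x i % m) ↔ R m x)
    (h2 : ∀ a b x, Nat.Coprime a b → (R (a * b) x ↔ R a x ∧ R b x)) (h3 : R 1 (fun _ => 0))
    {m : ℕ} (hm : Squarefree m) :
    #{x ∈ Fintype.piFinset (fun _ : Fin n => range m) | R m x} =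
      ∏ p ∈ m.primeFactors, #{x ∈ Fintype.piFinset (fun _ : Fin n => range p) | R p x} := by
  induction m using Nat.strong_induction_on with
  | _ m ih =>
    by_cases hm1 : m = 1
    · subst hm1
      rw [Nat.primeFactors_one, prod_empty, card_eq_one]
      refine ⟨fun _ => 0, ?_⟩
      ext x
      simp only [mem_filter, Fintype.mem_piFinset, range_one, mem_singleton]
      constructor
      · rintro ⟨hx, -⟩
        exact funext hx
      · rintro rfl
        exact ⟨fun _ => rfl, h3⟩
    · have hp : (m.minFac).Prime := Nat.minFac_prime hm1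
      obtain ⟨q, hq⟩ := Nat.minFac_dvd m
      have hsq : Squarefree (m.minFac * q) := by rw [← hq]; exact hm
      rw [Nat.squarefree_mul_iff] at hsq
      obtain ⟨hco, -, hq2⟩ := hsq
      have hq0 : 0 < q := Nat.pos_of_ne_zero hq2.ne_zero
      have hlt : q < m := by
        have h2' := hp.two_le
        nlinarith
      have e1 := crtn_mul R h1 h2 hp.pos hq0 hco
      have e2 := ih q hlt hq2
      rw [e2, ← hq] at e1
      rw [e1]
      have e3 : m.primeFactors = {m.minFac} ∪ q.primeFactors := by
        conv_lhs => rw [hq]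
        rw [hco.primeFactors_mul, hp.primeFactors]
      rw [e3, prod_union, prod_singleton]
      have := hco.disjoint_primeFactors
      rwa [hp.primeFactors] at this

end Pool.Agent.DgE
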