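import Pool.Agent.DgE.Defs
import Pool.Agent.ECD.PowMod

/-!
# Package DgE-OD: definable functions with values in `ℤ[ζ]`

`OD ζ d n f`: `f v` is a combination of `ζ ^ s`, `s < d`, whose coefficients are differences of two
functions in `DFun n`.

*`OD.nat`*: the coefficient of `ζ ^ 0` (`0 < d`). *`OD.zeta`*: `ζ ^ k = ζ ^ (k % d)`. *`OD.add`*,
*`OD.sub`*: coefficientwise (`DFun.add`). *`OD.mul`*: the coefficient of `ζ ^ s` is the sum of
`(c a - c' a) (e b - e' b)` over `a, b < d` with `(a + b) % d = s`; write it as a difference.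
*`OD.sum`*: finite sums (induction on the `Finset`). *`OD.ite`*: `DFun.ite` coefficientwise. ∎

Proved (helper93).
-/

set_option autoImplicit false

namespace Pool.Agent.DgE

open Finset NumberField Pool.Agent.Grz Pool.Agent.GAvg Pool.Agent.PTr Pool.Agent.MTr
  Pool.Agent.LPC Pool.Agent.ECD

/-- functions with values in `ℤ[ζ]` with definable coefficients -/
def OD {K : Type*} [Field K] (ζ : 𝓞 K) (d n : ℕ) (f : (Fin n → ℕ) → 𝓞 K) : Prop :=
  ∃ c c' : ℕ → (Fin n → ℕ) → ℕ, (∀ s, DFun n (c s)) ∧ (∀ s, DFun n (c' s)) ∧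
    ∀ v, f v = ∑ s ∈ range d, ((c s v : 𝓞 K) - (c' s v : 𝓞 K)) * ζ ^ s

variable {K : Type*} [Field K] {ζ : 𝓞 K} {d n : ℕ}

private theorem od_congr {f h : (Fin n → ℕ) → 𝓞 K} (hf : OD ζ d n f) (e : ∀ v, h v = f v) :
    OD ζ d n h := by
  have e' : h = f := funext e
  rw [e']
  exact hf

private theorem od_mono {c c' : (Fin n → ℕ) → ℕ} (hc : DFun n c) (hc' : DFun n c') {k : ℕ}
    (hk : k < d) : OD ζ d n (fun v => ((c v : 𝓞 K) - (c' v : 𝓞 K)) * ζ ^ k) := by
  refine ⟨fun s v => if s = k then c v else 0, fun s v => if s = k then c' v else 0,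
    fun s => ?_, fun s => ?_, fun v => ?_⟩
  · by_cases h : s = k
    · simpa only [if_pos h] using hc
    · simpa only [if_neg h] using DFun.const (n := n) 0
  · by_cases h : s = k
    · simpa only [if_pos h] using hc'
    · simpa only [if_neg h] using DFun.const (n := n) 0
  · rw [Finset.sum_eq_single k]
    · simp only [if_true]
    · intro b _ hb
      simp only [if_neg hb, Nat.cast_zero, sub_zero, zero_mul]
    · intro h
      exact absurd (Finset.mem_range.2 hk) h

private theorem od_mono' (hd : 0 < d) (hζ : ζ ^ d = 1) {c c' : (Fin n → ℕ) → ℕ}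
    (hc : DFun n c) (hc' : DFun n c') (k : ℕ) :
    OD ζ d n (fun v => ((c v : 𝓞 K) - (c' v : 𝓞 K)) * ζ ^ k) := by
  have hk : ζ ^ k = ζ ^ (k % d) := by
    conv_lhs => rw [← Nat.mod_add_div k d, pow_add, pow_mul, hζ, one_pow, mul_one]
  rw [hk]
  exact od_mono hc hc' (Nat.mod_lt k hd)

theorem OD.nat (hd : 0 < d) {f : (Fin n → ℕ) → ℕ} (hf : DFun n f) :
    OD ζ d n (fun v => (f v : 𝓞 K)) :=
  od_congr (od_mono (ζ := ζ) hf (DFun.const 0) hd) fun v => by
    rw [Nat.cast_zero, sub_zero, pow_zero, mul_one]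

theorem OD.zeta (hd : 0 < d) (hζ : ζ ^ d = 1) (k : ℕ) : OD ζ d n (fun _ => ζ ^ k) :=
  od_congr (od_mono' hd hζ (DFun.const 1) (DFun.const 0) k) fun v => by
    rw [Nat.cast_zero, sub_zero, Nat.cast_one, one_mul]

theorem OD.add {f h : (Fin n → ℕ) → 𝓞 K} (hf : OD ζ d n f) (hh : OD ζ d n h) :
    OD ζ d n (fun v => f v + h v) := by
  obtain ⟨c, c', hc, hc', e⟩ := hf
  obtain ⟨b, b', hb, hb', e'⟩ := hh
  refine ⟨fun s v => c s v + b s v, fun s v => c' s v + b' s v, fun s => (hc s).add (hb s),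
    fun s => (hc' s).add (hb' s), fun v => ?_⟩
  beta_reduce
  rw [e, e', ← Finset.sum_add_distrib]
  refine Finset.sum_congr rfl fun s _ => ?_
  push_cast
  ring

theorem OD.sub {f h : (Fin n → ℕ) → 𝓞 K} (hf : OD ζ d n f) (hh : OD ζ d n h) :
    OD ζ d n (fun v => f v - h v) := by
  obtain ⟨c, c', hc, hc', e⟩ := hf
  obtain ⟨b, b', hb, hb', e'⟩ := hh
  refine ⟨fun s v => c s v + b' s v, fun s v => c' s v + b s v, fun s => (hc s).add (hb' s),
    fun s => (hc' s).add (hb s), fun v => ?_⟩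
  beta_reduce
  rw [e, e', ← Finset.sum_sub_distrib]
  refine Finset.sum_congr rfl fun s _ => ?_
  push_cast
  ring

theorem OD.sum {ι : Type} (S : Finset ι) {f : ι → (Fin n → ℕ) → 𝓞 K}
    (hf : ∀ i ∈ S, OD ζ d n (f i)) : OD ζ d n (fun v => ∑ i ∈ S, f i v) := by
  classical
  induction S using Finset.induction_on with
  | empty =>
    refine ⟨fun _ _ => 0, fun _ _ => 0, fun _ => DFun.const 0, fun _ => DFun.const 0,
      fun v => ?_⟩
    simp
  | insert a S ha ih =>
    have h1 := (hf a (Finset.mem_insert_self a S)).add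
      (ih fun i hi => hf i (Finset.mem_insert_of_mem hi))
    exact od_congr h1 fun v => Finset.sum_insert ha

theorem OD.mul (hd : 0 < d) (hζ : ζ ^ d = 1) {f h : (Fin n → ℕ) → 𝓞 K} (hf : OD ζ d n f)
    (hh : OD ζ d n h) : OD ζ d n (fun v => f v * h v) := by
  obtain ⟨c, c', hc, hc', e⟩ := hf
  obtain ⟨b, b', hb, hb', e'⟩ := hh
  have h1 : OD ζ d n (fun v => ∑ i ∈ range d, ∑ j ∈ range d,
      (((c i v * b j v + c' i v * b' j v : ℕ) : 𝓞 K) -
        ((c i v * b' j v + c' i v * b j v : ℕ) : 𝓞 K)) * ζ ^ (i + j)) :=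
    OD.sum _ fun i _ => OD.sum _ fun j _ =>
      od_mono' hd hζ (((hc i).mul (hb j)).add ((hc' i).mul (hb' j)))
        (((hc i).mul (hb' j)).add ((hc' i).mul (hb j))) (i + j)
  refine od_congr h1 fun v => ?_
  rw [e, e', Finset.sum_mul_sum]
  refine Finset.sum_congr rfl fun i _ => Finset.sum_congr rfl fun j _ => ?_
  push_cast
  ring

open scoped Classical in
theorem OD.ite {P : (Fin n → ℕ) → Prop} (hP : Delta0 n P) {f h : (Fin n → ℕ) → 𝓞 K}
    (hf : OD ζ d n f) (hh : OD ζ d n h) : OD ζ d n (fun v => if P v then f v else h v) := by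
  obtain ⟨c, c', hc, hc', e⟩ := hf
  obtain ⟨b, b', hb, hb', e'⟩ := hh
  refine ⟨fun s v => if P v then c s v else b s v, fun s v => if P v then c' s v else b' s v,
    fun s => DFun.ite hP (hc s) (hb s), fun s => DFun.ite hP (hc' s) (hb' s), fun v => ?_⟩
  by_cases h1 : P v
  · simp only [if_pos h1]
    exact e v
  · simp only [if_neg h1]
    exact e' v

end Pool.Agent.DgE
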