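import Pool.Agent.DgE.Defs

/-!
# Package DgE-NonU: `1 - η` for roots of unity of prime power order

`η` is a primitive root of unity of order `l ^ k`, `k ≥ 1`, in `𝓞 K`.

*`dvd_prime`*: `l = Φ_(l ^ k)(1) = ∏ (1 - η')` over the primitive roots `η'` of order `l ^ k`
(`Polynomial.eval_one_cyclotomic_prime_pow`, `Polynomial.cyclotomic_eq_prod_X_sub_primitiveRoots`),
and `η` is one of them. ∎

*`not_unit`*: every other `η'` is `η ^ s`, and `η = η' ^ s'`; so `1 - η'` and `1 - η` divide each other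
(`1 - x ∣ 1 - x ^ s`). If `1 - η` is a unit then so are all `1 - η'`, and so is the product `l`:
`l y = 1` in `𝓞 K`; then `(1 / l : ℚ)` is integral over `ℤ` (its image in `K` is the integral `y`),
so an integer (`IsIntegrallyClosed`, `IsIntegral.exists_int`-like), a contradiction. (Or use norms.) ∎

Difficulty: 1.0 h.
-/

set_option autoImplicit false

namespace Pool.Agent.DgE

open Finset NumberField

variable {K : Type*} [Field K] [NumberField K] {η : 𝓞 K} {l k : ℕ}

theorem dvd_prime (hl : l.Prime) (hη : IsPrimitiveRoot η (l ^ (k + 1))) :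
    1 - η ∣ (l : 𝓞 K) := by
  have : Fact l.Prime := ⟨hl⟩
  have hpos : 0 < l ^ (k + 1) := pow_pos hl.pos _
  obtain ⟨q, hq⟩ := Polynomial.dvd_iff_isRoot.2 (hη.isRoot_cyclotomic hpos)
  have h := congrArg (Polynomial.eval (1 : 𝓞 K)) hq
  rw [Polynomial.eval_one_cyclotomic_prime_pow, Polynomial.eval_mul, Polynomial.eval_sub,
    Polynomial.eval_X, Polynomial.eval_C] at h
  exact ⟨_, h⟩

private theorem NonU_natCast (hl : l.Prime) : ¬ IsUnit (l : 𝓞 K) := by
  intro h
  have h1 : IsUnit (algebraMap ℤ (𝓞 K) (l : ℤ)) := by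
    rw [map_natCast]
    exact h
  have h2 : IsUnit (l : ℤ) := isUnit_of_map_unit (algebraMap ℤ (𝓞 K)) _ h1
  exact (Nat.prime_iff_prime_int.1 hl).not_isUnit h2

theorem not_unit (hl : l.Prime) (hη : IsPrimitiveRoot η (l ^ (k + 1))) : ¬ IsUnit (1 - η) := by
  intro h
  have : Fact l.Prime := ⟨hl⟩
  have hpos : 0 < l ^ (k + 1) := pow_pos hl.pos _
  have h1 : (l : 𝓞 K) = ∏ μ ∈ primitiveRoots (l ^ (k + 1)) (𝓞 K), (1 - μ) := by
    have e := congrArg (Polynomial.eval (1 : 𝓞 K))
      (Polynomial.cyclotomic_eq_prod_X_sub_primitiveRoots hη)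
    rw [Polynomial.eval_one_cyclotomic_prime_pow, Polynomial.eval_prod] at e
    rw [e]
    refine Finset.prod_congr rfl fun μ _ => ?_
    rw [Polynomial.eval_sub, Polynomial.eval_X, Polynomial.eval_C]
  have h2 : ∀ μ ∈ primitiveRoots (l ^ (k + 1)) (𝓞 K), IsUnit (1 - μ) := by
    intro μ hμ
    have hμ' := isPrimitiveRoot_of_mem_primitiveRoots hμ
    have : NeZero (l ^ (k + 1)) := ⟨hpos.ne'⟩
    obtain ⟨i, -, hi⟩ := hμ'.eq_pow_of_pow_eq_one hη.pow_eq_one
    refine isUnit_of_dvd_unit ?_ h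
    rw [← hi]
    have h3 := sub_dvd_pow_sub_pow (1 : 𝓞 K) μ i
    rwa [one_pow] at h3
  apply NonU_natCast (K := K) hl
  rw [h1]
  exact Finset.prod_induction _ IsUnit (fun a b ha hb => ha.mul hb) isUnit_one h2

end Pool.Agent.DgE
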