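import Pool.Agent.DgE.ODeq
import Pool.Agent.DgE.NonU

/-!
# Package DgE-CondDef: the conditions are bounded formulas

*`lev_def`*: `Lev d p g` iff `p` is a prime (`delta_prime`), `g ^ d ≡ 1` modulo `p` and `g ^ e ≢ 1`
for `0 < e < d` (`IsPrimitiveRoot.iff_def` or `IsPrimitiveRoot.iff`; `d > 0` is fixed; powers with
fixed exponents are `DFun`; congruences by `DFun.modAny`). ∎

*`one_sub_dvd`*: if `η ^ d = 1`, `η ≠ 1` then `1 - η ∣ d`:
`∑_(s < d) η ^ s = 0`, so `d = ∑_(s < d) (1 - η ^ s)`. ∎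

*`cond_def`*: under `Lev d (p v) (g v)` the clauses of `Cond`, for the finitely many `i, j < d`: `ev
d N ζ i j` is `OD` (`OD.sum`, `OD.nat`, `OD.zeta`, `OD.mul`), and so is the value at `ζ ^ (d - 1)`
(`(ζ ^ (d - 1)) ^ e = ζ ^ ((d - 1) e)`); equalities by `OD.eq0` of the difference; the sign `(-1) ^
(i ((p - 1) / d))` by the parity of `i ((p - 1) / d)` (`OD.ite`, `DFun.div`, `DFun.mod`); `ev d N (g
^ t) i j = 0` in `ZMod p` is a congruence of natural numbers modulo `p v`; the divisibilities by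
`OD.dvd`, where `1 - ζ ^ m ∣ d` (`one_sub_dvd`) and `(1 - ζ) (1 - ζ ^ (l ^ k)) ∣ d ^ 2`; the numbers
`CC p m (g ^ (d / m)) α β` are definable by `ih` (`Lev m p (g ^ (d / m))` holds), composed with `p
v` and `g v ^ (d / m)`. For `m`: `m ≤ d`, finitely many; for `l`, `k`: `l ≤ d`, `k ≤ d`. ∎

Difficulty: 2.0 h.
-/

set_option autoImplicit false

namespace Pool.Agent.DgE

open Finset NumberField Pool.Agent.Grz Pool.Agent.GAvg Pool.Agent.PTr Pool.Agent.MTr
  Pool.Agent.LPC Pool.Agent.ECD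

theorem lev_def {d n : ℕ} (hd : 0 < d) {p g : (Fin n → ℕ) → ℕ} (hp : DFun n p) (hg : DFun n g) :
    Delta0 n (fun v => Lev d (p v) (g v)) := by
  have h1 : ∀ l, Delta0 n (fun v => g v ^ l % p v = 1 % p v) := fun l =>
    Delta0.eqFun (DFun.modAny (DFun.powConst hg l) hp) (DFun.modAny (DFun.const 1) hp)
  have h2 : Delta0 n (fun v => ∀ l ∈ range d, (0 < l → ¬ g v ^ l % p v = 1 % p v)) :=
    Delta0.finAll (range d) fun l => (Delta0.ltFun (DFun.const 0) (DFun.const l)).imp (h1 l).not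
  refine ((delta_prime hp).and ((h1 d).and h2)).of_iff fun v => ?_
  have h3 : ∀ l, (g v : ZMod (p v)) ^ l = 1 ↔ g v ^ l % p v = 1 % p v := by
    intro l
    have h4 := ZMod.natCast_eq_natCast_iff (g v ^ l) 1 (p v)
    rw [Nat.cast_pow, Nat.cast_one] at h4
    exact h4
  unfold Lev
  rw [IsPrimitiveRoot.iff hd, h3]
  constructor
  · rintro ⟨k1, k2, k3⟩
    exact ⟨k1, k2, fun l hl hl0 h => k3 l hl0 (mem_range.1 hl) ((h3 l).2 h)⟩
  · rintro ⟨k1, k2, k3⟩
    exact ⟨k1, k2, fun l hl0 hl h => k3 l (mem_range.2 hl) hl0 ((h3 l).1 h)⟩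

theorem one_sub_dvd {K : Type*} [Field K] {d : ℕ} {η : 𝓞 K} (h : η ^ d = 1) (h1 : η ≠ 1) :
    1 - η ∣ (d : 𝓞 K) := by
  have h2 : ∑ s ∈ range d, η ^ s = 0 := by
    have h3 := geom_sum_mul η d
    rw [h, sub_self] at h3
    rcases mul_eq_zero.1 h3 with h4 | h4
    · exact h4
    · exact absurd (sub_eq_zero.1 h4) h1
  have h5 : (d : 𝓞 K) = ∑ s ∈ range d, (1 - η ^ s) := by
    rw [sum_sub_distrib, h2, sub_zero, sum_const, card_range, nsmul_one]
  rw [h5]
  refine dvd_sum fun s _ => ?_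
  have h6 := sub_dvd_pow_sub_pow (1 : 𝓞 K) η s
  rwa [one_pow] at h6

/-- definability of a conjunction with `L` -/
private def condDef_R {n : ℕ} (L P : (Fin n → ℕ) → Prop) : Prop := Delta0 n fun v => L v ∧ P v

private theorem condDef_and {n : ℕ} {L P Q : (Fin n → ℕ) → Prop} (h1 : condDef_R L P)
    (h2 : condDef_R L Q) : condDef_R L (fun v => P v ∧ Q v) := by
  refine (Delta0.and h1 h2).of_iff fun v => ?_
  tauto

private theorem condDef_imp {n : ℕ} {L P : (Fin n → ℕ) → Prop} (hL : Delta0 n L) (c : Prop)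
    (h : c → condDef_R L P) : condDef_R L (fun v => c → P v) := by
  by_cases hc : c
  · refine (h hc).of_iff fun v => ?_
    tauto
  · refine hL.of_iff fun v => ?_
    tauto

private theorem condDef_congr {n : ℕ} {L P Q : (Fin n → ℕ) → Prop} (h : condDef_R L P)
    (e : ∀ v, L v → (Q v ↔ P v)) : condDef_R L Q := by
  refine h.of_iff fun v => ?_
  constructor
  · rintro ⟨h1, h2⟩
    exact ⟨h1, (e v h1).1 h2⟩
  · rintro ⟨h1, h2⟩
    exact ⟨h1, (e v h1).2 h2⟩

private theorem condDef_all {n : ℕ} {L : (Fin n → ℕ) → Prop} (hL : Delta0 n L) (d : ℕ)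
    {P : ℕ → (Fin n → ℕ) → Prop} (h : ∀ i, i < d → condDef_R L (P i)) :
    condDef_R L (fun v => ∀ i < d, P i v) := by
  induction d with
  | zero =>
    refine hL.of_iff fun v => ?_
    constructor
    · exact fun h => h.1
    · exact fun h => ⟨h, fun i hi => absurd hi (Nat.not_lt_zero i)⟩
  | succ d ih =>
    refine condDef_congr (condDef_and (ih fun i hi => h i (hi.trans (Nat.lt_succ_self d)))
      (h d (Nat.lt_succ_self d))) fun v _ => ?_
    constructor
    · exact fun h => ⟨fun i hi => h i (hi.trans (Nat.lt_succ_self d)), h d (Nat.lt_succ_self d)⟩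
    · rintro ⟨h1, h2⟩ i hi
      rcases Nat.lt_succ_iff_lt_or_eq.1 hi with h3 | h3
      · exact h1 i h3
      · rw [h3]
        exact h2

private theorem condDef_ev {K : Type*} [Field K] {ζ : 𝓞 K} {d n : ℕ} (hd : 0 < d)
    (hζ : ζ ^ d = 1) (m k i j : ℕ) {M : ℕ → ℕ → (Fin n → ℕ) → ℕ} (hM : ∀ α β, DFun n (M α β)) :
    OD ζ d n (fun v => ev m (fun α β => M α β v) (ζ ^ k) i j) := by
  refine OD.sum (range m) (f := fun α v => ∑ β ∈ range m,
    (M α β v : 𝓞 K) * (ζ ^ k) ^ (i * α + j * β)) fun α _ => ?_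
  refine OD.sum (range m) (f := fun β v =>
    (M α β v : 𝓞 K) * (ζ ^ k) ^ (i * α + j * β)) fun β _ => ?_
  rw [← pow_mul]
  exact OD.mul hd hζ (OD.nat hd (hM α β)) (OD.zeta hd hζ _)

private theorem condDef_ev1 {K : Type*} [Field K] {ζ : 𝓞 K} {d n : ℕ} (hd : 0 < d)
    (hζ : ζ ^ d = 1) (m i j : ℕ) {M : ℕ → ℕ → (Fin n → ℕ) → ℕ} (hM : ∀ α β, DFun n (M α β)) :
    OD ζ d n (fun v => ev m (fun α β => M α β v) ζ i j) := by
  have h := condDef_ev hd hζ m 1 i j hM
  rwa [pow_one] at h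

private theorem condDef_pow {d m a p g : ℕ} (hd : 0 < d) (h : d = a * m) (hL : Lev d p g) :
    Lev m p (g ^ a) := by
  refine ⟨hL.1, ?_⟩
  rw [Nat.cast_pow]
  exact hL.2.pow hd h

open scoped Classical in
private theorem condDef_dvd {d : ℕ} {K : Type*} [Field K] [NumberField K] {ζ : 𝓞 K}
    (hd : 0 < d) (hζ1 : ζ ^ d = 1)
    (ih : ∀ m, m ∣ d → m ≠ d → ∀ α β : ℕ,
      DFun 2 (fun v => if Lev m (v 0) (v 1) then CC (v 0) m (v 1 : ZMod (v 0)) α β else 0))
    {n : ℕ} {p g : (Fin n → ℕ) → ℕ} {N : ℕ → ℕ → (Fin n → ℕ) → ℕ} (hp : DFun n p)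
    (hg : DFun n g) (hN : ∀ α β, DFun n (N α β)) (hL : Delta0 n (fun v => Lev d (p v) (g v)))
    (i j m a : ℕ) (h : d = a * m) (hm : m ≠ d) {δ : 𝓞 K} {D : ℕ} (hD : 0 < D)
    (hδ : δ ∣ (D : 𝓞 K)) :
    condDef_R (fun v => Lev d (p v) (g v)) (fun v => δ ∣ ev d (fun α β => N α β v) ζ i j -
      ev m (CC (p v) m ((g v : ZMod (p v)) ^ a)) ζ i j) := by
  have hF : ∀ α β, DFun n (fun v => if Lev m (p v) (g v ^ a) then
      CC (p v) m ((g v ^ a : ℕ) : ZMod (p v)) α β else 0) := fun α β =>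
    DFun.comp2 (g := fun x y => if Lev m x y then CC x m (y : ZMod x) α β else 0)
      (ih m (Dvd.intro_left a h.symm) hm α β) hp (DFun.powConst hg a)
  have h1 := OD.dvd (OD.sub (condDef_ev1 hd hζ1 d i j hN) (condDef_ev1 hd hζ1 m i j hF)) hD hδ
  refine condDef_congr (Delta0.and hL h1) fun v hv => ?_
  have h2 : CC (p v) m ((g v : ZMod (p v)) ^ a) = fun α β => if Lev m (p v) (g v ^ a) then
      CC (p v) m ((g v ^ a : ℕ) : ZMod (p v)) α β else 0 := by
    funext α β
    rw [if_pos (condDef_pow hd h hv), Nat.cast_pow]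
  rw [h2]

open scoped Classical in
theorem cond_def {d : ℕ} [NeZero d] {K : Type*} [Field K] [NumberField K] {ζ : 𝓞 K}
    (hζ : IsPrimitiveRoot ζ d)
    (ih : ∀ m, m ∣ d → m ≠ d → ∀ α β : ℕ,
      DFun 2 (fun v => if Lev m (v 0) (v 1) then CC (v 0) m (v 1 : ZMod (v 0)) α β else 0))
    {n : ℕ} {p g : (Fin n → ℕ) → ℕ} {N : ℕ → ℕ → (Fin n → ℕ) → ℕ} (hp : DFun n p)
    (hg : DFun n g) (hN : ∀ α β, DFun n (N α β)) :
    Delta0 n (fun v => Lev d (p v) (g v) ∧
      Cond (p v) d (g v : ZMod (p v)) ζ (fun α β => N α β v)) := by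
  have hd : 0 < d := Nat.pos_of_ne_zero (NeZero.ne d)
  have hζ1 : ζ ^ d = 1 := hζ.pow_eq_one
  have hL : Delta0 n (fun v => Lev d (p v) (g v)) := lev_def hd hp hg
  have hE : ∀ i j, OD ζ d n (fun v => ev d (fun α β => N α β v) ζ i j) := fun i j =>
    condDef_ev1 hd hζ1 d i j hN
  have hP : OD ζ d n (fun v => (p v : 𝓞 K)) := OD.nat hd hp
  have h1 : OD ζ d n (fun _ => (1 : 𝓞 K)) := by
    have h := OD.nat (K := K) (ζ := ζ) hd (DFun.const (n := n) 1)
    simpa only [Nat.cast_one] using h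
  have h2 : OD ζ d n (fun _ => (2 : 𝓞 K)) := by
    have h := OD.add h1 h1
    simpa only [one_add_one_eq_two] using h
  have h0 : OD ζ d n (fun _ => (0 : 𝓞 K)) := by
    have h := OD.sub h1 h1
    simpa only [sub_self] using h
  have hone : ∀ m, 0 < m → m < d → ζ ^ m ≠ 1 := fun m h3 h4 =>
    hζ.pow_ne_one_of_pos_of_lt h3.ne' h4
  show condDef_R (fun v => Lev d (p v) (g v))
    (fun v => Cond (p v) d (g v : ZMod (p v)) ζ (fun α β => N α β v))
  unfold Cond
  refine condDef_all hL d fun i hi => condDef_all hL d fun j hj => ?_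
  refine condDef_and ?_ (condDef_and ?_ (condDef_and ?_ (condDef_and ?_ ?_)))
  · refine condDef_imp hL _ fun _ => condDef_imp hL _ fun _ => ?_
    refine Delta0.and hL ((OD.eq0 (OD.sub (OD.add (hE i j) h2) hP)).of_iff fun v => ?_)
    exact sub_eq_zero.symm
  · refine condDef_imp hL _ fun _ => condDef_imp hL _ fun _ => ?_
    exact Delta0.and hL (OD.eq0 (OD.add (hE i j) h1))
  · refine condDef_imp hL _ fun _ => condDef_imp hL _ fun _ => ?_
    exact Delta0.and hL (OD.eq0 (OD.add (hE i j) h1))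
  · refine condDef_imp hL _ fun _ => condDef_imp hL _ fun _ => condDef_imp hL _ fun _ => ?_
    have hm : DFun n (fun v => i * ((p v - 1) / d) % 2) :=
      DFun.modPos ((DFun.const i).mul (DFun.divPos (hp.sub (DFun.const 1)) (DFun.const d)
        fun _ => hd)) (DFun.const 2) fun _ => by norm_num
    have hs : OD ζ d n (fun v => if i * ((p v - 1) / d) % 2 = 0 then (1 : 𝓞 K) else 0 - 1) := by
      convert OD.ite (Delta0.eqFun hm (DFun.const 0)) h1 (OD.sub h0 h1)
    refine Delta0.and hL ((OD.eq0 (OD.add (hE i j) hs)).of_iff fun v => ?_)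
    have e : (-1 : 𝓞 K) ^ (i * ((p v - 1) / d)) =
        if i * ((p v - 1) / d) % 2 = 0 then (1 : 𝓞 K) else 0 - 1 := by
      split_ifs with h
      · exact (Nat.even_iff.2 h).neg_one_pow
      · rw [(Nat.odd_iff.2 (by omega)).neg_one_pow, zero_sub]
    rw [e]
  · refine condDef_imp hL _ fun _ => condDef_imp hL _ fun _ => condDef_imp hL _ fun _ => ?_
    refine condDef_and ?_ (condDef_and ?_ (condDef_and ?_ ?_))
    · refine Delta0.and hL ((OD.eq0 (OD.sub (OD.mul hd hζ1 (hE i j)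
        (condDef_ev hd hζ1 d (d - 1) i j hN)) hP)).of_iff fun v => ?_)
      exact sub_eq_zero.symm
    · refine condDef_all hL d fun t ht => condDef_imp hL _ fun _ => condDef_imp hL _ fun _ => ?_
      have hS : DFun n (fun v => ∑ α ∈ range d, ∑ β ∈ range d,
          N α β v * (g v ^ t) ^ (i * α + j * β)) :=
        DFun.finSum (range d) (f := fun α v => ∑ β ∈ range d,
          N α β v * (g v ^ t) ^ (i * α + j * β)) fun α =>
          DFun.finSum (range d) (f := fun β v => N α β v * (g v ^ t) ^ (i * α + j * β)) fun β =>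
            (hN α β).mul (DFun.powConst (DFun.powConst hg t) _)
      refine Delta0.and hL ((delta_dvd hp hS).of_iff fun v => ?_)
      rw [← ZMod.natCast_eq_zero_iff]
      unfold ev
      push_cast
      rfl
    · -- the divisors `m` of `d`
      refine condDef_congr (condDef_all hL d (P := fun m v => m ∣ d →
        1 - ζ ^ m ∣ ev d (fun α β => N α β v) ζ i j -
          ev m (CC (p v) m ((g v : ZMod (p v)) ^ (d / m))) ζ i j) fun m hm =>
        condDef_imp hL _ fun hmd => ?_) fun v _ => ?_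
      · have hm0 : 0 < m := Nat.pos_of_dvd_of_pos hmd hd
        refine condDef_dvd hd hζ1 ih hp hg hN hL i j m (d / m) (Nat.div_mul_cancel hmd).symm
          hm.ne hd (one_sub_dvd ?_ (hone m hm0 hm))
        rw [← pow_mul, mul_comm, pow_mul, hζ1, one_pow]
      · constructor
        · intro h m hm hmd
          exact h m hmd hm.ne
        · intro h m hmd hm
          exact h m (lt_of_le_of_ne (Nat.le_of_dvd hd hmd) hm) hmd
    · -- prime powers
      refine condDef_congr (condDef_all hL (d + 1) (P := fun l v => ∀ k < d + 1, l.Prime →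
        d = l ^ (k + 1) → (1 - ζ) * (1 - ζ ^ (l ^ k)) ∣ ev d (fun α β => N α β v) ζ i j -
          ev (l ^ k) (CC (p v) (l ^ k) ((g v : ZMod (p v)) ^ l)) ζ i j) fun l _ =>
        condDef_all hL (d + 1) fun k _ => condDef_imp hL _ fun hl => condDef_imp hL _ fun hlk =>
          ?_) fun v _ => ?_
      · have hlk0 : 0 < l ^ k := pow_pos hl.pos k
        have hlt : l ^ k < d := by
          rw [hlk, pow_succ]
          have := hl.two_le
          nlinarith
        have h1d : 1 < d := lt_of_le_of_lt hlk0 hlt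
        refine condDef_dvd hd hζ1 ih hp hg hN hL i j (l ^ k) l (by rw [hlk, pow_succ, mul_comm])
          hlt.ne (D := d * d) (Nat.mul_pos hd hd) ?_
        rw [Nat.cast_mul]
        have hz1 : ζ ≠ 1 := by
          have := hone 1 one_pos h1d
          rwa [pow_one] at this
        refine mul_dvd_mul (one_sub_dvd hζ1 hz1) (one_sub_dvd ?_ (hone _ hlk0 hlt))
        rw [← pow_mul, mul_comm, pow_mul, hζ1, one_pow]
      · constructor
        · intro h l _ k _ hl hlk
          exact h l k hl hlk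
        · intro h l k hl hlk
          have h3 : l ≤ d := by
            rw [hlk]
            exact Nat.le_self_pow (Nat.succ_ne_zero k) l
          have h4 : k < d := by
            calc k < k + 1 := Nat.lt_succ_self k
              _ < l ^ (k + 1) := Nat.lt_pow_self hl.one_lt
              _ = d := hlk.symm
          exact h l (Nat.lt_succ_of_le h3) k (h4.trans (Nat.lt_succ_self d)) hl hlk

end Pool.Agent.DgE
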