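import Pool.Agent.DgE.Defs

/-!
# Package DgE-CongA: cyclotomic numbers of smaller order

Let `m ∣ d`, `g' = g ^ (d / m)`, a primitive `m`-th root of `1` (`IsPrimitiveRoot.pow`).

*`cc_level`*: if `x ^ ((p - 1) / d) = g ^ α` then `x ^ ((p - 1) / m) = (g ^ α) ^ (d / m) = g' ^ α`
(`d ∣ p - 1`, `(p - 1) / m = ((p - 1) / d) (d / m)`), so the class of `x` of order `m` is the class of
order `d` modulo `m`; each `x ≠ 0` has exactly one class `< d`. Group the `x` by the classes. ∎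

*`cong_div`*: by `cc_level` the difference is
`∑_(α, β < d) CC p d g α β (ζ ^ (i α + j β) - ζ ^ (i (α % m) + j (β % m)))`, and
`1 - ζ ^ m ∣ ζ ^ a - ζ ^ b` if `a ≡ b` modulo `m` (`1 - ζ ^ m ∣ 1 - ζ ^ (m k)`; here
`b ≤ a`). ∎

Difficulty: 1.2 h.
-/

set_option autoImplicit false

namespace Pool.Agent.DgE

open Finset NumberField

private theorem dvd_CongA {p d : ℕ} [Fact p.Prime] [NeZero d] {g : ZMod p}
    (hg : IsPrimitiveRoot g d) : d ∣ p - 1 := by
  have hg0 : g ≠ 0 := by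
    intro h
    have h1 := hg.pow_eq_one
    rw [h, zero_pow (NeZero.ne d)] at h1
    exact zero_ne_one h1
  exact hg.dvd_of_pow_eq_one _ (ZMod.pow_card_sub_one_eq_one hg0)

private theorem class_CongA {p d : ℕ} [Fact p.Prime] [NeZero d] {g : ZMod p}
    (hg : IsPrimitiveRoot g d) (x : ZMod p) :
    ∃ α, x ≠ 0 → α < d ∧ x ^ ((p - 1) / d) = g ^ α := by
  by_cases hx : x = 0
  · exact ⟨0, fun h => absurd hx h⟩
  · obtain ⟨i, hi, h⟩ := hg.eq_pow_of_pow_eq_one (ξ := x ^ ((p - 1) / d)) (by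
      rw [← pow_mul, Nat.div_mul_cancel (dvd_CongA hg)]
      exact ZMod.pow_card_sub_one_eq_one hx)
    exact ⟨i, fun _ => ⟨hi, h.symm⟩⟩

private theorem level_CongA {p d m : ℕ} [Fact p.Prime] [NeZero d] {g : ZMod p}
    (hg : IsPrimitiveRoot g d) (hm : m ∣ d) {x : ZMod p} {α α' : ℕ} (hα' : α' < m)
    (h : x ^ ((p - 1) / d) = g ^ α) :
    x ^ ((p - 1) / m) = (g ^ (d / m)) ^ α' ↔ α % m = α' := by
  have hd := dvd_CongA hg
  have hm0 : 0 < m := by omega
  obtain ⟨t, ht⟩ := hm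
  obtain ⟨s, hs⟩ := hd
  have hd0 : 0 < d := NeZero.pos d
  have h1 : d / m = t := by
    rw [ht]
    exact Nat.mul_div_cancel_left t hm0
  have h2 : (p - 1) / d = s := by
    rw [hs]
    exact Nat.mul_div_cancel_left s hd0
  have h3 : (p - 1) / m = s * t := by
    rw [hs, ht, mul_assoc, Nat.mul_div_cancel_left _ hm0, mul_comm]
  have hprim : IsPrimitiveRoot (g ^ t) m := hg.pow hd0 (by rw [ht]; ring)
  have key : (g ^ t) ^ α = (g ^ t) ^ (α % m) := by
    conv_lhs => rw [← Nat.mod_add_div α m, pow_add, pow_mul (g ^ t) m, hprim.pow_eq_one, one_pow,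
      mul_one]
  rw [h2] at h
  rw [h1, h3, pow_mul, h, ← pow_mul, mul_comm α t, pow_mul, key]
  exact ⟨fun h4 => hprim.pow_inj (Nat.mod_lt _ hm0) hα' h4, fun h4 => by rw [h4]⟩

private theorem CC_eq_CongA (p d : ℕ) [Fact p.Prime] (g : ZMod p) (α β : ℕ) :
    CC p d g α β = (univ.filter fun x : ZMod p => x ≠ 0 ∧ x ≠ 1 ∧ x ^ ((p - 1) / d) = g ^ α ∧
      (1 - x) ^ ((p - 1) / d) = g ^ β).card := by
  unfold CC
  rw [Nat.card_eq_fintype_card, Fintype.card_subtype]

theorem cc_level {p d m : ℕ} [Fact p.Prime] [NeZero d] {g : ZMod p} (hg : IsPrimitiveRoot g d)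
    (hm : m ∣ d) {α' β' : ℕ} (hα : α' < m) (hβ : β' < m) :
    CC p m (g ^ (d / m)) α' β' =
      ∑ α ∈ range d, ∑ β ∈ range d, if α % m = α' ∧ β % m = β' then CC p d g α β else 0 := by
  classical
  choose cls hcls using class_CongA hg
  rw [CC_eq_CongA, card_eq_sum_card_fiberwise (f := fun x => (cls x, cls (1 - x)))
    (t := range d ×ˢ range d), sum_product]
  · refine sum_congr rfl fun α hα1 => sum_congr rfl fun β hβ1 => ?_
    have hα2 : α < d := mem_range.1 hα1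
    have hβ2 : β < d := mem_range.1 hβ1
    rw [filter_filter]
    have hcl : ∀ x : ZMod p, x ≠ 0 → ∀ a < d, cls x = a ↔ x ^ ((p - 1) / d) = g ^ a := by
      intro x hx a ha
      obtain ⟨h1, h2⟩ := hcls x hx
      constructor
      · rintro rfl
        exact h2
      · intro h3
        rw [h2] at h3
        exact hg.pow_inj h1 ha h3
    split_ifs with hc
    · rw [CC_eq_CongA]
      congr 1
      ext x
      simp only [mem_filter, mem_univ, true_and, Prod.mk.injEq]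
      constructor
      · rintro ⟨⟨h1, h2, h3, h4⟩, h5, h6⟩
        have h7 : 1 - x ≠ 0 := fun h => h2 (sub_eq_zero.1 h).symm
        exact ⟨h1, h2, (hcl x h1 α hα2).1 h5, (hcl (1 - x) h7 β hβ2).1 h6⟩
      · rintro ⟨h1, h2, h3, h4⟩
        have h7 : 1 - x ≠ 0 := fun h => h2 (sub_eq_zero.1 h).symm
        exact ⟨⟨h1, h2, (level_CongA hg hm hα h3).2 hc.1, (level_CongA hg hm hβ h4).2 hc.2⟩,
          (hcl x h1 α hα2).2 h3, (hcl (1 - x) h7 β hβ2).2 h4⟩
    · rw [card_eq_zero]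
      refine filter_eq_empty_iff.2 fun x _ h => hc ?_
      obtain ⟨⟨h1, h2, h3, h4⟩, h5⟩ := h
      rw [Prod.mk.injEq] at h5
      have h7 : 1 - x ≠ 0 := fun h => h2 (sub_eq_zero.1 h).symm
      exact ⟨(level_CongA hg hm hα ((hcl x h1 α hα2).1 h5.1)).1 h3,
        (level_CongA hg hm hβ ((hcl (1 - x) h7 β hβ2).1 h5.2)).1 h4⟩
  · intro x hx
    have hx' := (mem_filter.1 (mem_coe.1 hx)).2
    have h7 : 1 - x ≠ 0 := fun h => hx'.2.1 (sub_eq_zero.1 h).symm
    exact mem_coe.2 (mem_product.2 ⟨mem_range.2 (hcls x hx'.1).1,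
      mem_range.2 (hcls (1 - x) h7).1⟩)

theorem cong_div {p d m : ℕ} [Fact p.Prime] [NeZero d] {g : ZMod p} (hg : IsPrimitiveRoot g d)
    {K : Type*} [Field K] [NumberField K] (ζ : 𝓞 K) (hm : m ∣ d) (i j : ℕ) :
    1 - ζ ^ m ∣ ev d (CC p d g) ζ i j - ev m (CC p m (g ^ (d / m))) ζ i j := by
  classical
  have hm0 : 0 < m := by
    rcases Nat.eq_zero_or_pos m with h | h
    · rw [h] at hm
      exact absurd (Nat.eq_zero_of_zero_dvd hm) (NeZero.ne d)
    · exact h
  have h1 : ev m (CC p m (g ^ (d / m))) ζ i j = ∑ α ∈ range d, ∑ β ∈ range d,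
      (CC p d g α β : 𝓞 K) * ζ ^ (i * (α % m) + j * (β % m)) := by
    unfold ev
    have h2 : ∀ a ∈ range m, ∀ b ∈ range m,
        ((CC p m (g ^ (d / m)) a b : ℕ) : 𝓞 K) * ζ ^ (i * a + j * b) =
        ∑ α ∈ range d, ∑ β ∈ range d, if α % m = a ∧ β % m = b then
          (CC p d g α β : 𝓞 K) * ζ ^ (i * (α % m) + j * (β % m)) else 0 := by
      intro a ha b hb
      rw [cc_level hg hm (mem_range.1 ha) (mem_range.1 hb), Nat.cast_sum, sum_mul]
      refine sum_congr rfl fun α _ => ?_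
      rw [Nat.cast_sum, sum_mul]
      refine sum_congr rfl fun β _ => ?_
      split_ifs with hc
      · rw [hc.1, hc.2]
      · rw [Nat.cast_zero, zero_mul]
    rw [sum_congr rfl fun a ha => sum_congr rfl fun b hb => h2 a ha b hb]
    rw [sum_congr rfl fun a _ => sum_comm, sum_comm]
    refine sum_congr rfl fun α _ => ?_
    rw [sum_congr rfl fun a _ => sum_comm, sum_comm]
    refine sum_congr rfl fun β _ => ?_
    rw [sum_eq_single (α % m), sum_eq_single (β % m)]
    · rw [if_pos ⟨rfl, rfl⟩]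
    · intro b _ hb
      exact if_neg fun h => hb h.2.symm
    · intro h
      exact absurd (mem_range.2 (Nat.mod_lt _ hm0)) h
    · intro a _ ha
      exact sum_eq_zero fun b _ => if_neg fun h => ha h.1.symm
    · intro h
      exact absurd (mem_range.2 (Nat.mod_lt _ hm0)) h
  rw [h1]
  unfold ev
  rw [← sum_sub_distrib]
  refine dvd_sum fun α _ => ?_
  rw [← sum_sub_distrib]
  refine dvd_sum fun β _ => ?_
  rw [← mul_sub]
  refine Dvd.dvd.mul_left ?_ _
  have h3 : i * α + j * β = i * (α % m) + j * (β % m) + m * (i * (α / m) + j * (β / m)) := by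
    conv_lhs => rw [← Nat.mod_add_div α m, ← Nat.mod_add_div β m]
    ring
  rw [h3, pow_add, pow_mul]
  have h4 : ζ ^ (i * (α % m) + j * (β % m)) * (ζ ^ m) ^ (i * (α / m) + j * (β / m)) -
      ζ ^ (i * (α % m) + j * (β % m)) = -(ζ ^ (i * (α % m) + j * (β % m)) *
        (1 - (ζ ^ m) ^ (i * (α / m) + j * (β / m)))) := by ring
  rw [h4]
  exact (dvd_neg.2 ((one_sub_dvd_one_sub_pow _ _).mul_left _))

end Pool.Agent.DgE
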