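import Pool.Agent.DgE.CongA
import Pool.Agent.DgE.NonU

/-!
# Package DgE-CongB: the congruence for prime powers

`d = l ^ (k + 1)`, `m = l ^ k`, `θ = ζ ^ m`, a primitive `l`-th root of unity.

*`cong_pow`*. For `α, β < d` write `α = α' + m s`, `β = β' + m s'` with `α' = α % m`, `s = α / m`
and so on. `ζ ^ (i α + j β) = ζ ^ (i α' + j β') θ ^ (i s + j s')`, and `θ ^ c ≡ 1 + c (θ - 1)` modulo
`(θ - 1) ^ 2`, where `1 - ζ ∣ 1 - θ`; so modulo `I = (1 - ζ) (1 - θ)`:
`ζ ^ (i α + j β) ≡ ζ ^ (i α' + j β') + (i s + j s') (θ - 1)` (as `ζ ^ c ≡ 1` modulo `1 - ζ`).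
By `cc_level` (`d / m = l`) the difference is therefore
`≡ (θ - 1) ∑_(α, β < d) CC p d g α β (i (α / m) + j (β / m))`, and it is enough that
`1 - ζ` divides the integer `∑_(α, β) CC p d g α β (α / m)` times `i`, and the same with `β`; `1 - ζ ∣ l`
(`dvd_prime`), so it is enough that `l` divides `S = ∑_(α, β) CC p d g α β (α / m)` (or that the whole
coefficient vanishes). For `α > 0` the number `∑_β CC p d g α β` is the number of the `x ≠ 0, 1` of
class `α`, which is `(p - 1) / d` (`1` has the class `0`); for `α = 0` the factor `α / m` is `0`. So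
`S = ((p - 1) / d) ∑_(α < d) (α / m) = ((p - 1) / d) m (l (l - 1) / 2) = (p - 1) (l - 1) / 2`.
For odd `l` it is divisible by `l`, as `d ∣ p - 1`. For `l = 2`: `S = (p - 1) / 2`, which is even if
`4 ∣ p - 1`, that is if `d ≥ 4`; and `d = 2` is excluded by the hypotheses (`i`, `j` odd,
`i + j` odd is impossible). The sum with `β / m` is the same by the symmetry `x ↦ 1 - x`
(or by the same count). ∎ (Checked by machine.)

Difficulty: 1.6 h.
-/

set_option autoImplicit false

namespace Pool.Agent.DgE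

open Finset NumberField

/-- the class of `x` (junk `0` for `x = 0`) -/
private noncomputable def cl {p : ℕ} (d : ℕ) (g x : ZMod p) : ℕ :=
  open Classical in if h : ∃ β < d, g ^ β = x ^ ((p - 1) / d) then h.choose else 0

private lemma dvd_sub_one {p d : ℕ} [Fact p.Prime] [NeZero d] {g : ZMod p}
    (hg : IsPrimitiveRoot g d) : d ∣ p - 1 := by
  have h0 : g ≠ 0 := by
    intro h
    have h1 := hg.pow_eq_one
    rw [h, zero_pow (NeZero.ne d)] at h1
    exact zero_ne_one h1
  exact hg.dvd_of_pow_eq_one (p - 1) (ZMod.pow_card_sub_one_eq_one h0)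

private lemma cl_spec {p d : ℕ} [Fact p.Prime] [NeZero d] {g : ZMod p}
    (hg : IsPrimitiveRoot g d) {x : ZMod p} (hx : x ≠ 0) :
    cl d g x < d ∧ g ^ cl d g x = x ^ ((p - 1) / d) := by
  have h1 : (x ^ ((p - 1) / d)) ^ d = 1 := by
    rw [← pow_mul, Nat.div_mul_cancel (dvd_sub_one hg)]
    exact ZMod.pow_card_sub_one_eq_one hx
  have h : ∃ β < d, g ^ β = x ^ ((p - 1) / d) := hg.eq_pow_of_pow_eq_one h1
  unfold cl
  rw [dif_pos h]
  exact h.choose_spec

private lemma cl_iff {p d : ℕ} [Fact p.Prime] [NeZero d] {g : ZMod p}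
    (hg : IsPrimitiveRoot g d) {x : ZMod p} (hx : x ≠ 0) {α : ℕ} (hα : α < d) :
    x ^ ((p - 1) / d) = g ^ α ↔ cl d g x = α := by
  obtain ⟨h1, h2⟩ := cl_spec hg hx
  constructor
  · intro h
    exact hg.pow_inj h1 hα (h2.trans h)
  · intro h
    rw [← h2, h]

/-- the set of `x ≠ 0, 1` -/
private def XX (p : ℕ) [Fact p.Prime] : Finset (ZMod p) :=
  Finset.univ.filter (fun x => x ≠ 0 ∧ x ≠ 1)

private lemma sum_cc {p d : ℕ} [Fact p.Prime] [NeZero d] {g : ZMod p}
    (hg : IsPrimitiveRoot g d) {R : Type*} [CommSemiring R] (f : ℕ → ℕ → R) :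
    ∑ α ∈ range d, ∑ β ∈ range d, (CC p d g α β : R) * f α β =
      ∑ x ∈ XX p, f (cl d g x) (cl d g (1 - x)) := by
  have h1 : ∀ α ∈ range d, ∀ β ∈ range d, (CC p d g α β : R) * f α β =
      ∑ x ∈ XX p, if cl d g x = α then (if cl d g (1 - x) = β then f α β else 0) else 0 := by
    intro α hα β hβ
    rw [mem_range] at hα hβ
    have h2 : CC p d g α β =
        ((XX p).filter (fun x => cl d g x = α ∧ cl d g (1 - x) = β)).card := by
      unfold CC XX
      rw [Nat.card_eq_fintype_card, Fintype.card_subtype]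
      congr 1
      ext x
      simp only [mem_filter, mem_univ, true_and]
      constructor
      · rintro ⟨a, b, c, e⟩
        exact ⟨⟨a, b⟩, (cl_iff hg a hα).1 c, (cl_iff hg (sub_ne_zero.2 (Ne.symm b)) hβ).1 e⟩
      · rintro ⟨⟨a, b⟩, c, e⟩
        exact ⟨a, b, (cl_iff hg a hα).2 c, (cl_iff hg (sub_ne_zero.2 (Ne.symm b)) hβ).2 e⟩
    rw [h2]
    simp only [← ite_and]
    rw [← Finset.sum_filter, Finset.sum_const, nsmul_eq_mul]
  rw [Finset.sum_congr rfl (fun α hα => Finset.sum_congr rfl (fun β hβ => h1 α hα β hβ))]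
  have h3 : ∀ α ∈ range d, ∑ β ∈ range d, ∑ x ∈ XX p,
      (if cl d g x = α then (if cl d g (1 - x) = β then f α β else 0) else 0) =
      ∑ x ∈ XX p, if cl d g x = α then f α (cl d g (1 - x)) else 0 := by
    intro α _
    rw [Finset.sum_comm]
    apply Finset.sum_congr rfl
    intro x hx
    have hx' : x ≠ 0 ∧ x ≠ 1 := by simpa [XX] using hx
    have h4 := (cl_spec hg (sub_ne_zero.2 (Ne.symm hx'.2))).1
    by_cases h : cl d g x = α
    · simp only [h, if_true]
      rw [Finset.sum_ite_eq, if_pos (mem_range.2 h4)]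
    · simp [h]
  rw [Finset.sum_congr rfl h3, Finset.sum_comm]
  apply Finset.sum_congr rfl
  intro x hx
  have hx' : x ≠ 0 ∧ x ≠ 1 := by simpa [XX] using hx
  have h4 := (cl_spec hg hx'.1).1
  rw [Finset.sum_ite_eq, if_pos (mem_range.2 h4)]

private lemma cl_level {p d m : ℕ} [Fact p.Prime] [NeZero d] [NeZero m] {g : ZMod p}
    (hg : IsPrimitiveRoot g d) {l : ℕ} (hd : d = m * l) (hg' : IsPrimitiveRoot (g ^ l) m)
    {x : ZMod p} (hx : x ≠ 0) : cl m (g ^ l) x = cl d g x % m := by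
  have hm0 : 0 < m := Nat.pos_of_ne_zero (NeZero.ne m)
  have hd0 : 0 < d := Nat.pos_of_ne_zero (NeZero.ne d)
  obtain ⟨h1, h2⟩ := cl_spec hg hx
  rw [← cl_iff hg' hx (Nat.mod_lt _ hm0)]
  obtain ⟨e, he⟩ := dvd_sub_one hg
  have h3 : (p - 1) / m = (p - 1) / d * l := by
    rw [he, Nat.mul_div_cancel_left _ hd0, hd, mul_assoc, Nat.mul_div_cancel_left _ hm0, mul_comm]
  rw [h3, pow_mul, ← h2, ← pow_mul, mul_comm, pow_mul]
  conv_lhs => rw [← Nat.div_add_mod (cl d g x) m]
  rw [pow_add, pow_mul, hg'.pow_eq_one, one_pow, one_mul]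

private lemma theta_pow {R : Type*} [CommRing R] (ζ : R) (m n : ℕ) :
    (1 - ζ) * (1 - ζ ^ m) ∣ (ζ ^ m) ^ n - 1 - n * (ζ ^ m - 1) := by
  have h1 : (ζ ^ m) ^ n - 1 = (ζ ^ m - 1) * ∑ t ∈ range n, (ζ ^ m) ^ t := by
    rw [mul_comm]
    exact (geom_sum_mul (ζ ^ m) n).symm
  have h2 : (ζ ^ m) ^ n - 1 - n * (ζ ^ m - 1) =
      (1 - ζ ^ m) * (-(∑ t ∈ range n, ((ζ ^ m) ^ t - 1))) := by
    rw [h1, Finset.sum_sub_distrib]
    simp
    ring
  rw [h2, mul_comm (1 - ζ)]
  apply mul_dvd_mul_left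
  rw [dvd_neg]
  apply Finset.dvd_sum
  intro t _
  rw [← pow_mul]
  have h3 : ζ - 1 ∣ ζ ^ (m * t) - 1 := sub_one_dvd_pow_sub_one ζ (m * t)
  rwa [← neg_dvd, neg_sub] at h3

private lemma bracket {R : Type*} [CommRing R] (ζ : R) (m i j c c' : ℕ) :
    (1 - ζ) * (1 - ζ ^ m) ∣ ζ ^ (i * c + j * c') - ζ ^ (i * (c % m) + j * (c' % m)) -
      ((i * (c / m) + j * (c' / m) : ℕ) : R) * (ζ ^ m - 1) := by
  set n := i * (c / m) + j * (c' / m) with hn
  set a := i * (c % m) + j * (c' % m) with ha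
  have h1 : ζ ^ (i * c + j * c') = ζ ^ a * (ζ ^ m) ^ n := by
    rw [← pow_mul, ← pow_add]
    congr 1
    rw [ha, hn]
    conv_lhs => rw [← Nat.div_add_mod c m, ← Nat.div_add_mod c' m]
    ring
  have h2 : ζ ^ (i * c + j * c') - ζ ^ a - (n : R) * (ζ ^ m - 1) =
      ζ ^ a * ((ζ ^ m) ^ n - 1 - n * (ζ ^ m - 1)) + (ζ ^ a - 1) * (ζ ^ m - 1) * n := by
    rw [h1]; ring
  rw [h2]
  apply dvd_add
  · exact Dvd.dvd.mul_left (theta_pow ζ m n) _
  · apply Dvd.dvd.mul_right
    apply mul_dvd_mul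
    · have h3 : ζ - 1 ∣ ζ ^ a - 1 := sub_one_dvd_pow_sub_one ζ a
      rwa [← neg_dvd, neg_sub] at h3
    · rw [← neg_dvd, neg_sub]

private lemma count {p d : ℕ} [Fact p.Prime] [NeZero d] {g : ZMod p}
    (hg : IsPrimitiveRoot g d) {α : ℕ} (hα : α < d) :
    ((Finset.univ.filter (fun x : ZMod p => x ≠ 0)).filter (fun x => cl d g x = α)).card =
      (p - 1) / d := by
  have hd0 : 0 < d := Nat.pos_of_ne_zero (NeZero.ne d)
  have hp : 1 < p := (Fact.out : p.Prime).one_lt
  obtain ⟨e, he⟩ := dvd_sub_one hg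
  have he' : (p - 1) / d = e := by rw [he, Nat.mul_div_cancel_left _ hd0]
  have he0 : 0 < e := by
    rcases Nat.eq_zero_or_pos e with h | h
    · rw [h, mul_zero] at he; omega
    · exact h
  have hle : ∀ β ∈ range d,
      ((Finset.univ.filter (fun x : ZMod p => x ≠ 0)).filter (fun x => cl d g x = β)).card ≤ e := by
    intro β hβ
    rw [mem_range] at hβ
    have h1 : (Finset.univ.filter (fun x : ZMod p => x ≠ 0)).filter (fun x => cl d g x = β) ⊆
        (Polynomial.nthRoots e (g ^ β)).toFinset := by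
      intro x hx
      simp only [mem_filter, mem_univ, true_and] at hx
      rw [Multiset.mem_toFinset, Polynomial.mem_nthRoots he0, ← he']
      exact (cl_iff hg hx.1 hβ).2 hx.2
    exact (card_le_card h1).trans ((Multiset.toFinset_card_le _).trans
      (Polynomial.card_nthRoots e (g ^ β)))
  have hsum : ∑ β ∈ range d,
      ((Finset.univ.filter (fun x : ZMod p => x ≠ 0)).filter (fun x => cl d g x = β)).card =
      ∑ β ∈ range d, e := by
    rw [← Finset.card_eq_sum_card_fiberwise]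
    · rw [Finset.sum_const, card_range, smul_eq_mul, ← he, Finset.filter_ne', 
        Finset.card_erase_of_mem (mem_univ _), Finset.card_univ, ZMod.card]
    · intro x hx
      simp only [Finset.coe_filter, mem_univ, true_and, Set.mem_ofPred_eq] at hx
      simp only [Finset.coe_range, Set.mem_Iio]
      exact (cl_spec hg hx).1
  rw [he']
  exact (Finset.sum_eq_sum_iff_of_le hle).1 hsum α (mem_range.2 hα)

private lemma sum_div (m l : ℕ) (hm : 0 < m) :
    2 * ∑ α ∈ range (m * l), α / m = m * (l * (l - 1)) := by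
  induction l with
  | zero => simp
  | succ l ih =>
    rw [mul_add, mul_one, Finset.sum_range_add, mul_add, ih]
    have h1 : ∑ x ∈ range m, (m * l + x) / m = m * l := by
      rw [Finset.sum_congr rfl (g := fun _ => l)]
      · simp
      · intro x hx
        rw [mem_range] at hx
        rw [Nat.mul_add_div hm, Nat.div_eq_of_lt hx, add_zero]
    rw [h1]
    rcases l with _ | l
    · simp
    · simp only [Nat.add_sub_cancel]
      ring

private lemma cl_one {p d : ℕ} [Fact p.Prime] [NeZero d] {g : ZMod p}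
    (hg : IsPrimitiveRoot g d) : cl d g (1 : ZMod p) = 0 := by
  rw [← cl_iff hg one_ne_zero (Nat.pos_of_ne_zero (NeZero.ne d))]
  simp

private lemma sum_S {p d : ℕ} [Fact p.Prime] [NeZero d] {g : ZMod p}
    (hg : IsPrimitiveRoot g d) {m l : ℕ} (hm : 0 < m) (hd : d = m * l) :
    2 * ∑ x ∈ XX p, cl d g x / m = (p - 1) * (l - 1) := by
  have hd0 : 0 < d := Nat.pos_of_ne_zero (NeZero.ne d)
  have h1 : ∑ x ∈ XX p, cl d g x / m =
      ∑ x ∈ Finset.univ.filter (fun x : ZMod p => x ≠ 0), cl d g x / m := by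
    apply Finset.sum_subset
    · intro x hx
      simp only [XX, mem_filter, mem_univ, true_and] at hx ⊢
      exact hx.1
    · intro x hx hx'
      simp only [XX, mem_filter, mem_univ, true_and, not_and, not_not] at hx hx'
      rw [hx' hx, cl_one hg]
      simp
  have h2 : ∑ x ∈ Finset.univ.filter (fun x : ZMod p => x ≠ 0), cl d g x / m =
      ∑ α ∈ range d, (p - 1) / d * (α / m) := by
    rw [← Finset.sum_fiberwise_of_maps_to (t := range d) (g := fun x => cl d g x)]
    · apply Finset.sum_congr rfl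
      intro α hα
      rw [Finset.sum_congr rfl (g := fun _ => α / m)]
      · rw [Finset.sum_const, smul_eq_mul, count hg (mem_range.1 hα)]
      · intro x hx
        rw [(mem_filter.1 hx).2]
    · intro x hx
      simp only [mem_filter, mem_univ, true_and] at hx
      exact mem_range.2 (cl_spec hg hx).1
  obtain ⟨e, he⟩ := dvd_sub_one hg
  rw [h1, h2, ← Finset.mul_sum]
  have h3 := sum_div m l hm
  rw [he, Nat.mul_div_cancel_left _ hd0]
  calc 2 * (e * ∑ α ∈ range d, α / m) = e * (2 * ∑ α ∈ range (m * l), α / m) := by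
        rw [hd]; ring
    _ = d * e * (l - 1) := by rw [h3, hd]; ring

private lemma dvd_S {p d : ℕ} [Fact p.Prime] [NeZero d] {g : ZMod p}
    (hg : IsPrimitiveRoot g d) {l k : ℕ} (hl : l.Prime) (hd : d = l ^ (k + 1))
    {i j : ℕ} (hi : ¬ d ∣ i) (hj : ¬ d ∣ j) (hij : ¬ d ∣ i + j) :
    l ∣ ∑ x ∈ XX p, cl d g x / l ^ k := by
  have hS := sum_S (m := l ^ k) (l := l) hg (pow_pos hl.pos k) (by rw [hd, pow_succ])
  have hdp := dvd_sub_one hg
  rcases hl.eq_two_or_odd' with h2 | hodd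
  · subst h2
    rcases Nat.eq_zero_or_pos k with hk | hk
    · subst hk
      simp only [zero_add, pow_one] at hd
      subst hd
      omega
    · have h4 : 4 ∣ p - 1 := by
        refine Dvd.dvd.trans ?_ hdp
        rw [hd]
        exact pow_dvd_pow 2 (show 2 ≤ k + 1 by omega)
      omega
  · have h5 : l ∣ 2 * ∑ x ∈ XX p, cl d g x / l ^ k := by
      rw [hS]
      apply Dvd.dvd.mul_right
      refine Dvd.dvd.trans ?_ hdp
      rw [hd]
      exact dvd_pow_self l (by omega)
    have h6 : l.Coprime 2 := by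
      rw [Nat.coprime_two_right]
      exact hodd
    exact h6.dvd_of_dvd_mul_left h5

theorem cong_pow {p d : ℕ} [Fact p.Prime] [NeZero d] {g : ZMod p} (hg : IsPrimitiveRoot g d)
    {K : Type*} [Field K] [NumberField K] {ζ : 𝓞 K} (hζ : IsPrimitiveRoot ζ d) {l k : ℕ}
    (hl : l.Prime) (hd : d = l ^ (k + 1)) {i j : ℕ} (hi : ¬ d ∣ i) (hj : ¬ d ∣ j)
    (hij : ¬ d ∣ i + j) :
    (1 - ζ) * (1 - ζ ^ (l ^ k)) ∣
      ev d (CC p d g) ζ i j - ev (l ^ k) (CC p (l ^ k) (g ^ l)) ζ i j := by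
  have hl0 : 0 < l := hl.pos
  have hm0 : 0 < l ^ k := pow_pos hl0 k
  have : NeZero (l ^ k) := ⟨hm0.ne'⟩
  have hd' : d = l ^ k * l := by rw [hd, pow_succ]
  have hg' : IsPrimitiveRoot (g ^ l) (l ^ k) := by
    refine hg.pow (Nat.pos_of_ne_zero (NeZero.ne d)) ?_
    rw [hd', mul_comm]
  have h1 : ev d (CC p d g) ζ i j =
      ∑ x ∈ XX p, ζ ^ (i * cl d g x + j * cl d g (1 - x)) :=
    sum_cc hg (fun α β => ζ ^ (i * α + j * β))
  have h2 : ev (l ^ k) (CC p (l ^ k) (g ^ l)) ζ i j =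
      ∑ x ∈ XX p, ζ ^ (i * (cl d g x % l ^ k) + j * (cl d g (1 - x) % l ^ k)) := by
    have h3 := sum_cc hg' (fun α β => ζ ^ (i * α + j * β))
    unfold ev
    rw [h3]
    apply Finset.sum_congr rfl
    intro x hx
    have hx' : x ≠ 0 ∧ x ≠ 1 := by simpa [XX] using hx
    rw [cl_level hg hd' hg' hx'.1, cl_level hg hd' hg' (sub_ne_zero.2 (Ne.symm hx'.2))]
  rw [h1, h2, ← Finset.sum_sub_distrib]
  have h4 : (1 - ζ) * (1 - ζ ^ (l ^ k)) ∣
      ∑ x ∈ XX p, (ζ ^ (i * cl d g x + j * cl d g (1 - x)) -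
        ζ ^ (i * (cl d g x % l ^ k) + j * (cl d g (1 - x) % l ^ k)) -
        ((i * (cl d g x / l ^ k) + j * (cl d g (1 - x) / l ^ k) : ℕ) : 𝓞 K) *
          (ζ ^ (l ^ k) - 1)) :=
    Finset.dvd_sum (fun x _ => bracket ζ (l ^ k) i j _ _)
  rw [Finset.sum_sub_distrib, ← Finset.sum_mul] at h4
  have h5 : (1 - ζ) * (1 - ζ ^ (l ^ k)) ∣
      (∑ x ∈ XX p, ((i * (cl d g x / l ^ k) + j * (cl d g (1 - x) / l ^ k) : ℕ) : 𝓞 K)) *
        (ζ ^ (l ^ k) - 1) := by
    apply mul_dvd_mul
    · rw [← Nat.cast_sum]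
      have h6 : (1 - ζ : 𝓞 K) ∣ (l : 𝓞 K) := dvd_prime (k := k) hl (by rw [← hd]; exact hζ)
      refine h6.trans ?_
      apply Nat.cast_dvd_cast
      rw [Finset.sum_add_distrib, ← Finset.mul_sum, ← Finset.mul_sum]
      have h7 := dvd_S hg hl hd hi hj hij
      have h8 : ∑ x ∈ XX p, cl d g (1 - x) / l ^ k = ∑ x ∈ XX p, cl d g x / l ^ k := by
        refine Finset.sum_nbij' (fun x => 1 - x) (fun x => 1 - x) ?_ ?_ ?_ ?_ ?_
        · intro x hx
          simp only [XX, mem_filter, mem_univ, true_and] at hx ⊢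
          refine ⟨sub_ne_zero.2 (Ne.symm hx.2), ?_⟩
          intro h
          apply hx.1
          have h9 : (1 : ZMod p) - (1 - x) = 0 := by rw [h, sub_self]
          simpa using h9
        · intro x hx
          simp only [XX, mem_filter, mem_univ, true_and] at hx ⊢
          refine ⟨sub_ne_zero.2 (Ne.symm hx.2), ?_⟩
          intro h
          apply hx.1
          have h9 : (1 : ZMod p) - (1 - x) = 0 := by rw [h, sub_self]
          simpa using h9
        · intro x _
          simp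
        · intro x _
          simp
        · intro x _
          rfl
      rw [h8]
      exact dvd_add (Dvd.dvd.mul_left h7 _) (Dvd.dvd.mul_left h7 _)
    · rw [← neg_dvd, neg_sub]
  have h9 := dvd_add h4 h5
  rwa [sub_add_cancel] at h9

end Pool.Agent.DgE
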