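import Pool.Agent.DgE.Defs

/-!
# Package DgE-EvB: the zeros of the Jacobi sums modulo `p`

*`ev_root`*. Let `E = (p - 1) / d` (`d ∣ p - 1`), `a = ((t i) % d) E`, `b = ((t j) % d) E`;
`a, b ≥ 1`, as `t` is coprime to `d` and `d ∤ i`, `d ∤ j`. For `x ≠ 0, 1` of class `α`, with
`1 - x` of class `β`:
`(g ^ t) ^ (i α + j β) = (x ^ E) ^ (t i) ((1 - x) ^ E) ^ (t j) = x ^ a (1 - x) ^ b`
(`x ^ (d E) = 1`, Fermat). So the left side is `∑_(x : ZMod p) x ^ a (1 - x) ^ b`
(group by classes; each `x ≠ 0` has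
exactly one class `< d`; the terms of `x = 0, 1` vanish)
`= ∑_(k ≤ b) (-1) ^ k (b choose k) ∑_x x ^ (a + k)`. `∑_x x ^ m` is `-1` if `m > 0` and
`p - 1 ∣ m`, else `0` for `m > 0` (`FiniteField.sum_pow_lt_card_sub_one`,
`FiniteField.sum_pow_units`). Here `0 < a + k ≤ a + b < 2 (p - 1)`, so only `a + k = p - 1`
contributes, if `a + b ≥ p - 1`: the sum is `∓ (b choose (p - 1 - a))`, which is not `0` modulo `p`
as `b < p` (`Nat.Prime.dvd_choose`-like). `a + b < p - 1` iff `(t i) % d + (t j) % d < d`, and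
`(t i) % d + (t j) % d = d` is impossible as `d ∤ t (i + j)`. ∎ (Checked by machine.)

Difficulty: 1.5 h.
-/

set_option autoImplicit false

namespace Pool.Agent.DgE

open Finset

private theorem sum_pow_small {p : ℕ} [Fact p.Prime] {m : ℕ} (h1 : m < 2 * (p - 1)) :
    0 < m → ∑ x : ZMod p, x ^ m = if m = p - 1 then -1 else 0 := by
  intro h0
  have hp : p.Prime := Fact.out
  have hp2 := hp.two_le
  have hcard : Fintype.card (ZMod p) = p := ZMod.card p
  by_cases hlt : m < p - 1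
  · rw [if_neg (by omega)]
    exact FiniteField.sum_pow_lt_card_sub_one (ZMod p) m (by rw [hcard]; exact hlt)
  · have hfer : ∀ x : ZMod p, x ^ m = if x = 0 then 0 else x ^ (m - (p - 1)) := by
      intro x
      by_cases hx : x = 0
      · rw [if_pos hx, hx, zero_pow h0.ne']
      · rw [if_neg hx]
        have h2 : m = (p - 1) + (m - (p - 1)) := by omega
        conv_lhs => rw [h2, pow_add, ZMod.pow_card_sub_one_eq_one hx, one_mul]
    by_cases he : m = p - 1
    · rw [if_pos he]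
      have h3 : ∀ x : ZMod p, x ^ m = 1 - if x = 0 then 1 else 0 := by
        intro x
        rw [hfer x, he, Nat.sub_self, pow_zero]
        by_cases hx : x = 0
        · rw [if_pos hx, if_pos hx, sub_self]
        · rw [if_neg hx, if_neg hx, sub_zero]
      simp only [h3, sum_sub_distrib, sum_const, card_univ, hcard, sum_ite_eq', mem_univ,
        if_true, nsmul_eq_mul, CharP.cast_eq_zero, zero_mul, zero_sub]
    · rw [if_neg he]
      have h4 : ∀ x : ZMod p, x ^ m = x ^ (m - (p - 1)) := by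
        intro x
        rw [hfer]
        by_cases hx : x = 0
        · rw [if_pos hx, hx, zero_pow (by omega)]
        · rw [if_neg hx]
      simp only [h4]
      exact FiniteField.sum_pow_lt_card_sub_one (ZMod p) _ (by rw [hcard]; omega)

private theorem beta_sum {p : ℕ} [Fact p.Prime] {a b : ℕ} (ha : 0 < a) (ha' : a < p - 1)
    (hb' : b < p - 1) :
    ∑ x : ZMod p, x ^ a * (1 - x) ^ b = 0 ↔ a + b < p - 1 := by
  have hp : p.Prime := Fact.out
  have h1 : ∑ x : ZMod p, x ^ a * (1 - x) ^ b = ∑ k ∈ range (b + 1),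
      (-1) ^ k * (b.choose k : ZMod p) * ∑ x : ZMod p, x ^ (a + k) := by
    have h2 : ∀ x : ZMod p, x ^ a * (1 - x) ^ b = ∑ k ∈ range (b + 1),
        (-1) ^ k * (b.choose k : ZMod p) * x ^ (a + k) := by
      intro x
      have h3 : (1 - x) = -x + 1 := by ring
      rw [h3, add_pow, mul_sum]
      refine sum_congr rfl fun k _ => ?_
      rw [one_pow, neg_pow, pow_add]
      ring
    simp only [h2]
    rw [sum_comm]
    refine sum_congr rfl fun k _ => ?_
    rw [mul_sum]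
  rw [h1]
  have h4 : ∀ k ∈ range (b + 1), (-1) ^ k * (b.choose k : ZMod p) *
      ∑ x : ZMod p, x ^ (a + k) = if k = p - 1 - a then
        -((-1) ^ k * (b.choose k : ZMod p)) else 0 := by
    intro k hk
    rw [mem_range] at hk
    rw [sum_pow_small (by omega) (by omega)]
    by_cases hka : k = p - 1 - a
    · rw [if_pos (by omega), if_pos hka]
      ring
    · rw [if_neg (by omega), if_neg hka, mul_zero]
  rw [sum_congr rfl h4, sum_ite_eq']
  by_cases hab : a + b < p - 1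
  · rw [if_neg]
    · exact ⟨fun _ => hab, fun _ => rfl⟩
    · rw [mem_range]
      omega
  · rw [if_pos (by rw [mem_range]; omega)]
    refine ⟨fun h => ?_, fun h => absurd h hab⟩
    exfalso
    have h5 : ((b.choose (p - 1 - a) : ℕ) : ZMod p) ≠ 0 := by
      intro h6
      rw [ZMod.natCast_eq_zero_iff] at h6
      have h7 : p ∣ b.factorial := by
        rw [← Nat.choose_mul_factorial_mul_factorial (show p - 1 - a ≤ b by omega)]
        exact Dvd.dvd.mul_right (Dvd.dvd.mul_right h6 _) _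
      have h8 := (hp.dvd_factorial).1 h7
      omega
    rw [neg_eq_zero, mul_eq_zero] at h
    rcases h with h | h
    · exact pow_ne_zero _ (neg_ne_zero.2 one_ne_zero) h
    · exact h5 h

private theorem ev_eq_sum {p d : ℕ} [Fact p.Prime] [NeZero d] {g : ZMod p}
    (hg : IsPrimitiveRoot g d) (hd : d ∣ p - 1) (i j t : ℕ) :
    ev d (CC p d g) (g ^ t) i j = ∑ x : ZMod p, if x ≠ 0 ∧ x ≠ 1 then
      (x ^ ((p - 1) / d)) ^ (t * i) * ((1 - x) ^ ((p - 1) / d)) ^ (t * j) else 0 := by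
  classical
  have hd0 : 0 < d := Nat.pos_of_ne_zero (NeZero.ne d)
  have hE : (p - 1) / d * d = p - 1 := Nat.div_mul_cancel hd
  have hroot : ∀ x : ZMod p, x ≠ 0 → ∃ α < d, g ^ α = x ^ ((p - 1) / d) := by
    intro x hx
    refine hg.eq_pow_of_pow_eq_one ?_
    rw [← pow_mul, hE, ZMod.pow_card_sub_one_eq_one hx]
  have hCC : ∀ α β : ℕ, ((CC p d g α β : ℕ) : ZMod p) * (g ^ t) ^ (i * α + j * β) =
      ∑ x : ZMod p, if x ≠ 0 ∧ x ≠ 1 ∧ x ^ ((p - 1) / d) = g ^ α ∧
        (1 - x) ^ ((p - 1) / d) = g ^ β then (g ^ t) ^ (i * α + j * β) else 0 := by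
    intro α β
    unfold CC
    rw [Nat.card_eq_fintype_card, Fintype.card_subtype, ← sum_filter, sum_const, nsmul_eq_mul]
  unfold ev
  simp only [hCC]
  have hswap : ∑ α ∈ range d, ∑ β ∈ range d, ∑ x : ZMod p,
      (if x ≠ 0 ∧ x ≠ 1 ∧ x ^ ((p - 1) / d) = g ^ α ∧
        (1 - x) ^ ((p - 1) / d) = g ^ β then (g ^ t) ^ (i * α + j * β) else 0) =
      ∑ x : ZMod p, ∑ α ∈ range d, ∑ β ∈ range d,
      (if x ≠ 0 ∧ x ≠ 1 ∧ x ^ ((p - 1) / d) = g ^ α ∧
        (1 - x) ^ ((p - 1) / d) = g ^ β then (g ^ t) ^ (i * α + j * β) else 0) := by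
    exact (sum_congr rfl fun α _ => sum_comm).trans sum_comm
  rw [hswap]
  refine sum_congr rfl fun x _ => ?_
  by_cases hx : x ≠ 0 ∧ x ≠ 1
  · rw [if_pos hx]
    obtain ⟨α, hα, hα'⟩ := hroot x hx.1
    obtain ⟨β, hβ, hβ'⟩ := hroot (1 - x) (sub_ne_zero.2 hx.2.symm)
    rw [sum_eq_single_of_mem α (mem_range.2 hα), sum_eq_single_of_mem β (mem_range.2 hβ)]
    · rw [if_pos ⟨hx.1, hx.2, hα'.symm, hβ'.symm⟩, ← hα', ← hβ', ← pow_mul, ← pow_mul,
        ← pow_mul, ← pow_add]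
      congr 1
      ring
    · intro β' hb hne
      rw [if_neg]
      rintro ⟨-, -, -, h⟩
      rw [← hβ'] at h
      exact hne (hg.pow_inj hβ (mem_range.1 hb) h).symm
    · intro α' ha hne
      refine sum_eq_zero fun β' _ => ?_
      rw [if_neg]
      rintro ⟨-, -, h, -⟩
      rw [← hα'] at h
      exact hne (hg.pow_inj hα (mem_range.1 ha) h).symm
  · rw [if_neg hx]
    refine sum_eq_zero fun α _ => sum_eq_zero fun β _ => ?_
    rw [if_neg]
    rintro ⟨h1, h2, -⟩
    exact hx ⟨h1, h2⟩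

theorem ev_root {p d : ℕ} [Fact p.Prime] [NeZero d] {g : ZMod p} (hg : IsPrimitiveRoot g d)
    {i j t : ℕ} (hi : ¬ d ∣ i) (hj : ¬ d ∣ j) (hij : ¬ d ∣ i + j) (ht : t.Coprime d) :
    ev d (CC p d g) (g ^ t) i j = 0 ↔ (t * i) % d + (t * j) % d < d := by
  have hp : p.Prime := Fact.out
  have hp2 := hp.two_le
  have hd0 : 0 < d := Nat.pos_of_ne_zero (NeZero.ne d)
  have hg0 : g ≠ 0 := hg.ne_zero hd0.ne'
  have hd : d ∣ p - 1 := hg.dvd_of_pow_eq_one _ (ZMod.pow_card_sub_one_eq_one hg0)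
  have hE : (p - 1) / d * d = p - 1 := Nat.div_mul_cancel hd
  have hE0 : 0 < (p - 1) / d := Nat.div_pos (Nat.le_of_dvd (by omega) hd) hd0
  have hri : 0 < (t * i) % d := by
    refine Nat.pos_of_ne_zero fun h => hi ?_
    exact (Nat.Coprime.dvd_of_dvd_mul_left ht.symm (Nat.dvd_of_mod_eq_zero h))
  have hrj : 0 < (t * j) % d := by
    refine Nat.pos_of_ne_zero fun h => hj ?_
    exact (Nat.Coprime.dvd_of_dvd_mul_left ht.symm (Nat.dvd_of_mod_eq_zero h))
  have hri' : (t * i) % d < d := Nat.mod_lt _ hd0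
  have hrj' : (t * j) % d < d := Nat.mod_lt _ hd0
  have hred : ∀ (x : ZMod p), x ≠ 0 → ∀ n : ℕ,
      (x ^ ((p - 1) / d)) ^ n = x ^ ((p - 1) / d * (n % d)) := by
    intro x hx n
    conv_lhs => rw [← Nat.div_add_mod n d, pow_add, pow_mul, ← pow_mul x, hE,
      ZMod.pow_card_sub_one_eq_one hx, one_pow, one_mul]
    rw [← pow_mul]
  set a := (p - 1) / d * ((t * i) % d) with ha
  set b := (p - 1) / d * ((t * j) % d) with hb
  have ha0 : 0 < a := Nat.mul_pos hE0 hri
  have hb0 : 0 < b := Nat.mul_pos hE0 hrj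
  have ha1 : a < p - 1 := by
    rw [← hE]
    exact Nat.mul_lt_mul_of_pos_left hri' hE0
  have hb1 : b < p - 1 := by
    rw [← hE]
    exact Nat.mul_lt_mul_of_pos_left hrj' hE0
  rw [ev_eq_sum hg hd]
  have hsum : ∀ x : ZMod p, (if x ≠ 0 ∧ x ≠ 1 then
      (x ^ ((p - 1) / d)) ^ (t * i) * ((1 - x) ^ ((p - 1) / d)) ^ (t * j) else 0) =
      x ^ a * (1 - x) ^ b := by
    intro x
    by_cases hx0 : x = 0
    · rw [if_neg (fun h => h.1 hx0), hx0, zero_pow ha0.ne', zero_mul]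
    · by_cases hx1 : x = 1
      · rw [if_neg (fun h => h.2 hx1), hx1, sub_self, zero_pow hb0.ne', mul_zero]
      · rw [if_pos ⟨hx0, hx1⟩, hred x hx0, hred (1 - x) (sub_ne_zero.2 (Ne.symm hx1))]
  simp only [hsum]
  rw [beta_sum ha0 ha1 hb1]
  conv_lhs => rw [← hE, ha, hb, ← Nat.mul_add]
  exact Nat.mul_lt_mul_left hE0

end Pool.Agent.DgE
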