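import Pool.Agent.DgE.NonU

/-!
# Package DgE-RootA: roots of unity close to `1`, composite order

`d` has at least two prime factors. *`root_one_comp`*: let `u ≠ 1` have order `N > 1` and let `r` be a
prime factor of `N`; `v = u ^ (N / r)` is a primitive `r`-th root of unity, `u - 1 ∣ v - 1` and
`1 - v ∣ r` (`dvd_prime` with `k = 0`). Choose a prime `l ∣ d`, `l ≠ r` (`l₁` or `l₂`), write
`d = l ^ (k + 1) m` with `l ∤ m`; `m ≠ d`, and `ζ ^ m` is a primitive root of unity of order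
`l ^ (k + 1)`. Then `1 - ζ ^ m` divides `u - 1`, so `r`; and it divides `l` (`dvd_prime`). As `l`, `r` are
coprime it divides `1`, against `not_unit`. ∎

Difficulty: 1.0 h.
-/

set_option autoImplicit false

namespace Pool.Agent.DgE

open Finset NumberField

theorem root_one_comp {d : ℕ} [NeZero d] {K : Type*} [Field K] [NumberField K] {ζ : 𝓞 K}
    (hζ : IsPrimitiveRoot ζ d) {l₁ l₂ : ℕ} (h1 : l₁.Prime) (h2 : l₂.Prime) (h12 : l₁ ≠ l₂)
    (hd1 : l₁ ∣ d) (hd2 : l₂ ∣ d) {u : 𝓞 K} (hu : IsOfFinOrder u)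
    (h : ∀ m, m ∣ d → m ≠ d → 1 - ζ ^ m ∣ u - 1) : u = 1 := by
  by_contra hu1
  have hN0 : 0 < orderOf u := hu.orderOf_pos
  have hN1 : orderOf u ≠ 1 := fun h0 => hu1 (orderOf_eq_one_iff.1 h0)
  set r := (orderOf u).minFac with hr
  have hrp : r.Prime := Nat.minFac_prime hN1
  obtain ⟨c, hc⟩ : r ∣ orderOf u := Nat.minFac_dvd _
  have hv : IsPrimitiveRoot (u ^ c) r := by
    refine (IsPrimitiveRoot.orderOf u).pow hN0 ?_
    rw [hc, mul_comm]
  have hv1 : u - 1 ∣ u ^ c - 1 := by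
    have h0 := sub_dvd_pow_sub_pow u 1 c
    rwa [one_pow] at h0
  have hv2 : 1 - u ^ c ∣ (r : 𝓞 K) := by
    refine dvd_prime (k := 0) hrp ?_
    rw [zero_add, pow_one]
    exact hv
  have hur : u - 1 ∣ (r : 𝓞 K) := by
    refine hv1.trans ?_
    rw [← neg_sub]
    exact (neg_dvd).2 hv2
  obtain ⟨l, hl, hlr, hld⟩ : ∃ l : ℕ, l.Prime ∧ l ≠ r ∧ l ∣ d := by
    by_cases h0 : l₁ = r
    · exact ⟨l₂, h2, fun h3 => h12 (h0.trans h3.symm), hd2⟩
    · exact ⟨l₁, h1, h0, hd1⟩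
  have hd0 : d ≠ 0 := NeZero.ne d
  obtain ⟨e, m, hm, hdm⟩ := Nat.exists_eq_pow_mul_and_not_dvd hd0 l hl.ne_one
  have he : e ≠ 0 := by
    rintro rfl
    rw [pow_zero, one_mul] at hdm
    exact hm (hdm ▸ hld)
  obtain ⟨k, rfl⟩ := Nat.exists_eq_succ_of_ne_zero he
  have hη : IsPrimitiveRoot (ζ ^ m) (l ^ (k + 1)) := by
    refine hζ.pow (Nat.pos_of_ne_zero hd0) ?_
    rw [hdm, mul_comm]
  have hmd : m ∣ d := ⟨l ^ (k + 1), by rw [hdm, mul_comm]⟩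
  have hmne : m ≠ d := by
    intro h0
    have h3 : 0 < m := Nat.pos_of_ne_zero fun h4 => hd0 (h0 ▸ h4)
    have h4 : 1 < l ^ (k + 1) := Nat.one_lt_pow (Nat.succ_ne_zero k) hl.one_lt
    have h5 : m * 1 < m * l ^ (k + 1) := Nat.mul_lt_mul_of_pos_left h4 h3
    rw [mul_one, mul_comm m, ← Nat.succ_eq_add_one, ← hdm, ← h0] at h5
    exact lt_irrefl _ h5
  have h6 : 1 - ζ ^ m ∣ (r : 𝓞 K) := (h m hmd hmne).trans hur
  have h7 : 1 - ζ ^ m ∣ (l : 𝓞 K) := dvd_prime hl hη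
  have h8 : IsCoprime ((l : ℤ)) ((r : ℤ)) :=
    Nat.isCoprime_iff_coprime.2 ((Nat.coprime_primes hl hrp).2 hlr)
  have h9 : IsCoprime (l : 𝓞 K) (r : 𝓞 K) := by
    have h10 := h8.map (Int.castRingHom (𝓞 K))
    simpa using h10
  exact not_unit hl hη (h9.isUnit_of_dvd' h7 h6)

end Pool.Agent.DgE
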