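import Pool.Agent.DgE.NonU

/-!
# Package DgE-RootB: roots of unity close to `1`, prime power order

`d = l ^ (k + 1)`, `m = l ^ k`, `K = ℚ(ζ)`. *`root_one_pow`*: the roots of unity of `K` are `± ζ ^ s`
(for odd `d`: `IsPrimitiveRoot.exists_neg_pow_of_isOfFinOrder`; for even `d`, `l = 2`:
`ζ ^ s` alone, as `-1 = ζ ^ (d / 2)`: see
`Mathlib.NumberTheory.Cyclotomic.PrimitiveRoots`, `dvd_of_isCyclotomicExtension` and
`IsPrimitiveRoot.eq_pow_of_pow_eq_one`).

(a) `u = ζ ^ s ≠ 1`: `u` is a primitive root of unity of order `l ^ r`, `r ≥ 1`, and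
`v = u ^ (l ^ (r - 1))` is one of order `l`, as is `ζ ^ m`; so `ζ ^ m = v ^ c` and
`1 - u ∣ 1 - v ∣ 1 - ζ ^ m`. With the hypothesis `(1 - ζ) (1 - ζ ^ m) ∣ 1 - ζ ^ m`, so `1 - ζ` is a
unit (`1 - ζ ^ m ≠ 0`), against `not_unit`.
(b) `u = - ζ ^ s` with `l` odd: `1 - ζ` divides `u - 1 = -(ζ ^ s + 1)` and `1 - ζ ^ s`, so it divides
`2`; it divides `l` (`dvd_prime`), so it is a unit, a contradiction. ∎

Difficulty: 1.2 h.
-/

set_option autoImplicit false

namespace Pool.Agent.DgE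

open Finset NumberField

private theorem rb_sub {R : Type*} [CommRing R] (x : R) (n : ℕ) : 1 - x ∣ 1 - x ^ n := by
  have := sub_dvd_pow_sub_pow (1 : R) x n
  simpa using this

/-- The case that `u` has order a power of `l`. -/
private theorem rb_pow {K : Type*} [Field K] [NumberField K] {ζ : 𝓞 K} {l k : ℕ} (hl : l.Prime)
    (hζ : IsPrimitiveRoot ζ (l ^ (k + 1))) {u : 𝓞 K} {r : ℕ} (hu : IsPrimitiveRoot u (l ^ (r + 1)))
    (h : (1 - ζ) * (1 - ζ ^ (l ^ k)) ∣ u - 1) : False := by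
  have hv : IsPrimitiveRoot (u ^ l ^ r) l :=
    hu.pow (pow_pos hl.pos _) (by rw [pow_succ])
  have hz : IsPrimitiveRoot (ζ ^ l ^ k) l :=
    hζ.pow (pow_pos hl.pos _) (by rw [pow_succ])
  have : NeZero l := ⟨hl.ne_zero⟩
  obtain ⟨i, -, hi⟩ := hv.eq_pow_of_pow_eq_one hz.pow_eq_one
  have h1 : 1 - u ∣ 1 - ζ ^ l ^ k := by
    rw [← hi]
    exact (rb_sub u (l ^ r)).trans (rb_sub (u ^ l ^ r) i)
  have h2 : (1 - ζ) * (1 - ζ ^ (l ^ k)) ∣ 1 - ζ ^ l ^ k := by
    refine h.trans ?_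
    rw [← neg_sub 1 u, neg_dvd]
    exact h1
  have h3 : (1 - ζ ^ l ^ k : 𝓞 K) ≠ 0 := by
    intro h4
    exact hz.ne_one hl.one_lt (sub_eq_zero.1 h4).symm
  obtain ⟨c, hc⟩ := h2
  refine not_unit hl hζ (IsUnit.of_mul_eq_one c ?_)
  refine mul_left_cancel₀ h3 ?_
  rw [mul_one]
  calc (1 - ζ ^ l ^ k) * ((1 - ζ) * c) = (1 - ζ) * (1 - ζ ^ l ^ k) * c := by ring
    _ = 1 - ζ ^ l ^ k := hc.symm

theorem root_one_pow {d : ℕ} [NeZero d] {K : Type*} [Field K] [NumberField K]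
    [IsCyclotomicExtension {d} ℚ K] {ζ : 𝓞 K} (hζ : IsPrimitiveRoot ζ d) {l k : ℕ} (hl : l.Prime)
    (hd : d = l ^ (k + 1)) {u : 𝓞 K} (hu : IsOfFinOrder u)
    (h : (1 - ζ) * (1 - ζ ^ (l ^ k)) ∣ u - 1) : u = 1 := by
  by_contra hne
  have hN : orderOf u ≠ 0 := (orderOf_pos_iff.2 hu).ne'
  have hp : IsPrimitiveRoot u (orderOf u) := IsPrimitiveRoot.orderOf u
  have hpK : IsPrimitiveRoot (algebraMap (𝓞 K) K u) (orderOf u) :=
    hp.map_of_injective (FaithfulSMul.algebraMap_injective (𝓞 K) K)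
  have hdvd : orderOf u ∣ 2 * d := hpK.dvd_of_isCyclotomicExtension d hN
  have hN1 : orderOf u ≠ 1 := fun h1 => hne (orderOf_eq_one_iff.1 h1)
  subst hd
  rcases hl.eq_two_or_odd' with rfl | hodd
  · obtain ⟨r, -, hr⟩ := (Nat.dvd_prime_pow Nat.prime_two).1
      (show orderOf u ∣ 2 ^ (k + 2) by rw [pow_succ']; exact hdvd)
    obtain _ | r := r
    · exact hN1 (by simpa using hr)
    · rw [hr] at hp
      exact rb_pow hl hζ hp h
  · rcases Nat.even_or_odd (orderOf u) with ⟨N, hN2⟩ | hoddN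
    · -- `u ^ N = -1`
      have hN0 : N ≠ 0 := by rintro rfl; exact hN (by simpa using hN2)
      have hNd : N ∣ l ^ (k + 1) := by
        rw [hN2, ← two_mul] at hdvd
        exact Nat.dvd_of_mul_dvd_mul_left two_pos hdvd
      have hNodd : Odd N := by
        rcases Nat.even_or_odd N with he | ho
        · exfalso
          have h2 : 2 ∣ l ^ (k + 1) := (even_iff_two_dvd.1 he).trans hNd
          have := Nat.Prime.dvd_of_dvd_pow Nat.prime_two h2
          rw [Nat.prime_dvd_prime_iff_eq Nat.prime_two hl] at this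
          subst this
          exact (by decide : ¬ Odd 2) hodd
        · exact ho
      have hsq : (u ^ N) ^ 2 = 1 := by
        rw [← pow_mul, mul_two, ← hN2]; exact hp.pow_eq_one
      have hne1 : u ^ N ≠ 1 := by
        intro h1
        have := Nat.le_of_dvd (Nat.pos_of_ne_zero hN0) (orderOf_dvd_of_pow_eq_one h1)
        omega
      have hm1 : u ^ N = -1 := by
        rcases sq_eq_one_iff.1 hsq with h1 | h1
        · exact absurd h1 hne1
        · exact h1
      have hw : (-u) ^ l ^ (k + 1) = 1 := by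
        obtain ⟨t, ht⟩ := hNd
        rw [ht, pow_mul, hNodd.neg_pow, hm1]
        simp
      obtain ⟨s, -, hs⟩ := hζ.eq_pow_of_pow_eq_one hw
      have h1 : 1 - ζ ∣ u - 1 := (dvd_mul_right _ _).trans h
      have h2 : 1 - ζ ∣ 1 + u := by
        have := rb_sub ζ s
        rw [hs] at this
        simpa using this
      have h3 : 1 - ζ ∣ 2 := by
        have := dvd_sub h2 h1
        have h4 : (1 + u) - (u - 1) = 2 := by ring
        rwa [h4] at this
      have h5 : 1 - ζ ∣ (l : 𝓞 K) := dvd_prime hl hζ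
      obtain ⟨q, hq⟩ := hodd
      refine not_unit hl hζ (isUnit_of_dvd_one ?_)
      have h6 : (l : 𝓞 K) - 2 * q = 1 := by
        rw [hq]; push_cast; ring
      have h7 : 1 - ζ ∣ (l : 𝓞 K) - 2 * q := dvd_sub h5 (h3.mul_right _)
      rwa [h6] at h7
    · have hNd : orderOf u ∣ l ^ (k + 1) :=
        (Nat.Coprime.dvd_of_dvd_mul_left (Nat.Coprime.symm
          (Nat.coprime_two_left.2 hoddN)) hdvd)
      obtain ⟨r, -, hr⟩ := (Nat.dvd_prime_pow hl).1 hNd
      obtain _ | r := r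
      · exact hN1 (by simpa using hr)
      · rw [hr] at hp
        exact rb_pow hl hζ hp h

end Pool.Agent.DgE
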