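import Pool.Agent.DgE.Defs

/-!
# Package DgE-Unit: two elements of `ℤ[ζ]` of norm `p` with the same zeros differ by a root of unity

`A, B` are polynomials over `ℤ`; `A' = A(X ^ (d - 1))` (`Polynomial.expand` or `comp`), so
`A'(ζ) = A(ζ ^ (d - 1))`.

*`unit_of`*. (1) `A A' - p` vanishes at `ζ`, so the cyclotomic polynomial `Φ = cyclotomic d ℤ` (the
minimal polynomial of `ζ` over `ℤ`, `Polynomial.cyclotomic_eq_minpoly`) divides it
(`minpoly.isIntegrallyClosed_dvd`); so for `t` coprime to `d`, as `g ^ t` is a root of `Φ` modulo `p`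
(`IsPrimitiveRoot.pow_of_coprime`, `Polynomial.isRoot_cyclotomic_iff`; `p ∤ d` follows from
`d ∣ p - 1`), `A(g ^ t) A'(g ^ t) = 0`, where `A'(g ^ t) = A(g ^ (t (d - 1)))`.
(2) `W = B A'` vanishes modulo `p` at all `g ^ t`, `t` coprime to `d`: if `T t` then `B(g ^ t) = 0`; if
not then `A(g ^ t) ≠ 0`, so `A'(g ^ t) = 0` by (1).
(3) So `Φ mod p = ∏ (X - g ^ t)` divides `W mod p`
(`Polynomial.cyclotomic_eq_prod_X_sub_primitiveRoots`; every primitive `d`-th root of `1` in `ZMod p`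
is a `g ^ t`), i.e. `W = Φ Q + p R` with integer polynomials (division with remainder by the monic
`Φ`: the remainder is `0` modulo `p`, so `p` times a polynomial). Let `u = R(ζ)`, `ū = R(ζ ^ (d - 1))`:
`B(ζ) A'(ζ) = p u`. Multiply by `A(ζ)`: `p B(ζ) = p u A(ζ)`, so `B(ζ) = u A(ζ)`.
(4) At `ζ ^ (d - 1)` (also a root of `Φ`): `B(ζ ^ (d - 1)) A(ζ) = p ū` (`ζ ^ ((d - 1) (d - 1)) = ζ`); the
product of the two equations gives `p ^ 2 = p ^ 2 u ū`, so `u ū = 1`.
(5) For each embedding `φ : K → ℂ` we have `φ ū = conj (φ u)` (`φ ζ` is a root of unity, so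
`φ (ζ ^ (d - 1)) = conj (φ ζ)`, and `R` has integer coefficients), so `‖φ u‖ = 1`, and `u` is a root of
unity (`NumberField.Embeddings.pow_eq_one_of_norm_eq_one`). ∎

Difficulty: 2.0 h.
-/

set_option autoImplicit false

namespace Pool.Agent.DgE

open Finset NumberField Polynomial

private theorem Unit_hom {R S : Type*} [CommRing R] [CommRing S] (f : R →+* S) (x : R) (P : ℤ[X]) :
    f (aeval x P) = aeval (f x) P :=
  (Polynomial.aeval_algHom_apply f.toIntAlgHom x P).symm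

private theorem Unit_dvd {d : ℕ} [NeZero d] {K : Type*} [Field K] [NumberField K] {ζ : 𝓞 K}
    (hζ : IsPrimitiveRoot ζ d) {P : ℤ[X]} (hP : aeval ζ P = 0) : cyclotomic d ℤ ∣ P := by
  have hz : IsPrimitiveRoot (algebraMap (𝓞 K) K ζ) d :=
    hζ.map_of_injective (NumberField.RingOfIntegers.coe_injective)
  rw [cyclotomic_eq_minpoly hz (Nat.pos_of_neZero d)]
  refine minpoly.isIntegrallyClosed_dvd (hz.isIntegral (Nat.pos_of_neZero d)) ?_
  rw [← Unit_hom, hP, map_zero]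

private theorem Unit_root {d : ℕ} [NeZero d] {R : Type*} [CommRing R] [IsDomain R] {x : R}
    (hx : IsPrimitiveRoot x d) : aeval x (cyclotomic d ℤ) = 0 := by
  have h := hx.isRoot_cyclotomic (Nat.pos_of_neZero d)
  rw [IsRoot.def, ← map_cyclotomic_int d R, eval_map] at h
  rw [aeval_def]
  exact h

theorem unit_of {p d : ℕ} [Fact p.Prime] [NeZero d] {g : ZMod p} (hg : IsPrimitiveRoot g d)
    {K : Type*} [Field K] [NumberField K] {ζ : 𝓞 K} (hζ : IsPrimitiveRoot ζ d)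
    (A B : ℤ[X]) (hA : aeval ζ A * aeval (ζ ^ (d - 1)) A = (p : 𝓞 K))
    (hB : aeval ζ B * aeval (ζ ^ (d - 1)) B = (p : 𝓞 K)) (T : ℕ → Prop)
    (h1 : ∀ t, t.Coprime d → T t → aeval (g ^ t) B = 0)
    (h2 : ∀ t, t.Coprime d → ¬ T t → aeval (g ^ t) A ≠ 0) :
    ∃ u : 𝓞 K, IsOfFinOrder u ∧ aeval ζ B = u * aeval ζ A := by
  classical
  have hd : 0 < d := Nat.pos_of_neZero d
  have hp : (p : ℤ) ≠ 0 := by exact_mod_cast (Fact.out : p.Prime).ne_zero
  have hpK : (p : 𝓞 K) ≠ 0 := by exact_mod_cast (Fact.out : p.Prime).ne_zero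
  set A' : ℤ[X] := A.comp (X ^ (d - 1)) with hA'
  have evA' : ∀ {R : Type _} [CommRing R] (x : R), aeval x A' = aeval (x ^ (d - 1)) A := by
    intro R _ x
    rw [hA', aeval_comp, aeval_X_pow]
  set W : ℤ[X] := B * A' with hW
  -- (1)
  have d1 : cyclotomic d ℤ ∣ A * A' - C (p : ℤ) := by
    refine Unit_dvd hζ ?_
    rw [map_sub, map_mul, evA', hA, aeval_C]
    simp
  have e1 : ∀ t, t.Coprime d → aeval (g ^ t) A * aeval (g ^ t) A' = 0 := by
    intro t ht
    obtain ⟨Q, hQ⟩ := d1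
    have h := congrArg (aeval (g ^ t)) hQ
    rw [map_sub, map_mul, map_mul, Unit_root (hg.pow_of_coprime t ht), zero_mul, aeval_C] at h
    simpa using h
  -- (2)
  have e2 : ∀ t, t.Coprime d → aeval (g ^ t) W = 0 := by
    intro t ht
    rw [hW, map_mul]
    by_cases hT : T t
    · rw [h1 t ht hT, zero_mul]
    · rw [(mul_eq_zero.1 (e1 t ht)).resolve_left (h2 t ht hT), mul_zero]
  -- (3)
  have d3 : cyclotomic d (ZMod p) ∣ W.map (Int.castRingHom (ZMod p)) := by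
    rw [cyclotomic_eq_prod_X_sub_primitiveRoots hg]
    refine Finset.prod_dvd_of_coprime ?_ fun μ hμ => ?_
    · intro a _ b _ hab
      exact pairwise_coprime_X_sub_C (fun x y h => h) hab
    · rw [dvd_iff_isRoot, IsRoot.def, eval_map]
      rw [mem_primitiveRoots hd] at hμ
      obtain ⟨t, -, ht, rfl⟩ := hg.isPrimitiveRoot_iff.1 hμ
      exact e2 t ht
  have hmon : (cyclotomic d ℤ).Monic := cyclotomic.monic d ℤ
  have d4 : (W %ₘ cyclotomic d ℤ).map (Int.castRingHom (ZMod p)) = 0 := by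
    rw [Polynomial.map_modByMonic _ hmon, map_cyclotomic_int,
      (modByMonic_eq_zero_iff_dvd (cyclotomic.monic d (ZMod p))).2 d3]
  have d5 : C (p : ℤ) ∣ W %ₘ cyclotomic d ℤ := by
    rw [C_dvd_iff_dvd_coeff]
    intro i
    have h := congrArg (fun P => coeff P i) d4
    simp only [coeff_map, coeff_zero] at h
    exact (ZMod.intCast_zmod_eq_zero_iff_dvd _ p).1 h
  obtain ⟨R, hR⟩ := d5
  have e3 : W = cyclotomic d ℤ * (W /ₘ cyclotomic d ℤ) + C (p : ℤ) * R := by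
    rw [← hR, add_comm]
    exact (modByMonic_add_div W (cyclotomic d ℤ)).symm
  have e4 : ∀ x : 𝓞 K, IsPrimitiveRoot x d →
      aeval x B * aeval (x ^ (d - 1)) A = (p : 𝓞 K) * aeval x R := by
    intro x hx
    have h : aeval x (B * A') = aeval x (cyclotomic d ℤ * (W /ₘ cyclotomic d ℤ) + C (p : ℤ) * R) :=
      congrArg (aeval x) e3
    rw [map_mul (aeval x) B A', evA', map_add, map_mul (aeval x) (cyclotomic d ℤ),
      Unit_root hx, zero_mul, zero_add, map_mul (aeval x) (C (p : ℤ)), aeval_C] at h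
    simpa using h
  have hcop : (d - 1).Coprime d := by
    have h : (d - 1).Coprime (d - 1 + 1) := by simp
    rwa [Nat.sub_add_cancel hd] at h
  have hζ' : IsPrimitiveRoot (ζ ^ (d - 1)) d := hζ.pow_of_coprime _ hcop
  have m1 : ζ ^ (d - 1) * ζ = 1 := by
    rw [← pow_succ, Nat.sub_add_cancel hd]
    exact hζ.pow_eq_one
  have m2 : (ζ ^ (d - 1)) ^ (d - 1) = ζ := by
    have h : (ζ ^ (d - 1)) ^ (d - 1) * ζ ^ (d - 1) = 1 := by
      rw [← pow_succ, Nat.sub_add_cancel hd]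
      exact hζ'.pow_eq_one
    calc (ζ ^ (d - 1)) ^ (d - 1) = (ζ ^ (d - 1)) ^ (d - 1) * (ζ ^ (d - 1) * ζ) := by
          rw [m1, mul_one]
      _ = ζ := by rw [← mul_assoc, h, one_mul]
  have f1 := e4 ζ hζ
  have f2 := e4 (ζ ^ (d - 1)) hζ'
  rw [m2] at f2
  set u := aeval ζ R with hu
  set v := aeval (ζ ^ (d - 1)) R with hv
  have g1 : aeval ζ B = u * aeval ζ A := by
    apply mul_left_cancel₀ hpK
    calc (p : 𝓞 K) * aeval ζ B = aeval ζ B * (aeval ζ A * aeval (ζ ^ (d - 1)) A) := by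
          rw [hA, mul_comm]
      _ = aeval ζ B * aeval (ζ ^ (d - 1)) A * aeval ζ A := by ring
      _ = (p : 𝓞 K) * (u * aeval ζ A) := by rw [f1]; ring
  have g2 : u * v = 1 := by
    apply mul_left_cancel₀ (mul_ne_zero hpK hpK)
    calc (p : 𝓞 K) * p * (u * v) = ((p : 𝓞 K) * u) * (p * v) := by ring
      _ = (aeval ζ B * aeval (ζ ^ (d - 1)) A) * (aeval (ζ ^ (d - 1)) B * aeval ζ A) := by
          rw [f1, f2]
      _ = (aeval ζ B * aeval (ζ ^ (d - 1)) B) * (aeval ζ A * aeval (ζ ^ (d - 1)) A) := by ring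
      _ = (p : 𝓞 K) * p * 1 := by rw [hA, hB, mul_one]
  -- (5)
  refine ⟨u, ?_, g1⟩
  have hn : ∀ φ : K →+* ℂ, ‖φ (algebraMap (𝓞 K) K u)‖ = 1 := by
    intro φ
    set ψ : 𝓞 K →+* ℂ := φ.comp (algebraMap (𝓞 K) K) with hψ
    have hw : (ψ ζ) ^ d = 1 := by rw [← map_pow, hζ.pow_eq_one, map_one]
    have hw1 : ‖ψ ζ‖ = 1 := Complex.norm_eq_one_of_pow_eq_one hw hd.ne'
    have hw2 : starRingEnd ℂ (ψ ζ) = ψ (ζ ^ (d - 1)) := by
      have h3 : ψ ζ * starRingEnd ℂ (ψ ζ) = 1 := by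
        rw [Complex.mul_conj, Complex.normSq_eq_norm_sq, hw1]
        norm_num
      have h4 : ψ ζ * ψ (ζ ^ (d - 1)) = 1 := by
        rw [← map_mul, mul_comm, m1, map_one]
      have h5 : ψ ζ ≠ 0 := left_ne_zero_of_mul_eq_one h4
      exact mul_left_cancel₀ h5 (h3.trans h4.symm)
    have h6 : starRingEnd ℂ (ψ u) = ψ v := by
      rw [hu, hv, Unit_hom ψ, Unit_hom ψ, Unit_hom (starRingEnd ℂ), hw2]
    have h7 : ψ u * starRingEnd ℂ (ψ u) = 1 := by
      rw [h6, ← map_mul, g2, map_one]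
    rw [Complex.mul_conj] at h7
    have h8 : Complex.normSq (ψ u) = 1 := by exact_mod_cast h7
    rw [Complex.normSq_eq_norm_sq] at h8
    have h9 : ‖ψ u‖ = 1 := by
      have := norm_nonneg (ψ u)
      nlinarith [sq_nonneg (‖ψ u‖ - 1)]
    exact h9
  obtain ⟨n, hn0, hn1⟩ := NumberField.Embeddings.pow_eq_one_of_norm_eq_one K ℂ
    (x := algebraMap (𝓞 K) K u) (NumberField.RingOfIntegers.isIntegral_coe u) hn
  refine isOfFinOrder_iff_pow_eq_one.2 ⟨n, hn0, ?_⟩
  apply NumberField.RingOfIntegers.coe_injective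
  rw [map_pow, hn1, map_one]

end Pool.Agent.DgE
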