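import Pool.Agent.DgE.EvA
import Pool.Agent.DgE.EvB
import Pool.Agent.DgE.Unit
import Pool.Agent.DgE.CongB
import Pool.Agent.DgE.RootA
import Pool.Agent.DgE.RootB

/-!
# Package DgE-Uniq: the conditions determine the cyclotomic numbers

*`cond_cc`*: `ev_zero`, `ev_one`, `ev_one'`, `ev_neg`, `ev_mul`, `ev_root`, `cong_div`, `cong_pow` (for
`0 < i, j < d`: `d ∣ i + j` iff `i + j = d`). In the fourth clause `i + j = d`. ∎

*`cond_uniq`*. Let `C = CC p d g`. Claim: `ev d N ζ i j = ev d C ζ i j` for all `i, j < d`. This is clear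
for the first four cases of `Cond`. Otherwise `unit_of` applies to the polynomials
`∑ C α β X ^ (i α + j β)`, `∑ N α β X ^ (i α + j β)` and `T t := (t i) % d + (t j) % d < d` (`T t` depends on
`t % d` only, as does `g ^ t`): `ev d N ζ i j = u · ev d C ζ i j`, `u` a root of unity. For `m ∣ d`,
`m ≠ d`: `1 - ζ ^ m` divides `(u - 1) ev d C ζ i j` (difference of the two congruences), so, times
`ev d C (ζ ^ (d - 1)) i j`, it divides `(u - 1) p`; it divides `d` (`1 - η ∣ d` for `η ^ d = 1`,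
`η ≠ 1`: `1 - ζ ^ m ∣ ∏_(0 < s < d / m) (1 - ζ ^ (m s)) = d / m`; or
`IsPrimitiveRoot`-lemmas), and `p`, `d` are coprime, so it divides `u - 1`. If `d` has two different
prime factors then `u = 1` by `root_one_comp`. If `d = l ^ (k + 1)`: in the same way
`(1 - ζ) (1 - ζ ^ (l ^ k))` divides `u - 1` (it divides `d ^ 2`), so `u = 1` by `root_one_pow`.
(`d = 1` has only the pair `i = j = 0`.)

Now `d ^ 2 N α₀ β₀ = ∑_(i, j < d) ζ ^ (-(i α₀ + j β₀)) ev d N ζ i j` for `α₀, β₀ < d`, and the same for `C`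
(orthogonality: `∑_(i < d) ζ ^ (i c) = 0` for `d ∤ c`, `IsPrimitiveRoot.geom_sum_eq_zero`), so
`N α₀ β₀ = C α₀ β₀` (`𝓞 K` has characteristic `0`). ∎

Difficulty: 2.0 h.
-/

set_option autoImplicit false

namespace Pool.Agent.DgE

open Finset NumberField

private theorem Uniq_not_dvd {d i j : ℕ} (hi : i < d) (hj : j < d) (hi0 : i ≠ 0)
    (hij : i + j ≠ d) : ¬ d ∣ i + j := by
  rintro ⟨c, hc⟩
  rcases c with _ | _ | c
  · omega
  · apply hij
    rw [hc, Nat.zero_add, mul_one]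
  · have h1 : d * (c + 1 + 1) = d * c + d + d := by ring
    have h2 : 0 ≤ d * c := Nat.zero_le _
    omega

theorem cond_cc {p d : ℕ} [Fact p.Prime] [NeZero d] {g : ZMod p} (hg : IsPrimitiveRoot g d)
    {K : Type*} [Field K] [NumberField K] {ζ : 𝓞 K} (hζ : IsPrimitiveRoot ζ d) :
    Cond p d g ζ (CC p d g) := by
  intro i hi j hj
  have hnd : ∀ {a : ℕ}, a < d → a ≠ 0 → ¬ d ∣ a := fun {a} h1 h2 =>
    Nat.not_dvd_of_pos_of_lt (Nat.pos_of_ne_zero h2) h1
  refine ⟨?_, ?_, ?_, ?_, ?_⟩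
  · rintro rfl rfl
    exact ev_zero hg hζ (dvd_zero d) (dvd_zero d)
  · rintro rfl h
    exact ev_one hg hζ (dvd_zero d) (hnd hj h)
  · rintro h rfl
    exact ev_one' hg hζ (hnd hi h) (dvd_zero d)
  · intro h1 h2 h3
    exact ev_neg hg hζ (hnd hi h1) (by rw [h3])
  · intro h1 h2 h3
    have h4 := Uniq_not_dvd hi hj h1 h3
    refine ⟨ev_mul hg hζ (hnd hi h1) (hnd hj h2) h4, ?_, ?_, ?_⟩
    · intro t _ ht1 ht2
      exact (ev_root hg (hnd hi h1) (hnd hj h2) h4 ht1).2 ht2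
    · intro m hm _
      exact cong_div hg ζ hm i j
    · intro l k hl hd
      exact cong_pow hg hζ hl hd (hnd hi h1) (hnd hj h2) h4

private theorem Uniq_aeval {R : Type*} [CommRing R] (d : ℕ) (N : ℕ → ℕ → ℕ) (z : R) (i j : ℕ) :
    Polynomial.aeval z (ev d N (Polynomial.X : Polynomial ℤ) i j) = ev d N z i j := by
  unfold ev
  simp only [map_sum, map_mul, map_natCast, map_pow, Polynomial.aeval_X]

private theorem Uniq_dvd_nat {R : Type*} [CommRing R] [IsDomain R] {η : R} {n : ℕ}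
    (h1 : η ^ n = 1) (h2 : η ≠ 1) : 1 - η ∣ (n : R) := by
  have h3 : ∑ i ∈ range n, η ^ i = 0 := by
    have h4 := mul_geom_sum η n
    rw [h1, sub_self] at h4
    exact (mul_eq_zero.1 h4).resolve_left (sub_ne_zero.2 h2)
  have h5 : (n : R) = ∑ i ∈ range n, (1 - η ^ i) := by
    rw [sum_sub_distrib, h3, sub_zero, sum_const, card_range, nsmul_eq_mul, mul_one]
  rw [h5]
  refine dvd_sum fun i _ => ?_
  have h6 := sub_dvd_pow_sub_pow (1 : R) η i
  rwa [one_pow] at h6

private theorem Uniq_coprime_dvd {R : Type*} [CommRing R] {x y : R} {a b : ℕ}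
    (hab : Nat.Coprime a b) (h1 : x ∣ (a : R)) (h2 : x ∣ y * b) : x ∣ y := by
  have h3 : IsCoprime (a : ℤ) (b : ℤ) := Nat.isCoprime_iff_coprime.2 hab
  obtain ⟨r, s, hrs⟩ := h3
  have h4 : (r : R) * a + s * b = 1 := by
    have h5 := congrArg (Int.cast : ℤ → R) hrs
    push_cast at h5
    exact h5
  have h6 : y = (r * y) * a + s * (y * b) := by
    calc y = y * ((r : R) * a + s * b) := by rw [h4, mul_one]
      _ = _ := by ring
  rw [h6]
  exact dvd_add (h1.mul_left _) (h2.mul_left _)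

private theorem Uniq_mod_coprime {t d : ℕ} (h : t.Coprime d) : (t % d).Coprime d := by
  unfold Nat.Coprime at h ⊢
  rw [← Nat.gcd_rec, Nat.gcd_comm]
  exact h

private theorem Uniq_coprime {p d : ℕ} [Fact p.Prime] [NeZero d] {g : ZMod p}
    (hg : IsPrimitiveRoot g d) : Nat.Coprime d p := by
  have hp : p.Prime := Fact.out
  have h0 : g ≠ 0 := hg.ne_zero (NeZero.ne d)
  have h1 : d ∣ p - 1 := hg.dvd_of_pow_eq_one _ (ZMod.pow_card_sub_one_eq_one h0)
  have h2 : d ≤ p - 1 := Nat.le_of_dvd (by have := hp.two_le; omega) h1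
  have h3 : 0 < d := Nat.pos_of_ne_zero (NeZero.ne d)
  have h4 : ¬ p ∣ d := Nat.not_dvd_of_pos_of_lt h3 (by have := hp.two_le; omega)
  exact ((hp.coprime_iff_not_dvd).2 h4).symm

private theorem Uniq_ev {p d : ℕ} [Fact p.Prime] [NeZero d] {g : ZMod p}
    (hg : IsPrimitiveRoot g d) {K : Type*} [Field K] [NumberField K]
    [IsCyclotomicExtension {d} ℚ K] {ζ : 𝓞 K} (hζ : IsPrimitiveRoot ζ d) {N : ℕ → ℕ → ℕ}
    (hN : Cond p d g ζ N) {i j : ℕ} (hi : i < d) (hj : j < d) :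
    ev d N ζ i j = ev d (CC p d g) ζ i j := by
  obtain ⟨a1, a2, a3, a4, a5⟩ := hN i hi j hj
  obtain ⟨b1, b2, b3, b4, b5⟩ := cond_cc hg hζ i hi j hj
  by_cases hi0 : i = 0
  · by_cases hj0 : j = 0
    · exact add_right_cancel ((a1 hi0 hj0).trans (b1 hi0 hj0).symm)
    · exact add_right_cancel ((a2 hi0 hj0).trans (b2 hi0 hj0).symm)
  by_cases hj0 : j = 0
  · exact add_right_cancel ((a3 hi0 hj0).trans (b3 hi0 hj0).symm)
  by_cases hij : i + j = d
  · exact add_right_cancel ((a4 hi0 hj0 hij).trans (b4 hi0 hj0 hij).symm)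
  obtain ⟨a6, a7, a8, a9⟩ := a5 hi0 hj0 hij
  obtain ⟨b6, b7, b8, b9⟩ := b5 hi0 hj0 hij
  have hni : ¬ d ∣ i := Nat.not_dvd_of_pos_of_lt (Nat.pos_of_ne_zero hi0) hi
  have hnj : ¬ d ∣ j := Nat.not_dvd_of_pos_of_lt (Nat.pos_of_ne_zero hj0) hj
  have hnij := Uniq_not_dvd hi hj hi0 hij
  have hcop := Uniq_coprime hg
  have hd0 : 0 < d := Nat.pos_of_ne_zero (NeZero.ne d)
  obtain ⟨u, hu, hu'⟩ := unit_of hg hζ (ev d (CC p d g) Polynomial.X i j)
    (ev d N Polynomial.X i j) (by rw [Uniq_aeval, Uniq_aeval, b6])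
    (by rw [Uniq_aeval, Uniq_aeval, a6]) (fun t => (t * i) % d + (t * j) % d < d) (by
      intro t ht1 ht2
      rw [Uniq_aeval]
      have e1 : g ^ t = g ^ (t % d) := by
        conv_lhs => rw [← Nat.mod_add_div t d, pow_add, pow_mul, hg.pow_eq_one, one_pow, mul_one]
      rw [e1]
      refine a7 _ (Nat.mod_lt _ hd0) (Uniq_mod_coprime ht1) ?_
      have e2 : (t % d * i) % d = (t * i) % d := (Nat.mod_modEq t d).mul_right i
      have e3 : (t % d * j) % d = (t * j) % d := (Nat.mod_modEq t d).mul_right j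
      rw [e2, e3]
      exact ht2) (by
      intro t ht1 ht2 h0
      rw [Uniq_aeval] at h0
      exact ht2 ((ev_root hg hni hnj hnij ht1).1 h0))
  rw [Uniq_aeval, Uniq_aeval] at hu'
  -- the divisibility by a divisor of a power of the order
  have key : ∀ (x : 𝓞 K) (e : ℕ), x ∣ ((d ^ e : ℕ) : 𝓞 K) →
      x ∣ ev d N ζ i j - ev d (CC p d g) ζ i j → x ∣ u - 1 := by
    intro x e h1 h2
    refine Uniq_coprime_dvd (hcop.pow_left e) h1 ?_
    rw [← b6]
    have e1 : (u - 1) * (ev d (CC p d g) ζ i j * ev d (CC p d g) (ζ ^ (d - 1)) i j) =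
        (ev d N ζ i j - ev d (CC p d g) ζ i j) * ev d (CC p d g) (ζ ^ (d - 1)) i j := by
      rw [hu']
      ring
    rw [e1]
    exact h2.mul_right _
  have hpow : ∀ m : ℕ, m ≠ 0 → m < d → 1 - ζ ^ m ∣ (d : 𝓞 K) := by
    intro m h1 h2
    refine Uniq_dvd_nat ?_ (hζ.pow_ne_one_of_pos_of_lt h1 h2)
    rw [← pow_mul, mul_comm, pow_mul, hζ.pow_eq_one, one_pow]
  have hm : ∀ m, m ∣ d → m ≠ d → 1 - ζ ^ m ∣ u - 1 := by
    intro m h1 h2
    have h3 : m ≠ 0 := by
      rintro rfl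
      exact h2 (Nat.eq_zero_of_zero_dvd h1).symm
    have h4 : m < d := lt_of_le_of_ne (Nat.le_of_dvd hd0 h1) h2
    refine key _ 1 (by rw [pow_one]; exact hpow m h3 h4) ?_
    have h5 := dvd_sub (a8 m h1 h2) (b8 m h1 h2)
    rwa [sub_sub_sub_cancel_right] at h5
  have hu1 : u = 1 := by
    have hd1 : d ≠ 1 := by omega
    obtain ⟨l, hl, hld⟩ := Nat.exists_prime_and_dvd hd1
    obtain ⟨e, m, hm1, hm2⟩ := Nat.exists_eq_pow_mul_and_not_dvd (NeZero.ne d) l hl.ne_one
    by_cases hm3 : m = 1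
    · rw [hm3, mul_one] at hm2
      rcases e with _ | k
      · rw [pow_zero] at hm2
        exact absurd hm2 hd1
      · have h1 : 1 ≠ d := fun h => hd1 h.symm
        have h2 : l ^ k < d := by
          rw [hm2]
          exact Nat.pow_lt_pow_right hl.one_lt (Nat.lt_succ_self k)
        have h3 : (1 - ζ) * (1 - ζ ^ (l ^ k)) ∣ u - 1 := by
          refine key _ 2 ?_ ?_
          · have h4 := hpow 1 one_ne_zero (by omega)
            rw [pow_one] at h4
            have h5 := hpow (l ^ k) (pow_ne_zero _ hl.ne_zero) h2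
            have h6 := mul_dvd_mul h4 h5
            rw [Nat.cast_pow, pow_two]
            exact h6
          · have h5 := dvd_sub (a9 l k hl hm2) (b9 l k hl hm2)
            rwa [sub_sub_sub_cancel_right] at h5
        exact root_one_pow hζ hl hm2 hu h3
    · obtain ⟨l2, hl2, hl2m⟩ := Nat.exists_prime_and_dvd hm3
      have h1 : l ≠ l2 := by
        rintro rfl
        exact hm1 hl2m
      have h2 : l2 ∣ d := by
        rw [hm2]
        exact hl2m.mul_left _
      exact root_one_comp hζ hl hl2 h1 hld h2 hu hm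
  rw [hu', hu1, one_mul]

private theorem Uniq_vanish {R : Type*} [CommRing R] [IsDomain R] {d : ℕ} {ζ : R}
    (hζ : IsPrimitiveRoot ζ d) (f : ℕ → R)
    (h : ∀ i < d, ∑ α ∈ range d, f α * ζ ^ (i * α) = 0) : ∀ α < d, f α = 0 := by
  have h1 := Matrix.eq_zero_of_forall_index_sum_mul_pow_eq_zero
    (f := fun i : Fin d => ζ ^ (i : ℕ)) (v := fun α : Fin d => f α) (by
      intro a b hab
      exact Fin.ext (hζ.pow_inj a.2 b.2 hab)) (by
      intro i
      have h2 := h i i.2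
      rw [Finset.sum_range] at h2
      rw [← h2]
      refine sum_congr rfl fun a _ => ?_
      rw [pow_mul])
  intro α hα
  exact congrFun h1 ⟨α, hα⟩

theorem cond_uniq {p d : ℕ} [Fact p.Prime] [NeZero d] {g : ZMod p} (hg : IsPrimitiveRoot g d)
    {K : Type*} [Field K] [NumberField K] [IsCyclotomicExtension {d} ℚ K] {ζ : 𝓞 K}
    (hζ : IsPrimitiveRoot ζ d) {N : ℕ → ℕ → ℕ} (hN : Cond p d g ζ N) {α β : ℕ} (hα : α < d)
    (hβ : β < d) : N α β = CC p d g α β := by
  have h1 : ∀ j < d, ∀ α < d,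
      ∑ β ∈ range d, ((N α β : 𝓞 K) - (CC p d g α β : 𝓞 K)) * ζ ^ (j * β) = 0 := by
    intro j hj
    refine Uniq_vanish hζ _ ?_
    intro i hi
    have h2 := Uniq_ev hg hζ hN hi hj
    rw [← sub_eq_zero] at h2
    rw [← h2]
    unfold ev
    rw [← sum_sub_distrib]
    refine sum_congr rfl fun a _ => ?_
    rw [← sum_sub_distrib, sum_mul]
    refine sum_congr rfl fun b _ => ?_
    rw [pow_add]
    ring
  have h3 := Uniq_vanish hζ (fun b => (N α b : 𝓞 K) - (CC p d g α b : 𝓞 K))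
    (fun j hj => h1 j hj α hα) β hβ
  exact_mod_cast sub_eq_zero.1 h3

end Pool.Agent.DgE
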