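import Pool.Agent.DgE.CondDef
import Pool.Agent.DgE.Uniq

/-!
# Package DgE-CycDef: the cyclotomic numbers of every order are definable

*`cyc_def`*. Strong induction on `d`. `CC` depends on `α % d`, `β % d` only (`g ^ d = 1`), so let
`α, β < d`. Let `K = CyclotomicField d ℚ` and let `ζ : 𝓞 K` be a primitive `d`-th root of unity
(`IsCyclotomicExtension.zeta_spec`, `IsPrimitiveRoot.toInteger`). If `Lev d p g` then, by `cond_cc` and
`cond_uniq`, `w = CC p d g α β` iff there are numbers `N a b ≤ p`, `a, b < d`, with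
`Cond p d g ζ N` and `w = N α β` (`CC ≤ p`; `Cond` and `ev` use only `N a b` with `a, b < d`): by
`Delta0.bexVec` (vectors of length `d * d`, `N a b = x (d * a + b)` for `a, b < d`, else `0`) and
`cond_def` this is `Delta0`. `DFun.ofGraph` with the bound `p`. (`Lev d p g` gives
`Fact p.Prime`.) ∎

Difficulty: 1.5 h.
-/

set_option autoImplicit false

namespace Pool.Agent.DgE

open Finset NumberField Pool.Agent.Grz Pool.Agent.GAvg Pool.Agent.PTr Pool.Agent.MTr
  Pool.Agent.LPC Pool.Agent.ECD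

private theorem ev_congr_CycDef {R : Type*} [CommSemiring R] {d : ℕ} {N N' : ℕ → ℕ → ℕ}
    (h : ∀ a < d, ∀ b < d, N a b = N' a b) (z : R) (i j : ℕ) :
    ev d N z i j = ev d N' z i j := by
  unfold ev
  refine Finset.sum_congr rfl fun a ha => Finset.sum_congr rfl fun b hb => ?_
  rw [h a (Finset.mem_range.1 ha) b (Finset.mem_range.1 hb)]

private theorem cond_congr_CycDef {K : Type*} [Field K] {p d : ℕ} {g : ZMod p} {ζ : 𝓞 K}
    {N N' : ℕ → ℕ → ℕ} (h : ∀ a < d, ∀ b < d, N a b = N' a b) (hN : Cond p d g ζ N) :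
    Cond p d g ζ N' := by
  unfold Cond at hN ⊢
  simp only [ev_congr_CycDef h] at hN
  exact hN

private theorem CC_mod_CycDef {p d : ℕ} {g : ZMod p} (hg : g ^ d = 1) (α β : ℕ) :
    CC p d g α β = CC p d g (α % d) (β % d) := by
  unfold CC
  rw [← pow_eq_pow_mod α hg, ← pow_eq_pow_mod β hg]

private theorem CC_le_CycDef {p d : ℕ} (hp : p.Prime) (g : ZMod p) (α β : ℕ) :
    CC p d g α β ≤ p := by
  have : Fact p.Prime := ⟨hp⟩
  unfold CC
  calc _ ≤ Nat.card (ZMod p) := Nat.card_le_card_of_injective _ Subtype.val_injective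
    _ = p := Nat.card_zmod p

/-- the table of a vector -/
private def tab_CycDef (d : ℕ) (x : Fin (d * d) → ℕ) (a b : ℕ) : ℕ :=
  if h : a < d ∧ b < d then x ⟨d * a + b, by
    calc d * a + b < d * a + d := by omega
      _ = d * (a + 1) := by ring
      _ ≤ d * d := Nat.mul_le_mul_left _ h.1⟩ else 0

private theorem step_CycDef {d : ℕ} [NeZero d]
    (ih : ∀ m, m ∣ d → m ≠ d → ∀ α β : ℕ, open scoped Classical in
      DFun 2 (fun v => if Lev m (v 0) (v 1) then CC (v 0) m (v 1 : ZMod (v 0)) α β else 0))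
    (α β : ℕ) (hα : α < d) (hβ : β < d) : open scoped Classical in
    DFun 2 (fun v => if Lev d (v 0) (v 1) then CC (v 0) d (v 1 : ZMod (v 0)) α β else 0) := by
  classical
  have hd : 0 < d := Nat.pos_of_ne_zero (NeZero.ne d)
  have hcyc : IsCyclotomicExtension {d} ℚ (CyclotomicField d ℚ) := by
    have h := CyclotomicField.isCyclotomicExtension d ℚ
    convert h
    · rfl
    · exact Subsingleton.elim _ _
  have hζ := (IsCyclotomicExtension.zeta_spec d ℚ (CyclotomicField d ℚ)).toInteger_isPrimitiveRoot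
  obtain ⟨ζ, hζ'⟩ : ∃ ζ : 𝓞 (CyclotomicField d ℚ), IsPrimitiveRoot ζ d := ⟨_, hζ⟩
  refine DFun.ofGraph (DFun.proj 0) ?_ ?_
  · intro v
    split_ifs with h
    · exact CC_le_CycDef h.1 _ _ _
    · exact Nat.zero_le _
  · have h1 : Delta0 3 (fun w => ∃ x : Fin (d * d) → ℕ, (∀ k, x k ≤ w 1) ∧
        ((Lev d (w 1) (w 2) ∧ Cond (w 1) d (w 2 : ZMod (w 1)) ζ (tab_CycDef d x)) ∧
          w 0 = tab_CycDef d x α β)) := by
      refine Delta0.bexVec (DFun.proj 1) (P := fun x w =>
        (Lev d (w 1) (w 2) ∧ Cond (w 1) d (w 2 : ZMod (w 1)) ζ (tab_CycDef d x)) ∧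
          w 0 = tab_CycDef d x α β) ?_
      intro m x v hx hv
      have hN : ∀ a b, DFun m (fun w => tab_CycDef d (fun k => x k w) a b) := by
        intro a b
        unfold tab_CycDef
        by_cases h : a < d ∧ b < d
        · simp only [h, and_self, dif_pos]
          exact hx _
        · simp only [h, dif_neg, not_false_eq_true]
          exact DFun.const 0
      exact (cond_def hζ' ih (hv 1) (hv 2) hN).and (Delta0.eqFun (hv 0) (hN α β))
    have h2 : Delta0 3 (fun w => Lev d (w 1) (w 2)) :=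
      lev_def hd (DFun.proj 1) (DFun.proj 2)
    have h3 := h1.or (h2.not.and (Delta0.eqFun (DFun.proj (n := 3) 0) (DFun.const 0)))
    refine h3.of_iff ?_
    intro w
    show w 0 = (if Lev d (w 1) (w 2) then CC (w 1) d (w 2 : ZMod (w 1)) α β else 0) ↔ _
    by_cases hL : Lev d (w 1) (w 2)
    · have : Fact (w 1).Prime := ⟨hL.1⟩
      rw [if_pos hL]
      constructor
      · intro h0
        refine Or.inl ⟨fun k => CC (w 1) d (w 2 : ZMod (w 1)) ((k : ℕ) / d) ((k : ℕ) % d),
          fun k => CC_le_CycDef hL.1 _ _ _, ⟨hL, ?_⟩, ?_⟩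
        · refine cond_congr_CycDef ?_ (cond_cc hL.2 hζ')
          intro a ha b hb
          unfold tab_CycDef
          rw [dif_pos ⟨ha, hb⟩]
          simp only
          rw [Nat.mul_add_div hd, Nat.div_eq_of_lt hb, add_zero, Nat.mul_add_mod,
            Nat.mod_eq_of_lt hb]
        · rw [h0]
          unfold tab_CycDef
          rw [dif_pos ⟨hα, hβ⟩]
          simp only
          rw [Nat.mul_add_div hd, Nat.div_eq_of_lt hβ, add_zero, Nat.mul_add_mod,
            Nat.mod_eq_of_lt hβ]
      · rintro (⟨x, -, ⟨-, hC⟩, h0⟩ | ⟨h, -⟩)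
        · rw [h0]
          exact cond_uniq hL.2 hζ' hC hα hβ
        · exact absurd hL h
    · rw [if_neg hL]
      constructor
      · intro h0
        exact Or.inr ⟨hL, h0⟩
      · rintro (⟨x, -, ⟨h, -⟩, -⟩ | ⟨-, h0⟩)
        · exact absurd h hL
        · exact h0

open scoped Classical in
theorem cyc_def {d : ℕ} (hd : 0 < d) (α β : ℕ) :
    DFun 2 (fun v => if Lev d (v 0) (v 1) then CC (v 0) d (v 1 : ZMod (v 0)) α β else 0) := by
  induction d using Nat.strong_induction_on generalizing α β with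
  | _ d IH =>
    have : NeZero d := ⟨hd.ne'⟩
    have h := step_CycDef (d := d) (fun m hm hne a b =>
      IH m (lt_of_le_of_ne (Nat.le_of_dvd hd hm) hne) (Nat.pos_of_dvd_of_pos hm hd) a b)
      (α % d) (β % d) (Nat.mod_lt _ hd) (Nat.mod_lt _ hd)
    have he : (fun v : Fin 2 → ℕ =>
        if Lev d (v 0) (v 1) then CC (v 0) d (v 1 : ZMod (v 0)) α β else 0) =
        fun v => if Lev d (v 0) (v 1) then CC (v 0) d (v 1 : ZMod (v 0)) (α % d) (β % d)
          else 0 := by
      funext v
      split_ifs with hL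
      · exact CC_mod_CycDef hL.2.pow_eq_one α β
      · rfl
    rw [he]
    exact h

end Pool.Agent.DgE
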