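import Mathlib

/-!
# Diagonal equations: cyclotomic numbers, definitions

`p` a prime, `g` an element of order `d` of `(ZMod p)ˣ`. The class of `x ≠ 0` is the `α` modulo `d` with
`x ^ ((p - 1) / d) = g ^ α`. `CC p d g α β` are the cyclotomic numbers of order `d`,
`ev d (CC p d g) ζ i j` are the Jacobi sums.
-/

set_option autoImplicit false

namespace Pool.Agent.DgE

open Finset NumberField

/-- the number of the `x ≠ 0, 1` with `x` in class `α` and `1 - x` in class `β` -/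
noncomputable def CC (p d : ℕ) (g : ZMod p) (α β : ℕ) : ℕ :=
  Nat.card {x : ZMod p // x ≠ 0 ∧ x ≠ 1 ∧ x ^ ((p - 1) / d) = g ^ α ∧
    (1 - x) ^ ((p - 1) / d) = g ^ β}

/-- the sum of `N α β z ^ (i α + j β)` over `α, β < d` -/
def ev {R : Type*} [CommSemiring R] (d : ℕ) (N : ℕ → ℕ → ℕ) (z : R) (i j : ℕ) : R :=
  ∑ α ∈ range d, ∑ β ∈ range d, (N α β : R) * z ^ (i * α + j * β)

/-- the conditions that determine the cyclotomic numbers of order `d` from those of smaller order -/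
def Cond {K : Type*} [Field K] (p d : ℕ) (g : ZMod p) (ζ : 𝓞 K) (N : ℕ → ℕ → ℕ) : Prop :=
  ∀ i < d, ∀ j < d,
    (i = 0 → j = 0 → ev d N ζ i j + 2 = p) ∧
    (i = 0 → j ≠ 0 → ev d N ζ i j + 1 = 0) ∧
    (i ≠ 0 → j = 0 → ev d N ζ i j + 1 = 0) ∧
    (i ≠ 0 → j ≠ 0 → i + j = d → ev d N ζ i j + (-1) ^ (i * ((p - 1) / d)) = 0) ∧
    (i ≠ 0 → j ≠ 0 → i + j ≠ d →
      ev d N ζ i j * ev d N (ζ ^ (d - 1)) i j = p ∧
      (∀ t < d, t.Coprime d → (t * i) % d + (t * j) % d < d → ev d N (g ^ t) i j = 0) ∧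
      (∀ m, m ∣ d → m ≠ d →
        1 - ζ ^ m ∣ ev d N ζ i j - ev m (CC p m (g ^ (d / m))) ζ i j) ∧
      (∀ l k, l.Prime → d = l ^ (k + 1) →
        (1 - ζ) * (1 - ζ ^ (l ^ k)) ∣ ev d N ζ i j - ev (l ^ k) (CC p (l ^ k) (g ^ l)) ζ i j))

/-- the number of the solutions of `∑ a i x i ^ e i = b` in `ZMod p` -/
noncomputable def ND (p : ℕ) {n : ℕ} (e : Fin n → ℕ) (a : Fin n → ZMod p) (b : ZMod p) : ℕ :=
  Nat.card {x : Fin n → ZMod p // ∑ i, a i * x i ^ e i = b}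

/-- `g` has order `d` modulo the prime `p` -/
def Lev (d p g : ℕ) : Prop := p.Prime ∧ IsPrimitiveRoot (g : ZMod p) d

end Pool.Agent.DgE
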