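import Pool.Agent.DgE.Jac

/-!
# Package DgE-EvA: the values of the Jacobi sums, norms and trivial cases

Use `exists_jac` (may be sorried) over the field `K` (with the image of `ζ`) and the injectivity of
`𝓞 K → K`. *`ev_mul`*: `jacobiSum_mul_jacobiSum_inv`, as `χ ^ i`, `χ ^ j`, `χ ^ i * χ ^ j` are
not `1`; and `jacobiSum (χ ^ i)⁻¹ (χ ^ j)⁻¹` is the value at `ζ⁻¹ = ζ ^ (d - 1)`:
`(χ ^ i)⁻¹ = χ ^ (i (d - 1))` (`χ ^ d = 1`), so it is `ev d C ζ (i (d - 1)) (j (d - 1))`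
`= ev d C (ζ ^ (d - 1)) i j`. (`ringChar K = 0`, `ringChar (ZMod p) = p`.) *`ev_zero`*: `jacobiSum_one_one`. *`ev_one`*: `jacobiSum_one_nontrivial`,
`jacobiSum_comm`. *`ev_neg`*: `jacobiSum_nontrivial_inv` and `χ (-1) = (-1) ^ ((p - 1) / d)`
(`p ≠ 2`, as `p = 2` gives `d = 1`, and then `d ∣ i`). ∎

Difficulty: 1.0 h.
-/

set_option autoImplicit false

namespace Pool.Agent.DgE

open Finset NumberField

variable {p d : ℕ} [Fact p.Prime] [NeZero d] {g : ZMod p} {K : Type*} [Field K] [NumberField K]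
  {ζ : 𝓞 K}

private theorem EvA_map {R S : Type*} [CommSemiring R] [CommSemiring S] (f : R →+* S) (d : ℕ)
    (N : ℕ → ℕ → ℕ) (z : R) (i j : ℕ) : f (ev d N z i j) = ev d N (f z) i j := by
  unfold ev
  simp only [map_sum, map_mul, map_pow, map_natCast]

private theorem EvA_pow {R : Type*} [CommSemiring R] (d m : ℕ) (N : ℕ → ℕ → ℕ) (z : R)
    (i j : ℕ) : ev d N (z ^ m) i j = ev d N z (i * m) (j * m) := by
  unfold ev
  refine Finset.sum_congr rfl fun α _ => Finset.sum_congr rfl fun β _ => ?_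
  rw [← pow_mul]
  congr 2
  ring

omit [NumberField K] in
private theorem EvA_inj : Function.Injective (algebraMap (𝓞 K) K) :=
  FaithfulSMul.algebraMap_injective (𝓞 K) K

theorem ev_mul (hg : IsPrimitiveRoot g d) (hζ : IsPrimitiveRoot ζ d) {i j : ℕ} (hi : ¬ d ∣ i)
    (hj : ¬ d ∣ j) (hij : ¬ d ∣ i + j) :
    ev d (CC p d g) ζ i j * ev d (CC p d g) (ζ ^ (d - 1)) i j = p := by
  have hz := hζ.map_of_injective (EvA_inj (K := K))
  obtain ⟨χ, h1, -, h3⟩ := exists_jac hg hz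
  apply EvA_inj (K := K)
  rw [map_mul, EvA_map, EvA_map, map_pow, map_natCast, EvA_pow, ← h3, ← h3]
  have hd : 1 ≤ d := Nat.one_le_iff_ne_zero.2 (NeZero.ne d)
  have hinv : ∀ k : ℕ, χ ^ (k * (d - 1)) = (χ ^ k)⁻¹ := by
    intro k
    refine eq_inv_of_mul_eq_one_right ?_
    rw [← pow_add]
    refine (h1 _).2 ⟨k, ?_⟩
    obtain ⟨e, rfl⟩ := Nat.exists_eq_add_of_le hd
    rw [Nat.add_sub_cancel_left]
    ring
  rw [hinv, hinv, jacobiSum_mul_jacobiSum_inv, ZMod.card]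
  · rw [ZMod.ringChar_zmod_n, ringChar.eq_zero]
    exact fun h => (Fact.out : p.Prime).ne_zero h.symm
  · exact fun h => hi ((h1 i).1 h)
  · exact fun h => hj ((h1 j).1 h)
  · rw [← pow_add]
    exact fun h => hij ((h1 _).1 h)

theorem ev_zero (hg : IsPrimitiveRoot g d) (hζ : IsPrimitiveRoot ζ d) {i j : ℕ} (hi : d ∣ i)
    (hj : d ∣ j) : ev d (CC p d g) ζ i j + 2 = p := by
  have hz := hζ.map_of_injective (EvA_inj (K := K))
  obtain ⟨χ, h1, -, h3⟩ := exists_jac hg hz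
  apply EvA_inj (K := K)
  rw [map_add, EvA_map, map_natCast, map_ofNat, ← h3, (h1 i).2 hi, (h1 j).2 hj,
    jacobiSum_one_one, ZMod.card]
  ring

theorem ev_one (hg : IsPrimitiveRoot g d) (hζ : IsPrimitiveRoot ζ d) {i j : ℕ} (hi : d ∣ i)
    (hj : ¬ d ∣ j) : ev d (CC p d g) ζ i j + 1 = 0 := by
  have hz := hζ.map_of_injective (EvA_inj (K := K))
  obtain ⟨χ, h1, -, h3⟩ := exists_jac hg hz
  apply EvA_inj (K := K)
  rw [map_add, EvA_map, map_one, map_zero, ← h3, (h1 i).2 hi,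
    jacobiSum_one_nontrivial fun h => hj ((h1 j).1 h)]
  ring

theorem ev_one' (hg : IsPrimitiveRoot g d) (hζ : IsPrimitiveRoot ζ d) {i j : ℕ} (hi : ¬ d ∣ i)
    (hj : d ∣ j) : ev d (CC p d g) ζ i j + 1 = 0 := by
  have hz := hζ.map_of_injective (EvA_inj (K := K))
  obtain ⟨χ, h1, -, h3⟩ := exists_jac hg hz
  apply EvA_inj (K := K)
  rw [map_add, EvA_map, map_one, map_zero, ← h3, (h1 j).2 hj, jacobiSum_comm,
    jacobiSum_one_nontrivial fun h => hi ((h1 i).1 h)]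
  ring

theorem ev_neg (hg : IsPrimitiveRoot g d) (hζ : IsPrimitiveRoot ζ d) {i j : ℕ} (hi : ¬ d ∣ i)
    (hij : d ∣ i + j) : ev d (CC p d g) ζ i j + (-1) ^ (i * ((p - 1) / d)) = 0 := by
  have hz := hζ.map_of_injective (EvA_inj (K := K))
  obtain ⟨χ, h1, h2, h3⟩ := exists_jac hg hz
  have hp2 : p ≠ 2 := by
    rintro rfl
    have hd : d ∣ 2 - 1 := hg.dvd_of_pow_eq_one _
      (ZMod.pow_card_sub_one_eq_one (hg.isUnit (NeZero.ne d)).ne_zero)
    rw [Nat.dvd_one.1 hd] at hi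
    exact hi (one_dvd i)
  have hi0 : i ≠ 0 := by
    rintro rfl
    exact hi (dvd_zero d)
  have hinv : χ ^ j = (χ ^ i)⁻¹ := by
    refine eq_inv_of_mul_eq_one_right ?_
    rw [← pow_add]
    exact (h1 _).2 hij
  apply EvA_inj (K := K)
  rw [map_add, EvA_map, map_pow, map_neg, map_one, map_zero, ← h3, hinv,
    jacobiSum_nontrivial_inv fun h => hi ((h1 i).1 h), MulChar.pow_apply' χ hi0, h2 hp2,
    ← pow_mul, mul_comm i]
  ring

end Pool.Agent.DgE
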