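import Pool.Agent.DgE.PrimeDef
import Pool.Agent.DgE.CrtN
import Pool.Agent.PtC.Final

/-!
# Package DgE-Final: diagonal equations modulo squarefree numbers

*`diag_sqf`*: `crtn_sqf` with `R m x := ∑ a i x i ^ e i ≡ b [MOD m]`, `dfun_prodPF` (PtC/Final) with
`diag_prime`, the bound `m ^ n`; as in `PtC.qn_sqf` replace the modulus by
`if Squarefree m then m else 1` to have the bound for all arguments. ∎

Difficulty: 0.8 h.
-/

set_option autoImplicit false

namespace Pool.Agent.DgE

open Finset NumberField Pool.Agent.Grz Pool.Agent.GAvg Pool.Agent.PTr Pool.Agent.MTr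
  Pool.Agent.LPC Pool.Agent.ECD

private theorem congr_Final {n : ℕ} {f g : (Fin n → ℕ) → ℕ} (h : DFun n g)
    (e : ∀ v, f v = g v) : DFun n f := by
  have e' : f = g := funext e
  rw [e']
  exact h

private theorem sqf_Final {n : ℕ} {f : (Fin n → ℕ) → ℕ} (hf : DFun n f) :
    Delta0 n (fun v => Squarefree (f v)) := by
  have h1 : Delta0 (n + 1) (fun w => w 0 * w 0 ∣ f (fun i => w i.succ) → w 0 = 1) :=
    (delta_dvd ((DFun.proj 0).mul (DFun.proj 0)) hf.weak).imp
      (Delta0.eqFun (DFun.proj 0) (DFun.const 1))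
  refine ((Delta0.ltFun (DFun.const 0) hf).and (Delta0.ballFun
    (P := fun x v => x * x ∣ f v → x = 1) hf h1)).of_iff fun v => ?_
  constructor
  · intro h
    exact ⟨Nat.pos_of_ne_zero h.ne_zero, fun x _ hx => Nat.isUnit_iff.1 (h x hx)⟩
  · rintro ⟨h0, h⟩ x hx
    refine Nat.isUnit_iff.2 (h x ?_ hx)
    have h2 : x * x ≤ f v := Nat.le_of_dvd h0 hx
    exact (Nat.le_mul_self x).trans h2

/-- the number of the solutions modulo `m` -/
private def NN {n : ℕ} (e : Fin n → ℕ) (m : ℕ) (a : Fin n → ℕ) (b : ℕ) : ℕ :=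
  #{x ∈ Fintype.piFinset (fun _ : Fin n => range m) | ∑ i, a i * x i ^ e i ≡ b [MOD m]}

private theorem le_Final {n : ℕ} (e : Fin n → ℕ) (m : ℕ) (a : Fin n → ℕ) (b : ℕ) :
    NN e m a b ≤ m ^ n := by
  unfold NN
  refine (Finset.card_filter_le _ _).trans ?_
  rw [Fintype.card_piFinset]
  simp

private theorem crt_Final {n : ℕ} (e : Fin n → ℕ) {m : ℕ} (hm : Squarefree m) (a : Fin n → ℕ)
    (b : ℕ) : NN e m a b = ∏ p ∈ m.primeFactors, NN e p a b := by
  classical
  have h := crtn_sqf (n := n) (fun m x => ∑ i, a i * x i ^ e i ≡ b [MOD m]) (fun m x => ?_)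
    (fun k l x hkl => ?_) (Nat.modEq_one) hm
  · unfold NN
    convert h using 2
    · congr
    · congr
  · have e1 : ((∑ i, a i * (x i % m) ^ e i : ℕ) : ZMod m) =
        ((∑ i, a i * x i ^ e i : ℕ) : ZMod m) := by
      push_cast
      simp only [ZMod.natCast_mod]
    change ∑ i, a i * (x i % m) ^ e i ≡ b [MOD m] ↔ ∑ i, a i * x i ^ e i ≡ b [MOD m]
    rw [← ZMod.natCast_eq_natCast_iff, ← ZMod.natCast_eq_natCast_iff, e1]
  · exact (Nat.modEq_and_modEq_iff_modEq_mul hkl).symm

open scoped Classical in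
/-- the number of the solutions of a diagonal equation modulo a squarefree number -/
theorem diag_sqf {n : ℕ} {e : Fin n → ℕ} (he : ∀ i, 0 < e i) :
    DFun (n + 2) (fun v => if Squarefree (v 0) then
      #{x ∈ Fintype.piFinset (fun _ : Fin n => range (v 0)) |
        ∑ i, v i.succ.succ * x i ^ e i ≡ v 1 [MOD v 0]} else 0) := by
  have hs : Delta0 (n + 2) (fun v => Squarefree (v 0)) := sqf_Final (DFun.proj 0)
  have hm : DFun (n + 2) (fun v => if Squarefree (v 0) then v 0 else 1) :=
    DFun.ite hs (DFun.proj 0) (DFun.const 1)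
  have hp0 : DFun (n + 2) (fun v => (fun (q : ℕ) (v : Fin (n + 1) → ℕ) =>
      if q.Prime then NN e q (fun i => v i.succ) (v 0) else 0) (v 0) (fun i => v i.succ)) :=
    diag_prime he
  have hg : DFun (n + 2 + 1) (fun w => (fun (q : ℕ) (v : Fin (n + 2) → ℕ) =>
      if q.Prime then NN e q (fun i => v i.succ.succ) (v 1) else 0) (w 0)
        (fun i => w i.succ)) :=
    DFun.app (n := n + 1) (m := n + 2 + 1) (T := fun (q : ℕ) (v : Fin (n + 1) → ℕ) =>
      if q.Prime then NN e q (fun i => v i.succ) (v 0) else 0) hp0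
      (u := fun w => w 0) (v := fun i w => w i.succ.succ) (DFun.proj 0)
      fun i => DFun.proj i.succ.succ
  have hsq : ∀ v : Fin (n + 2) → ℕ, Squarefree (if Squarefree (v 0) then v 0 else 1) := by
    intro v
    split_ifs with h
    · exact h
    · exact squarefree_one
  have hpr : ∀ v : Fin (n + 2) → ℕ,
      ∏ q ∈ (if Squarefree (v 0) then v 0 else 1).primeFactors,
        (if q.Prime then NN e q (fun i => v i.succ.succ) (v 1) else 0) =
      NN e (if Squarefree (v 0) then v 0 else 1) (fun i => v i.succ.succ) (v 1) := by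
    intro v
    rw [crt_Final e (hsq v)]
    refine Finset.prod_congr rfl fun q hq => ?_
    rw [if_pos (Nat.prime_of_mem_primeFactors hq)]
  have h := PtC.dfun_prodPF (n := n + 2) (m := fun v => if Squarefree (v 0) then v 0 else 1)
    (B := fun v => (if Squarefree (v 0) then v 0 else 1) ^ n) hg hm (DFun.powConst hm n)
    fun v => by
      rw [hpr v]
      exact le_Final _ _ _ _
  refine congr_Final (DFun.ite hs h (DFun.const 0)) fun v => ?_
  by_cases h0 : Squarefree (v 0)
  · have e1 := hpr v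
    rw [if_pos h0] at e1
    rw [if_pos h0, if_pos h0]
    rw [if_pos h0]
    exact e1.symm
  · rw [if_neg h0, if_neg h0]

end Pool.Agent.DgE
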