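import Pool.Agent.DgE.Defs

/-!
# Package DgE-Jac: a character of order `d` and its Jacobi sums

*`exists_jac`*. Let `ω` be a generator of `(ZMod p)ˣ`; `ω ^ ((p - 1) / d)` has order `d`, so it is
`g ^ s` with `s` coprime to `d` (`g` has order `d` too: `IsPrimitiveRoot`; note `d ∣ p - 1`). Let `χ` be
the character with `χ ω = ζ ^ s` (`MulChar.ofRootOfUnity`, or `MulChar.equivRootsOfUnity`). Then for
`x ≠ 0` and all `α`: `χ x = ζ ^ α ↔ x ^ ((p - 1) / d) = g ^ α` (both say `s k ≡ α` modulo `d`, if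
`x = ω ^ k`: `IsPrimitiveRoot.pow_inj`-like, `pow_eq_pow_iff_modEq`). So `χ ^ i = 1` iff
`ζ ^ (s i) = 1` iff `d ∣ i`. `χ (-1)`: `(-1) ^ ((p - 1) / d)` is `1` or `-1` in `ZMod p`; in the first
case `χ (-1) = 1`, and (`p ≠ 2`) `(p - 1) / d` is even; in the second case `(p - 1) / d` is odd,
`d` is even and `-1 = g ^ (d / 2)`, `ζ ^ (d / 2) = -1`. The last claim: group the terms of
`jacobiSum (χ ^ i) (χ ^ j) = ∑_x (χ ^ i) x * (χ ^ j) (1 - x)` by the classes `α, β < d` of `x`, `1 - x`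
(the terms of `x = 0`, `x = 1` are `0`, also for `i = 0` or `j = 0`: `MulChar.map_zero`). ∎

Difficulty: 1.5 h.
-/

set_option autoImplicit false

namespace Pool.Agent.DgE

open Finset

private theorem char_Jac {p d : ℕ} [Fact p.Prime] [NeZero d] {g : ZMod p}
    (hg : IsPrimitiveRoot g d) {L : Type*} [Field L] {ζ : L} (hζ : IsPrimitiveRoot ζ d) :
    ∃ χ : MulChar (ZMod p) L, ∃ a : (ZMod p)ˣ → ℕ,
      (∀ u, a u < d) ∧ (∀ u : (ZMod p)ˣ, (u : ZMod p) ^ ((p - 1) / d) = g ^ a u) ∧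
      (∀ u : (ZMod p)ˣ, χ u = ζ ^ a u) ∧
      ∀ (u : (ZMod p)ˣ) (α : ℕ), ((u : ZMod p) ^ ((p - 1) / d) = g ^ α ↔ χ u = ζ ^ α) := by
  have hd0 : d ≠ 0 := NeZero.ne d
  have hdp : d ∣ p - 1 := by
    refine hg.dvd_of_pow_eq_one _ (ZMod.pow_card_sub_one_eq_one ?_)
    exact hg.ne_zero hd0
  obtain ⟨gu, hgu⟩ := hg.isUnit hd0
  obtain ⟨zu, hzu⟩ := hζ.isUnit hd0
  have hg' : IsPrimitiveRoot gu d := by
    rw [← IsPrimitiveRoot.coe_units_iff, hgu]
    exact hg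
  have hz' : IsPrimitiveRoot zu d := by
    rw [← IsPrimitiveRoot.coe_units_iff, hzu]
    exact hζ
  have hgo : ∀ m n : ℕ, gu ^ m = gu ^ n ↔ m ≡ n [MOD d] := fun m n => by
    rw [pow_eq_pow_iff_modEq, ← hg'.eq_orderOf]
  have hzo : ∀ m n : ℕ, zu ^ m = zu ^ n ↔ m ≡ n [MOD d] := fun m n => by
    rw [pow_eq_pow_iff_modEq, ← hz'.eq_orderOf]
  have hex : ∀ u : (ZMod p)ˣ, ∃ a < d, g ^ a = (u : ZMod p) ^ ((p - 1) / d) := fun u => by
    refine hg.eq_pow_of_pow_eq_one ?_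
    rw [← pow_mul, Nat.div_mul_cancel hdp, ZMod.pow_card_sub_one_eq_one u.ne_zero]
  choose a ha1 ha2 using hex
  have ha3 : ∀ u : (ZMod p)ˣ, gu ^ a u = u ^ ((p - 1) / d) := fun u => by
    apply Units.ext
    push_cast
    rw [hgu, ha2]
  have hmul : ∀ u v : (ZMod p)ˣ, zu ^ a (u * v) = zu ^ a u * zu ^ a v := fun u v => by
    rw [← pow_add, hzo, ← hgo, pow_add, ha3, ha3, ha3, mul_pow]
  refine ⟨MulChar.ofUnitHom (MonoidHom.mk' (fun u => zu ^ a u) hmul), a, ha1,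
    fun u => (ha2 u).symm, fun u => ?_, fun u α => ?_⟩
  · rw [MulChar.ofUnitHom_coe]
    simp [hzu]
  · rw [MulChar.ofUnitHom_coe]
    have h1 : (u : ZMod p) ^ ((p - 1) / d) = g ^ α ↔ gu ^ a u = gu ^ α := by
      rw [← Units.val_inj, ← ha2, Units.val_pow_eq_pow_val, Units.val_pow_eq_pow_val, hgu]
    have h2 : (((MonoidHom.mk' (fun u => zu ^ a u) hmul) u : Lˣ) : L) = ζ ^ α ↔
        zu ^ a u = zu ^ α := by
      rw [← Units.val_inj, Units.val_pow_eq_pow_val zu α, hzu]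
      rfl
    rw [h1, h2, hgo, hzo]

private theorem surj_Jac {p d : ℕ} [Fact p.Prime] [NeZero d] {g : ZMod p}
    (hg : IsPrimitiveRoot g d) : ∃ u : (ZMod p)ˣ, (u : ZMod p) ^ ((p - 1) / d) = g ^ 1 := by
  have hd0 : d ≠ 0 := NeZero.ne d
  have hp := (Fact.out : p.Prime)
  have hdp : d ∣ p - 1 := by
    refine hg.dvd_of_pow_eq_one _ (ZMod.pow_card_sub_one_eq_one ?_)
    exact hg.ne_zero hd0
  obtain ⟨ω, hω⟩ := IsCyclic.exists_generator (α := (ZMod p)ˣ)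
  have ho : orderOf ω = p - 1 := by
    rw [orderOf_eq_card_of_forall_mem_zpowers hω, Nat.card_eq_fintype_card, ZMod.card_units]
  have h1 : IsPrimitiveRoot ω (p - 1) := ho ▸ IsPrimitiveRoot.orderOf ω
  have h2 : IsPrimitiveRoot (ω ^ ((p - 1) / d)) d :=
    h1.pow (by have := hp.two_le; omega) (Nat.div_mul_cancel hdp).symm
  have h3 : IsPrimitiveRoot ((ω : ZMod p) ^ ((p - 1) / d)) d := by
    have := (IsPrimitiveRoot.coe_units_iff).2 h2
    rwa [Units.val_pow_eq_pow_val] at this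
  obtain ⟨t, -, ht⟩ := h3.eq_pow_of_pow_eq_one hg.pow_eq_one
  refine ⟨ω ^ t, ?_⟩
  rw [pow_one, ← ht, Units.val_pow_eq_pow_val, ← pow_mul, ← pow_mul, mul_comm]

theorem exists_jac {p d : ℕ} [Fact p.Prime] [NeZero d] {g : ZMod p} (hg : IsPrimitiveRoot g d)
    {L : Type*} [Field L] {ζ : L} (hζ : IsPrimitiveRoot ζ d) :
    ∃ χ : MulChar (ZMod p) L, (∀ i : ℕ, χ ^ i = 1 ↔ d ∣ i) ∧
      (p ≠ 2 → χ (-1) = (-1) ^ ((p - 1) / d)) ∧
      ∀ i j : ℕ, jacobiSum (χ ^ i) (χ ^ j) = ev d (CC p d g) ζ i j := by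
  classical
  have hd0 : d ≠ 0 := NeZero.ne d
  obtain ⟨χ, a, ha1, ha2, ha3, ha4⟩ := char_Jac hg hζ
  refine ⟨χ, fun i => ⟨fun h => ?_, fun h => ?_⟩, fun hp2 => ?_, fun i j => ?_⟩
  · obtain ⟨u, hu⟩ := surj_Jac hg
    have h1 := (ha4 u 1).1 hu
    have h2 : (χ ^ i) (u : ZMod p) = 1 := by
      rw [h, MulChar.one_apply_coe]
    rw [MulChar.pow_apply_coe, h1, pow_one] at h2
    exact hζ.dvd_of_pow_eq_one i h2
  · obtain ⟨k, rfl⟩ := h
    refine MulChar.ext fun u => ?_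
    rw [MulChar.pow_apply_coe, ha3, MulChar.one_apply_coe, ← pow_mul, mul_comm, mul_assoc,
      pow_mul, hζ.pow_eq_one, one_pow]
  · have hm : ((-1 : (ZMod p)ˣ) : ZMod p) = -1 := by simp
    rcases Nat.even_or_odd ((p - 1) / d) with he | ho
    · have h1 := (ha4 (-1) 0).1 (by rw [hm, he.neg_one_pow, pow_zero])
      rw [hm] at h1
      rw [h1, he.neg_one_pow, pow_zero]
    · have h2 := ha2 (-1)
      have h3 := ha3 (-1)
      rw [hm] at h2 h3
      rw [ho.neg_one_pow] at h2 ⊢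
      have hne : (-1 : ZMod p) ≠ 1 := by
        have hp := (Fact.out : p.Prime)
        have : Fact (2 < p) := ⟨lt_of_le_of_ne hp.two_le (Ne.symm hp2)⟩
        exact ZMod.neg_one_ne_one
      have h4 : g ^ (a (-1) * 2) = 1 := by
        rw [pow_mul, ← h2]
        ring
      have h5 : (ζ ^ a (-1)) ^ 2 = 1 := by
        rw [← pow_mul]
        obtain ⟨k, hk⟩ := hg.dvd_of_pow_eq_one _ h4
        rw [hk, pow_mul, hζ.pow_eq_one, one_pow]
      rcases sq_eq_one_iff.1 h5 with h6 | h6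
      · exfalso
        obtain ⟨k, hk⟩ := hζ.dvd_of_pow_eq_one _ h6
        rw [hk, pow_mul, hg.pow_eq_one, one_pow] at h2
        exact hne h2
      · rw [h3, h6]
  · have hterm : ∀ x : ZMod p, (χ ^ i) x * (χ ^ j) (1 - x) =
        ∑ α ∈ range d, ∑ β ∈ range d, (if x ≠ 0 ∧ x ≠ 1 ∧ x ^ ((p - 1) / d) = g ^ α ∧
          (1 - x) ^ ((p - 1) / d) = g ^ β then 1 else 0) * ζ ^ (i * α + j * β) := by
      intro x
      by_cases hx0 : x = 0
      · subst hx0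
        rw [MulChar.map_nonunit (χ ^ i) not_isUnit_zero]
        simp
      by_cases hx1 : x = 1
      · subst hx1
        rw [sub_self, MulChar.map_nonunit (χ ^ j) not_isUnit_zero]
        simp
      have hx2 : 1 - x ≠ 0 := sub_ne_zero.2 (Ne.symm hx1)
      obtain ⟨u, hu⟩ : ∃ u : (ZMod p)ˣ, (u : ZMod p) = x := ⟨Units.mk0 x hx0, rfl⟩
      obtain ⟨v, hv⟩ : ∃ v : (ZMod p)ˣ, (v : ZMod p) = 1 - x := ⟨Units.mk0 (1 - x) hx2, rfl⟩
      have hP : ∀ α ∈ range d, ∀ β ∈ range d, ((x ≠ 0 ∧ x ≠ 1 ∧ x ^ ((p - 1) / d) = g ^ α ∧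
          (1 - x) ^ ((p - 1) / d) = g ^ β) ↔ α = a u ∧ β = a v) := by
        intro α hα β hβ
        rw [← hu] at hx0 hx1 ⊢
        rw [← hu] at hv
        rw [← hv, ha2, ha2]
        constructor
        · rintro ⟨-, -, h1, h2⟩
          exact ⟨(hg.pow_inj (ha1 u) (mem_range.1 hα) h1).symm,
            (hg.pow_inj (ha1 v) (mem_range.1 hβ) h2).symm⟩
        · rintro ⟨rfl, rfl⟩
          exact ⟨hx0, hx1, rfl, rfl⟩
      rw [sum_eq_single_of_mem (a u) (mem_range.2 (ha1 u)),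
        sum_eq_single_of_mem (a v) (mem_range.2 (ha1 v)),
        if_pos ((hP _ (mem_range.2 (ha1 u)) _ (mem_range.2 (ha1 v))).2 ⟨rfl, rfl⟩),
        one_mul, ← hv, ← hu, MulChar.pow_apply_coe, MulChar.pow_apply_coe, ha3, ha3, ← pow_mul,
        ← pow_mul, ← pow_add, mul_comm i, mul_comm j]
      · intro β hβ hne
        rw [if_neg, zero_mul]
        intro h
        exact hne ((hP _ (mem_range.2 (ha1 u)) _ hβ).1 h).2
      · intro α hα hne
        refine sum_eq_zero fun β hβ => ?_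
        rw [if_neg, zero_mul]
        intro h
        exact hne ((hP _ hα _ hβ).1 h).1
    have hCC : ∀ α β : ℕ, ((CC p d g α β : ℕ) : L) =
        ∑ x : ZMod p, (if x ≠ 0 ∧ x ≠ 1 ∧ x ^ ((p - 1) / d) = g ^ α ∧
          (1 - x) ^ ((p - 1) / d) = g ^ β then 1 else 0) := by
      intro α β
      unfold CC
      rw [Nat.card_eq_fintype_card, Fintype.card_subtype, sum_boole]
    unfold jacobiSum ev
    rw [sum_congr rfl fun x _ => hterm x, sum_comm]
    refine sum_congr rfl fun α _ => ?_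
    rw [sum_comm]
    refine sum_congr rfl fun β _ => ?_
    rw [hCC, sum_mul]

end Pool.Agent.DgE
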