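import Pool.Agent.DgE.Scale

/-!
# Package DgE-Step: one more variable

`e₀ ∣ d`, `a₀ ≠ 0`; `N b = ND p e a b`, `N' b = ND p (Fin.cons e₀ e) (Fin.cons a₀ a) b`; all `e i ∣ d`.
`r α ≠ 0` is a number of class `α`: `(r α) ^ ((p - 1) / d) = g ^ α`.

*`nd_sum`*: `N' b = ∑_x N(b - a₀ x ^ e₀)` (fix the first coordinate), the term of `x = 0` is `N b`
(`e₀ > 0`), and for each `y ≠ 0` the number of the `x` with `x ^ e₀ = y` is `e₀` if
`y ^ ((p - 1) / e₀) = 1` and `0` otherwise (cyclic group of order `p - 1`, `e₀ ∣ p - 1`). ∎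

*`nd_step0`* (`b = 0`): the `y` in the sum are the `y ≠ 0` whose class `α < d` is divisible by `e₀`
(`y ^ ((p - 1) / e₀) = (g ^ α) ^ (d / e₀)`, which is `1` iff `d ∣ α (d / e₀)` iff `e₀ ∣ α`); each class
has `(p - 1) / d` elements, and `N(- a₀ y) = N(-(a₀ r α))` by `nd_class`. ∎

*`nd_step1`* (`b ≠ 0`, `γ` the class of `b / a₀`): substitute `y = (b / a₀) x`: `b - a₀ y = b (1 - x)`,
and the class of `y` is `γ` plus that of `x`; the term of `x = 1` (class `0`) is `N 0` if `e₀ ∣ γ`; the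
terms of the `x ≠ 0, 1` of class `α` with `1 - x` of class `β` are `N(b r β)` (`nd_class`), if
`e₀ ∣ α + γ`, and there are `CC p d g α β` of them. ∎

Proved (helper91).
-/

set_option autoImplicit false

namespace Pool.Agent.DgE

open Finset

variable {p d : ℕ} [Fact p.Prime] [NeZero d] {g : ZMod p} {n : ℕ} {e : Fin n → ℕ} {e₀ : ℕ}

private theorem prim_Step : ∃ w : ZMod p, IsPrimitiveRoot w (p - 1) := by
  obtain ⟨u, hu⟩ := IsCyclic.exists_generator (α := (ZMod p)ˣ)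
  refine ⟨(u : ZMod p), ?_⟩
  have h := IsPrimitiveRoot.orderOf (u : ZMod p)
  have e : orderOf (u : ZMod p) = p - 1 := by
    rw [orderOf_units, orderOf_eq_card_of_forall_mem_zpowers hu, Nat.card_eq_fintype_card,
      ZMod.card_units p]
  rwa [e] at h

private theorem pos_Step : 0 < p - 1 := by
  have := (Fact.out : p.Prime).two_le
  omega

/-- the number of the `m`-th roots -/
private theorem rc_Step {m : ℕ} (hm : m ∣ p - 1) {y : ZMod p} (hy : y ≠ 0) :
    (univ.filter fun x : ZMod p => x ^ m = y).card =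
      if y ^ ((p - 1) / m) = 1 then m else 0 := by
  classical
  obtain ⟨w, hw⟩ := prim_Step (p := p)
  have hp : 0 < p - 1 := pos_Step
  obtain ⟨q, hq⟩ := hm
  have hm0 : 0 < m := Nat.pos_of_ne_zero (by rintro rfl; omega)
  have hq0 : 0 < q := Nat.pos_of_ne_zero (by rintro rfl; omega)
  have hdiv : (p - 1) / m = q := by rw [hq]; exact Nat.mul_div_cancel_left q hm0
  have hz : IsPrimitiveRoot (w ^ q) m := hw.pow hp (by rw [hq, mul_comm])
  have h1 : (univ.filter fun x : ZMod p => x ^ m = y) = (Polynomial.nthRoots m y).toFinset := by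
    ext x
    simp [Polynomial.mem_nthRoots hm0]
  have h2 : (Polynomial.nthRoots m y).toFinset.card = Multiset.card (Polynomial.nthRoots m y) :=
    Multiset.toFinset_card_of_nodup (hz.nthRoots_nodup hy)
  rw [h1, h2, hz.card_nthRoots, hdiv]
  have h3 : (∃ a : ZMod p, a ^ m = y) ↔ y ^ q = 1 := by
    constructor
    · rintro ⟨a, rfl⟩
      have ha : a ≠ 0 := by
        rintro rfl
        exact hy (zero_pow hm0.ne')
      rw [← pow_mul, ← hq]
      exact ZMod.pow_card_sub_one_eq_one ha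
    · intro h
      have : NeZero (p - 1) := ⟨hp.ne'⟩
      obtain ⟨i, _, hi⟩ := hw.eq_pow_of_pow_eq_one (ZMod.pow_card_sub_one_eq_one hy)
      rw [← hi, ← pow_mul, hw.pow_eq_one_iff_dvd, hq] at h
      obtain ⟨k, rfl⟩ := Nat.dvd_of_mul_dvd_mul_right hq0 h
      exact ⟨w ^ k, by rw [← hi, ← pow_mul, mul_comm]⟩
  simp only [h3]

omit [NeZero d] in
private theorem dvd_Step [NeZero d] (hg : IsPrimitiveRoot g d) : d ∣ p - 1 := by
  have h1 : g ≠ 0 := hg.ne_zero (NeZero.ne d)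
  exact hg.dvd_of_pow_eq_one _ (ZMod.pow_card_sub_one_eq_one h1)

omit [NeZero d] in
private theorem cls_Step [NeZero d] (hg : IsPrimitiveRoot g d) {y : ZMod p} (hy : y ≠ 0) :
    ∃ α < d, y ^ ((p - 1) / d) = g ^ α := by
  have h : (y ^ ((p - 1) / d)) ^ d = 1 := by
    rw [← pow_mul, Nat.div_mul_cancel (dvd_Step hg)]
    exact ZMod.pow_card_sub_one_eq_one hy
  obtain ⟨i, hi, h1⟩ := hg.eq_pow_of_pow_eq_one h
  exact ⟨i, hi, h1.symm⟩

omit [NeZero d] in
private theorem clsum_Step [NeZero d] (hg : IsPrimitiveRoot g d) {y : ZMod p} {α : ℕ}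
    (hα : α < d) (h : y ^ ((p - 1) / d) = g ^ α) (f : ℕ → ℕ) :
    (∑ β ∈ range d, if y ^ ((p - 1) / d) = g ^ β then f β else 0) = f α := by
  rw [Finset.sum_eq_single α]
  · rw [if_pos h]
  · intro β hβ hne
    rw [if_neg]
    intro h2
    exact hne (hg.pow_inj (mem_range.1 hβ) hα (by rw [← h, ← h2]))
  · intro h2
    exact absurd (mem_range.2 hα) h2

omit [NeZero d] in
/-- `x ^ ((p - 1) / e₀) = 1` iff `e₀` divides the class -/
private theorem pw_Step [NeZero d] (hg : IsPrimitiveRoot g d) (h0 : e₀ ∣ d) {y : ZMod p} {α : ℕ}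
    (h : y ^ ((p - 1) / d) = g ^ α) : y ^ ((p - 1) / e₀) = 1 ↔ e₀ ∣ α := by
  obtain ⟨t, ht⟩ := h0
  have hd0 : 0 < d := Nat.pos_of_ne_zero (NeZero.ne d)
  have he0 : 0 < e₀ := Nat.pos_of_ne_zero (by rintro rfl; omega)
  have ht0 : 0 < t := Nat.pos_of_ne_zero (by rintro rfl; omega)
  obtain ⟨c, hc⟩ := dvd_Step hg
  have h1 : (p - 1) / d = c := by rw [hc]; exact Nat.mul_div_cancel_left c hd0
  have h2 : (p - 1) / e₀ = c * t := by
    rw [hc, ht, mul_assoc, Nat.mul_div_cancel_left _ he0, mul_comm]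
  rw [h2, pow_mul, ← h1, h, ← pow_mul, hg.pow_eq_one_iff_dvd, ht]
  constructor
  · intro h3
    exact Nat.dvd_of_mul_dvd_mul_right ht0 h3
  · intro h3
    exact Nat.mul_dvd_mul_right h3 t

private theorem card_Step (e : Fin n → ℕ) (a : Fin n → ZMod p) (b : ZMod p) :
    ND p e a b = ∑ x : Fin n → ZMod p, if ∑ i, a i * x i ^ e i = b then 1 else 0 := by
  classical
  unfold ND
  rw [Nat.card_eq_fintype_card, Fintype.card_subtype, Finset.card_filter]

private theorem cons_Step (e : Fin n → ℕ) (e₀ : ℕ) (a₀ : ZMod p) (a : Fin n → ZMod p)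
    (b : ZMod p) :
    ND p (Fin.cons e₀ e : Fin (n + 1) → ℕ) (Fin.cons a₀ a : Fin (n + 1) → ZMod p) b =
      ∑ x : ZMod p, ND p e a (b - a₀ * x ^ e₀) := by
  classical
  rw [card_Step]
  simp only [card_Step]
  rw [← (Fin.consEquiv fun _ : Fin (n + 1) => ZMod p).sum_comp, Fintype.sum_prod_type]
  refine Finset.sum_congr rfl fun x _ => Finset.sum_congr rfl fun z _ => ?_
  simp only [Fin.consEquiv_apply, Fin.sum_univ_succ, Fin.cons_zero, Fin.cons_succ]
  have : a₀ * x ^ e₀ + ∑ i, a i * z i ^ e i = b ↔ ∑ i, a i * z i ^ e i = b - a₀ * x ^ e₀ := by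
    rw [eq_sub_iff_add_eq, add_comm]
  simp only [this]

/-- the sum over the `e₀`-th powers -/
private theorem powsum_Step {m : ℕ} (hm : m ∣ p - 1) (f : ZMod p → ℕ) :
    ∑ x : ZMod p, f (x ^ m) =
      f 0 + m * ∑ y : ZMod p, if y ≠ 0 ∧ y ^ ((p - 1) / m) = 1 then f y else 0 := by
  classical
  have hp : 0 < p - 1 := pos_Step
  have hm0 : 0 < m := Nat.pos_of_ne_zero (by
    rintro rfl
    have := Nat.eq_zero_of_zero_dvd hm
    omega)
  have h1 : ∀ x : ZMod p, f (x ^ m) = ∑ y : ZMod p, if x ^ m = y then f y else 0 := by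
    intro x
    rw [Finset.sum_ite_eq]
    simp
  rw [Finset.sum_congr rfl fun x _ => h1 x, Finset.sum_comm]
  have h2 : ∀ y : ZMod p, (∑ x : ZMod p, if x ^ m = y then f y else 0) =
      (univ.filter fun x : ZMod p => x ^ m = y).card * f y := by
    intro y
    rw [← Finset.sum_filter, Finset.sum_const, smul_eq_mul]
  rw [Finset.sum_congr rfl fun y _ => h2 y, ← Finset.add_sum_erase univ _ (mem_univ (0 : ZMod p))]
  have h3 : (univ.filter fun x : ZMod p => x ^ m = 0) = {0} := by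
    ext x
    simp [pow_eq_zero_iff hm0.ne']
  rw [h3, card_singleton, one_mul]
  congr 1
  rw [Finset.mul_sum, ← Finset.add_sum_erase univ _ (mem_univ (0 : ZMod p))]
  have h4 : m * (if (0 : ZMod p) ≠ 0 ∧ (0 : ZMod p) ^ ((p - 1) / m) = 1 then f 0 else 0) = 0 := by
    simp
  rw [h4, zero_add]
  refine Finset.sum_congr rfl fun y hy => ?_
  have hy0 : y ≠ 0 := (mem_erase.1 hy).1
  rw [rc_Step hm hy0]
  by_cases h : y ^ ((p - 1) / m) = 1
  · rw [if_pos h, if_pos ⟨hy0, h⟩]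
  · rw [if_neg h, if_neg (fun h' => h h'.2), zero_mul, mul_zero]

theorem nd_sum (hg : IsPrimitiveRoot g d) (h0 : e₀ ∣ d) {a₀ : ZMod p} (ha : a₀ ≠ 0)
    (a : Fin n → ZMod p) (b : ZMod p) :
    ND p (Fin.cons e₀ e : Fin (n + 1) → ℕ) (Fin.cons a₀ a : Fin (n + 1) → ZMod p) b =
      ND p e a b + e₀ * ∑ y : ZMod p, if y ≠ 0 ∧ y ^ ((p - 1) / e₀) = 1 then
        ND p e a (b - a₀ * y) else 0 := by
  rw [cons_Step, powsum_Step (h0.trans (dvd_Step hg)) (fun y => ND p e a (b - a₀ * y))]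
  simp only [mul_zero, sub_zero]

theorem nd_step0 (hg : IsPrimitiveRoot g d) (h0 : e₀ ∣ d) (he : ∀ i, e i ∣ d) {a₀ : ZMod p}
    (ha : a₀ ≠ 0) (a : Fin n → ZMod p) (r : ℕ → ZMod p) (hr0 : ∀ α, r α ≠ 0)
    (hr : ∀ α, r α ^ ((p - 1) / d) = g ^ α) :
    ND p (Fin.cons e₀ e : Fin (n + 1) → ℕ) (Fin.cons a₀ a : Fin (n + 1) → ZMod p) 0 =
      ND p e a 0 + e₀ * (((p - 1) / d) * ∑ α ∈ range d, if e₀ ∣ α then
        ND p e a (-(a₀ * r α)) else 0) := by
  classical
  rw [nd_sum hg h0 ha]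
  congr 2
  have hd0 : 0 < d := Nat.pos_of_ne_zero (NeZero.ne d)
  have hdp := dvd_Step hg
  have hg0 : g ≠ 0 := hg.ne_zero (NeZero.ne d)
  have hp : 0 < p - 1 := pos_Step
  have hc0 : 0 < (p - 1) / d := Nat.div_pos (Nat.le_of_dvd hp hdp) hd0
  have h1 : ∀ y : ZMod p, (if y ≠ 0 ∧ y ^ ((p - 1) / e₀) = 1 then ND p e a (0 - a₀ * y) else 0) =
      ∑ α ∈ range d, if y ^ ((p - 1) / d) = g ^ α then
        (if e₀ ∣ α then ND p e a (-(a₀ * r α)) else 0) else 0 := by
    intro y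
    by_cases hy : y = 0
    · subst hy
      rw [if_neg (fun h => h.1 rfl), Finset.sum_eq_zero]
      intro α _
      rw [if_neg]
      rw [zero_pow hc0.ne']
      exact (pow_ne_zero α hg0).symm
    · obtain ⟨α, hα, hyα⟩ := cls_Step hg hy
      rw [clsum_Step hg hα hyα (fun α => if e₀ ∣ α then ND p e a (-(a₀ * r α)) else 0)]
      by_cases h2 : e₀ ∣ α
      · rw [if_pos h2, if_pos ⟨hy, (pw_Step hg h0 hyα).2 h2⟩]
        refine nd_class hg he a ?_ ?_ ?_
        · rw [zero_sub]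
          exact neg_ne_zero.2 (mul_ne_zero ha hy)
        · exact neg_ne_zero.2 (mul_ne_zero ha (hr0 α))
        · rw [zero_sub, neg_pow, neg_pow (a₀ * r α), mul_pow, mul_pow, hyα, hr α]
      · rw [if_neg h2, if_neg (fun h => h2 ((pw_Step hg h0 hyα).1 h.2))]
  rw [Finset.sum_congr rfl fun y _ => h1 y, Finset.sum_comm, Finset.mul_sum]
  refine Finset.sum_congr rfl fun α _ => ?_
  rw [← Finset.sum_filter, Finset.sum_const, smul_eq_mul,
    rc_Step (Nat.div_dvd_of_dvd hdp) (pow_ne_zero α hg0), Nat.div_div_self hdp hp.ne']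
  rw [if_pos (by rw [← pow_mul, mul_comm, pow_mul, hg.pow_eq_one, one_pow])]

theorem nd_step1 (hg : IsPrimitiveRoot g d) (h0 : e₀ ∣ d) (he : ∀ i, e i ∣ d) {a₀ : ZMod p}
    (ha : a₀ ≠ 0) (a : Fin n → ZMod p) (r : ℕ → ZMod p) (hr0 : ∀ α, r α ≠ 0)
    (hr : ∀ α, r α ^ ((p - 1) / d) = g ^ α) {b : ZMod p} (hb : b ≠ 0) {γ : ℕ}
    (hγ : b ^ ((p - 1) / d) = a₀ ^ ((p - 1) / d) * g ^ γ) :
    ND p (Fin.cons e₀ e : Fin (n + 1) → ℕ) (Fin.cons a₀ a : Fin (n + 1) → ZMod p) b =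
      ND p e a b + e₀ * ((if e₀ ∣ γ then ND p e a 0 else 0) +
        ∑ α ∈ range d, ∑ β ∈ range d, if e₀ ∣ α + γ then
          CC p d g α β * ND p e a (b * r β) else 0) := by
  classical
  rw [nd_sum hg h0 ha]
  congr 2
  have hd0 : 0 < d := Nat.pos_of_ne_zero (NeZero.ne d)
  have hdp := dvd_Step hg
  have hg0 : g ≠ 0 := hg.ne_zero (NeZero.ne d)
  have hp : 0 < p - 1 := pos_Step
  have hc0 : 0 < (p - 1) / d := Nat.div_pos (Nat.le_of_dvd hp hdp) hd0
  have hba : b / a₀ ≠ 0 := div_ne_zero hb ha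
  have hbac : (b / a₀) ^ ((p - 1) / d) = g ^ γ := by
    rw [div_pow, hγ, mul_div_cancel_left₀ _ (pow_ne_zero _ ha)]
  rw [← Equiv.sum_comp (Equiv.mulLeft₀ (b / a₀) hba)]
  have h1 : ∀ x : ZMod p, (if (Equiv.mulLeft₀ (b / a₀) hba) x ≠ 0 ∧
      ((Equiv.mulLeft₀ (b / a₀) hba) x) ^ ((p - 1) / e₀) = 1 then
        ND p e a (b - a₀ * (Equiv.mulLeft₀ (b / a₀) hba) x) else 0) =
      (if x = 1 then (if e₀ ∣ γ then ND p e a 0 else 0) else 0) +
      ∑ α ∈ range d, ∑ β ∈ range d, if x ≠ 0 ∧ x ≠ 1 ∧ x ^ ((p - 1) / d) = g ^ α ∧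
        (1 - x) ^ ((p - 1) / d) = g ^ β then
        (if e₀ ∣ α + γ then ND p e a (b * r β) else 0) else 0 := by
    intro x
    have e1 : (Equiv.mulLeft₀ (b / a₀) hba) x = b / a₀ * x := rfl
    have e2 : b - a₀ * (b / a₀ * x) = b * (1 - x) := by
      field_simp
    rw [e1, e2]
    by_cases hx : x = 0
    · subst hx
      rw [if_neg (fun h => h.1 (mul_zero _)), if_neg (zero_ne_one), zero_add,
        Finset.sum_eq_zero]
      intro α _
      rw [Finset.sum_eq_zero]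
      intro β _
      rw [if_neg (fun h => h.1 rfl)]
    · by_cases hx1 : x = 1
      · subst hx1
        have e3 : (b / a₀ * 1) ^ ((p - 1) / d) = g ^ γ := by rw [mul_one, hbac]
        rw [if_pos rfl, sub_self, mul_zero, Finset.sum_eq_zero, add_zero]
        · by_cases h2 : e₀ ∣ γ
          · rw [if_pos h2, if_pos ⟨mul_ne_zero hba hx, (pw_Step hg h0 e3).2 h2⟩]
          · rw [if_neg h2, if_neg (fun h => h2 ((pw_Step hg h0 e3).1 h.2))]
        · intro α _
          rw [Finset.sum_eq_zero]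
          intro β _
          rw [if_neg (fun h => h.2.1 rfl)]
      · have hx2 : 1 - x ≠ 0 := sub_ne_zero.2 (Ne.symm hx1)
        obtain ⟨α, hα, hyα⟩ := cls_Step hg hx
        obtain ⟨β, hβ, hyβ⟩ := cls_Step hg hx2
        have e3 : (b / a₀ * x) ^ ((p - 1) / d) = g ^ (α + γ) := by
          rw [mul_pow, hbac, hyα, pow_add, mul_comm]
        have e4 : (∑ α' ∈ range d, ∑ β' ∈ range d, if x ≠ 0 ∧ x ≠ 1 ∧
            x ^ ((p - 1) / d) = g ^ α' ∧ (1 - x) ^ ((p - 1) / d) = g ^ β' then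
            (if e₀ ∣ α' + γ then ND p e a (b * r β') else 0) else 0) =
            if e₀ ∣ α + γ then ND p e a (b * r β) else 0 := by
          rw [← clsum_Step hg hα hyα
            (fun α' => if e₀ ∣ α' + γ then ND p e a (b * r β) else 0)]
          refine Finset.sum_congr rfl fun α' _ => ?_
          by_cases h3 : x ^ ((p - 1) / d) = g ^ α'
          · rw [if_pos h3, ← clsum_Step hg hβ hyβ
              (fun β' => if e₀ ∣ α' + γ then ND p e a (b * r β') else 0)]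
            refine Finset.sum_congr rfl fun β' _ => ?_
            by_cases h4 : (1 - x) ^ ((p - 1) / d) = g ^ β'
            · rw [if_pos h4, if_pos ⟨hx, hx1, h3, h4⟩]
            · rw [if_neg h4, if_neg (fun h => h4 h.2.2.2)]
          · rw [if_neg h3, Finset.sum_eq_zero]
            intro β' _
            rw [if_neg (fun h => h3 h.2.2.1)]
        rw [e4, if_neg hx1, zero_add]
        by_cases h2 : e₀ ∣ α + γ
        · rw [if_pos h2, if_pos ⟨mul_ne_zero hba hx, (pw_Step hg h0 e3).2 h2⟩]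
          refine nd_class hg he a (mul_ne_zero hb hx2) (mul_ne_zero hb (hr0 β)) ?_
          rw [mul_pow, mul_pow, hyβ, hr β]
        · rw [if_neg h2, if_neg (fun h => h2 ((pw_Step hg h0 e3).1 h.2))]
  rw [Finset.sum_congr rfl fun x _ => h1 x, Finset.sum_add_distrib, Finset.sum_ite_eq',
    if_pos (mem_univ _)]
  congr 1
  rw [Finset.sum_comm]
  refine Finset.sum_congr rfl fun α _ => ?_
  rw [Finset.sum_comm]
  refine Finset.sum_congr rfl fun β _ => ?_
  rw [← Finset.sum_filter, Finset.sum_const, smul_eq_mul]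
  have e5 : (univ.filter fun x : ZMod p => x ≠ 0 ∧ x ≠ 1 ∧ x ^ ((p - 1) / d) = g ^ α ∧
      (1 - x) ^ ((p - 1) / d) = g ^ β).card = CC p d g α β := by
    unfold CC
    rw [Nat.card_eq_fintype_card, Fintype.card_subtype]
  rw [e5]
  split_ifs
  · rfl
  · rw [mul_zero]

end Pool.Agent.DgE
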