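import Pool.Agent.DgE.CycDef
import Pool.Agent.DgE.Step

/-!
# Package DgE-NdDef: diagonal equations whose exponents divide `d ∣ p - 1`

*`rep_def`*: for `Lev d p g` and fixed `α` let `rep` be the least natural `x` with `0 < x < p` and
`x ^ ((p - 1) / d) ≡ g ^ α` modulo `p`; it exists (`(ZMod p)ˣ` is cyclic and `g` is a `(p - 1) / d`-th
power), the condition is `Delta0` by `pow_mod_def` (ECD/PowMod) and `DFun.div`. ∎ (The function `rep`
is given by its properties; use `Nat.find` or `sInf`.)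

*`nd_def`*. Induction on `n` (generalise the parameters: prove that for all `m` and all functions
`P, G, Bf, Af i : DFun m` the function `u ↦ if Lev d (P u) (G u) then ND (P u) e (Af u) (Bf u) else 0` is
`DFun m`; this follows from the form below by `DFun.comp`, and it is convenient in the induction).
`n = 0`: `nd_nil`. Step: write `e = Fin.cons (e 0) (Fin.tail e)`. If `p ∣ a₀`: `nd_coef`. If `p ∤ a₀`,
`p ∣ b`: `nd_step0` with `r = rep`. Else the class `γ < d` with
`b ^ E ≡ a₀ ^ E g ^ γ`, `E = (p - 1) / d` (powers by `pow_mod_def`; finitely many `γ`, one exists), and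
`nd_step1`, `cyc_def`. Finite sums with constant many terms. The bound is `p ^ n`. ∎

Difficulty: 2.0 h.
-/

set_option autoImplicit false

namespace Pool.Agent.DgE

open Finset NumberField Pool.Agent.Grz Pool.Agent.GAvg Pool.Agent.PTr Pool.Agent.MTr
  Pool.Agent.LPC Pool.Agent.ECD

/-- the least number with a property -/
private theorem NdDef_least {n : ℕ} {b : (Fin n → ℕ) → ℕ} (hb : DFun n b)
    {Q : ℕ → (Fin n → ℕ) → Prop}
    (hQ : Delta0 (n + 1) (fun w => Q (w 0) (fun i => w i.succ))) :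
    DFun n (fun v => sInf {x | x < b v ∧ Q x v}) := by
  have hS : Delta0 (n + 1) (fun w => w 0 < b (fun i => w i.succ) ∧
      Q (w 0) (fun i => w i.succ)) := (Delta0.ltFun (DFun.proj 0) hb.weak).and hQ
  refine DFun.ofGraph hb (fun v => ?_) ?_
  · rcases Set.eq_empty_or_nonempty {x | x < b v ∧ Q x v} with h | h
    · rw [h, Nat.sInf_empty]
      exact Nat.zero_le _
    · exact (Nat.sInf_mem h).1.le
  · have h1 : Delta0 (n + 1) (fun w => ∀ x, x ≤ w 0 → x < w 0 →
        ¬ (x < b (fun i => w i.succ) ∧ Q x (fun i => w i.succ))) := by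
      refine Delta0.ballFun (n := n + 1) (b := fun w => w 0)
        (P := fun x w => x < w 0 → ¬ (x < b (fun i => w i.succ) ∧ Q x (fun i => w i.succ)))
        (DFun.proj 0) ?_
      refine (Delta0.ltFun (DFun.proj 0) (DFun.proj 1)).imp ?_
      exact (hS.rename (n := n + 1 + 1) (Fin.cons 0 (fun i => i.succ.succ))).not.of_iff
        fun w => by simp [Fin.cons_succ]
    have h2 : Delta0 (n + 1) (fun w => ∀ x, x ≤ b (fun i => w i.succ) →
        ¬ (x < b (fun i => w i.succ) ∧ Q x (fun i => w i.succ))) := by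
      refine Delta0.ballFun (n := n + 1) (b := fun w => b (fun i => w i.succ))
        (P := fun x w => ¬ (x < b (fun i => w i.succ) ∧ Q x (fun i => w i.succ)))
        hb.weak ?_
      exact (hS.rename (n := n + 1 + 1) (Fin.cons 0 (fun i => i.succ.succ))).not.of_iff
        fun w => by simp [Fin.cons_succ]
    refine ((hS.and h1).or (h2.and (Delta0.eqFun (DFun.proj 0) (DFun.const 0)))).of_iff
      fun w => ?_
    obtain ⟨v, hv⟩ : ∃ v : Fin n → ℕ, v = fun i => w i.succ := ⟨_, rfl⟩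
    rw [← hv]
    constructor
    · intro h
      rcases Set.eq_empty_or_nonempty {x | x < b v ∧ Q x v} with h3 | h3
      · right
        refine ⟨fun x _ hx => ?_, ?_⟩
        · have h4 : x ∈ {x | x < b v ∧ Q x v} := hx
          rw [h3] at h4
          exact h4
        · rw [h, h3, Nat.sInf_empty]
      · left
        rw [h]
        exact ⟨Nat.sInf_mem h3, fun x _ hx hx' => Nat.notMem_of_lt_sInf hx hx'⟩
    · rintro (⟨h3, h4⟩ | ⟨h3, h4⟩)
      · refine le_antisymm ?_ (Nat.sInf_le h3)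
        by_contra hcon
        push Not at hcon
        have h5 : ({x | x < b v ∧ Q x v} : Set ℕ).Nonempty := ⟨w 0, h3⟩
        exact h4 _ hcon.le hcon (Nat.sInf_mem h5)
      · have h5 : {x | x < b v ∧ Q x v} = ∅ := by
          rw [Set.eq_empty_iff_forall_notMem]
          intro x hx
          exact h3 x hx.1.le hx
        rw [h5, Nat.sInf_empty, h4]

/-- a positive modulus -/
private def NdDef_M (p : ℕ) : ℕ := if p = 0 then 1 else p

private theorem NdDef_M_pos (p : ℕ) : 0 < NdDef_M p := by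
  unfold NdDef_M
  split_ifs with h
  · exact Nat.one_pos
  · exact Nat.pos_of_ne_zero h

private theorem NdDef_M_prime {p : ℕ} (hp : p.Prime) : NdDef_M p = p := by
  unfold NdDef_M
  rw [if_neg hp.ne_zero]

private theorem NdDef_M_def {n : ℕ} {p : (Fin n → ℕ) → ℕ} (hp : DFun n p) :
    DFun n (fun v => NdDef_M (p v)) := by
  unfold NdDef_M
  exact DFun.ite (Delta0.eqFun hp (DFun.const 0)) (DFun.const 1) hp

private theorem NdDef_pow {n : ℕ} {p a t : (Fin n → ℕ) → ℕ} (hp : DFun n p) (ha : DFun n a)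
    (ht : DFun n t) : DFun n (fun v => a v ^ t v % NdDef_M (p v)) :=
  pow_mod_def ha ht (NdDef_M_def hp) fun _ => NdDef_M_pos _

private theorem NdDef_E {d n : ℕ} (hd : 0 < d) {p : (Fin n → ℕ) → ℕ} (hp : DFun n p) :
    DFun n (fun v => (p v - 1) / d) :=
  DFun.divPos (hp.sub (DFun.const 1)) (DFun.const d) fun _ => hd

private theorem NdDef_dvd {d p : ℕ} [Fact p.Prime] {g : ZMod p} (hd : 0 < d)
    (hg : IsPrimitiveRoot g d) : d ∣ p - 1 := by
  have h1 : g ≠ 0 := by
    rintro rfl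
    have h2 := hg.pow_eq_one
    rw [zero_pow hd.ne'] at h2
    exact zero_ne_one h2
  exact hg.dvd_of_pow_eq_one _ (ZMod.pow_card_sub_one_eq_one h1)

/-- representatives of the classes -/
private theorem NdDef_exists {d p : ℕ} [Fact p.Prime] {g : ZMod p} (hd : 0 < d)
    (hg : IsPrimitiveRoot g d) (α : ℕ) : ∃ x : ZMod p, x ≠ 0 ∧ x ^ ((p - 1) / d) = g ^ α := by
  have hdvd := NdDef_dvd hd hg
  have hp1 : 0 < p - 1 := by
    have := (Fact.out : p.Prime).two_le
    omega
  obtain ⟨ω, hω⟩ := IsCyclic.exists_generator (α := (ZMod p)ˣ)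
  have h1 : orderOf ω = p - 1 := by
    rw [orderOf_eq_card_of_forall_mem_zpowers hω, Nat.card_eq_fintype_card, ZMod.card_units]
  have h2 : IsPrimitiveRoot (ω : ZMod p) (p - 1) := by
    rw [IsPrimitiveRoot.coe_units_iff, ← h1]
    exact IsPrimitiveRoot.orderOf ω
  have h3 : IsPrimitiveRoot ((ω : ZMod p) ^ ((p - 1) / d)) d :=
    h2.pow hp1 (Nat.div_mul_cancel hdvd).symm
  have h4 : (g ^ α) ^ d = 1 := by
    rw [← pow_mul, mul_comm, pow_mul, hg.pow_eq_one, one_pow]
  have : NeZero d := ⟨hd.ne'⟩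
  obtain ⟨i, -, hi⟩ := h3.eq_pow_of_pow_eq_one h4
  refine ⟨(ω : ZMod p) ^ i, pow_ne_zero _ ω.ne_zero, ?_⟩
  rw [← hi, ← pow_mul, ← pow_mul, mul_comm]

open scoped Classical in
theorem rep_def {d : ℕ} (hd : 0 < d) (α : ℕ) : ∃ rep : ℕ → ℕ → ℕ,
    DFun 2 (fun v => rep (v 0) (v 1)) ∧ ∀ p g, Lev d p g →
      (rep p g : ZMod p) ≠ 0 ∧ (rep p g : ZMod p) ^ ((p - 1) / d) = (g : ZMod p) ^ α := by
  refine ⟨fun p g => sInf {x | x < p ∧ (0 < x ∧ x ^ ((p - 1) / d) % NdDef_M p =
    g ^ α % NdDef_M p)}, ?_, ?_⟩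
  · refine NdDef_least (n := 2) (b := fun v => v 0) (Q := fun x v => 0 < x ∧
      x ^ ((v 0 - 1) / d) % NdDef_M (v 0) = v 1 ^ α % NdDef_M (v 0)) (DFun.proj 0) ?_
    refine (Delta0.ltFun (DFun.const 0) (DFun.proj 0)).and (Delta0.eqFun ?_ ?_)
    · exact NdDef_pow (n := 3) (p := fun w => w 1) (a := fun w => w 0)
        (t := fun w => (w 1 - 1) / d) (DFun.proj 1) (DFun.proj 0) (NdDef_E hd (DFun.proj 1))
    · exact NdDef_pow (n := 3) (p := fun w => w 1) (a := fun w => w 2) (t := fun w => α)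
        (DFun.proj 1) (DFun.proj 2) (DFun.const α)
  · rintro p g ⟨hp, hg⟩
    have : Fact p.Prime := ⟨hp⟩
    have : NeZero p := ⟨hp.ne_zero⟩
    obtain ⟨x, hx0, hx⟩ := NdDef_exists hd hg α
    have key : ∀ y : ℕ, y ^ ((p - 1) / d) % p = g ^ α % p ↔
        (y : ZMod p) ^ ((p - 1) / d) = (g : ZMod p) ^ α := by
      intro y
      rw [← Nat.cast_pow, ← Nat.cast_pow, ZMod.natCast_eq_natCast_iff']
    have h1 : ({x | x < p ∧ (0 < x ∧ x ^ ((p - 1) / d) % NdDef_M p =
        g ^ α % NdDef_M p)} : Set ℕ).Nonempty := by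
      refine ⟨x.val, ZMod.val_lt x, ?_, ?_⟩
      · rw [Nat.pos_iff_ne_zero, Ne, ZMod.val_eq_zero]
        exact hx0
      · rw [NdDef_M_prime hp, key, ZMod.natCast_zmod_val]
        exact hx
    have hmem := Nat.sInf_mem h1
    beta_reduce
    obtain ⟨y, hy⟩ : ∃ y : ℕ, sInf {x | x < p ∧ (0 < x ∧ x ^ ((p - 1) / d) % NdDef_M p =
      g ^ α % NdDef_M p)} = y := ⟨_, rfl⟩
    rw [hy] at hmem ⊢
    obtain ⟨h2, h3, h4⟩ := hmem
    rw [NdDef_M_prime hp, key] at h4
    refine ⟨?_, h4⟩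
    rw [Ne, ZMod.natCast_eq_zero_iff]
    intro h5
    have h6 := Nat.le_of_dvd h3 h5
    omega

private theorem NdDef_cc {d : ℕ} (hd : 0 < d) (α β : ℕ) {m : ℕ} {P G : (Fin m → ℕ) → ℕ}
    (hP : DFun m P) (hG : DFun m G) : DFun m (fun u => open scoped Classical in
      if Lev d (P u) (G u) then CC (P u) d (G u : ZMod (P u)) α β else 0) := by
  classical
  exact DFun.comp2 (g := fun p g => if Lev d p g then CC p d (g : ZMod p) α β else 0)
    (cyc_def hd α β) hP hG

open scoped Classical in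
/-- the number of the solutions, `0` if `g` is not of order `d` -/
private noncomputable def NdDef_N (d : ℕ) {n : ℕ} (e : Fin n → ℕ) (p g : ℕ) (a : Fin n → ℕ)
    (b : ℕ) : ℕ := if Lev d p g then ND p e (fun i => (a i : ZMod p)) (b : ZMod p) else 0

private theorem NdDef_N_pos {d n : ℕ} {e : Fin n → ℕ} {p g : ℕ} (h : Lev d p g) (a : Fin n → ℕ)
    (b : ℕ) : NdDef_N d e p g a b = ND p e (fun i => (a i : ZMod p)) (b : ZMod p) := by
  unfold NdDef_N
  rw [if_pos h]

private theorem NdDef_cast {p g d b e : ℕ} (hl : Lev d p g) (a t : ℕ) :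
    b ^ e % NdDef_M p = (a ^ e % NdDef_M p) * (g ^ t % NdDef_M p) % NdDef_M p ↔
      (b : ZMod p) ^ e = (a : ZMod p) ^ e * (g : ZMod p) ^ t := by
  rw [NdDef_M_prime hl.1, ← Nat.mul_mod, ← Nat.cast_pow, ← Nat.cast_pow, ← Nat.cast_pow,
    ← Nat.cast_mul, ZMod.natCast_eq_natCast_iff']

open scoped Classical in
private theorem NdDef_step {d n : ℕ} (hd : 0 < d) (e : Fin (n + 1) → ℕ) (he : ∀ i, e i ∣ d)
    (rep : ℕ → ℕ → ℕ → ℕ) (hrep : ∀ α p g, Lev d p g →
      (rep α p g : ZMod p) ≠ 0 ∧ (rep α p g : ZMod p) ^ ((p - 1) / d) = (g : ZMod p) ^ α)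
    (p g : ℕ) (a : Fin (n + 1) → ℕ) (b : ℕ) :
    NdDef_N d e p g a b = if Lev d p g then
      (if p ∣ a 0 then p * NdDef_N d (Fin.tail e) p g (Fin.tail a) b
      else if p ∣ b then NdDef_N d (Fin.tail e) p g (Fin.tail a) 0 +
        e 0 * (((p - 1) / d) * ∑ α ∈ range d, if e 0 ∣ α then
          NdDef_N d (Fin.tail e) p g (Fin.tail a) ((p - 1) * (a 0 * rep α p g)) else 0)
      else ∑ γ ∈ range d, if b ^ ((p - 1) / d) % NdDef_M p =
          (a 0 ^ ((p - 1) / d) % NdDef_M p) * (g ^ γ % NdDef_M p) % NdDef_M p then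
        NdDef_N d (Fin.tail e) p g (Fin.tail a) b +
          e 0 * ((if e 0 ∣ γ then NdDef_N d (Fin.tail e) p g (Fin.tail a) 0 else 0) +
            ∑ α ∈ range d, ∑ β ∈ range d, if e 0 ∣ α + γ then
              (if Lev d p g then CC p d (g : ZMod p) α β else 0) *
                NdDef_N d (Fin.tail e) p g (Fin.tail a) (b * rep β p g) else 0) else 0)
    else 0 := by
  by_cases hl : Lev d p g
  swap
  · rw [if_neg hl]
    unfold NdDef_N
    rw [if_neg hl]
  rw [if_pos hl, NdDef_N_pos hl]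
  have : Fact p.Prime := ⟨hl.1⟩
  have : NeZero p := ⟨hl.1.ne_zero⟩
  have : NeZero d := ⟨hd.ne'⟩
  have he' : ∀ i, Fin.tail e i ∣ d := fun i => he i.succ
  have h1 : (fun i => (a i : ZMod p)) = (Fin.cons (a 0 : ZMod p)
      (fun i => ((Fin.tail a i : ℕ) : ZMod p)) : Fin (n + 1) → ZMod p) := by
    funext i
    refine Fin.cases ?_ (fun j => ?_) i
    · rfl
    · rfl
  have h2 : ND p e (fun i => (a i : ZMod p)) (b : ZMod p) =
      ND p (Fin.cons (e 0) (Fin.tail e) : Fin (n + 1) → ℕ) (Fin.cons (a 0 : ZMod p)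
        (fun i => ((Fin.tail a i : ℕ) : ZMod p)) : Fin (n + 1) → ZMod p) (b : ZMod p) := by
    rw [h1, Fin.cons_self_tail]
  rw [h2]
  by_cases ha : p ∣ a 0
  · rw [if_pos ha, NdDef_N_pos hl]
    have h3 : (a 0 : ZMod p) = 0 := (ZMod.natCast_eq_zero_iff _ _).2 ha
    rw [h3, nd_coef]
  rw [if_neg ha]
  have ha' : (a 0 : ZMod p) ≠ 0 := fun h => ha ((ZMod.natCast_eq_zero_iff _ _).1 h)
  by_cases hb : p ∣ b
  · rw [if_pos hb, NdDef_N_pos hl]
    have h3 : (b : ZMod p) = 0 := (ZMod.natCast_eq_zero_iff _ _).2 hb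
    rw [h3, nd_step0 hl.2 (he 0) he' ha' _ (fun α => (rep α p g : ZMod p))
      (fun α => (hrep α p g hl).1) (fun α => (hrep α p g hl).2), Nat.cast_zero]
    congr 3
    refine Finset.sum_congr rfl fun α _ => ?_
    rw [NdDef_N_pos hl]
    have h4 : (((p - 1) * (a 0 * rep α p g) : ℕ) : ZMod p) =
        -((a 0 : ZMod p) * (rep α p g : ZMod p)) := by
      rw [Nat.cast_mul, Nat.cast_sub hl.1.one_lt.le, Nat.cast_one, ZMod.natCast_self,
        Nat.cast_mul]
      ring
    rw [h4]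
  rw [if_neg hb]
  have hb' : (b : ZMod p) ≠ 0 := fun h => hb ((ZMod.natCast_eq_zero_iff _ _).1 h)
  have hdvd := NdDef_dvd hd hl.2
  obtain ⟨γ, hγ, hγ'⟩ : ∃ γ < d, (b : ZMod p) ^ ((p - 1) / d) =
      (a 0 : ZMod p) ^ ((p - 1) / d) * (g : ZMod p) ^ γ := by
    have h3 : (((b : ZMod p) / (a 0 : ZMod p)) ^ ((p - 1) / d)) ^ d = 1 := by
      rw [← pow_mul, Nat.div_mul_cancel hdvd]
      exact ZMod.pow_card_sub_one_eq_one (div_ne_zero hb' ha')
    obtain ⟨γ, hγ, h4⟩ := hl.2.eq_pow_of_pow_eq_one h3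
    refine ⟨γ, hγ, ?_⟩
    rw [h4, div_pow, mul_div_cancel₀]
    exact pow_ne_zero _ ha'
  rw [Finset.sum_eq_single γ]
  · rw [if_pos ((NdDef_cast hl _ _).2 hγ'), NdDef_N_pos hl,
      nd_step1 hl.2 (he 0) he' ha' _ (fun α => (rep α p g : ZMod p))
        (fun α => (hrep α p g hl).1) (fun α => (hrep α p g hl).2) hb' hγ']
    congr 3
    · rw [NdDef_N_pos hl, Nat.cast_zero]
    · refine Finset.sum_congr rfl fun α _ => Finset.sum_congr rfl fun β _ => ?_
      rw [if_pos hl, NdDef_N_pos hl, Nat.cast_mul]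
  · intro γ' hγd hne
    rw [if_neg]
    intro h3
    rw [NdDef_cast hl, hγ'] at h3
    have h4 := mul_left_cancel₀ (pow_ne_zero _ ha') h3
    exact hne (hl.2.pow_inj hγ (Finset.mem_range.1 hγd) h4).symm
  · intro h
    exact absurd (Finset.mem_range.2 hγ) h

private theorem NdDef_main {d : ℕ} (hd : 0 < d) : ∀ {n : ℕ} (e : Fin n → ℕ), (∀ i, e i ∣ d) →
    ∀ {m : ℕ} {P G B : (Fin m → ℕ) → ℕ} {A : Fin n → (Fin m → ℕ) → ℕ}, DFun m P → DFun m G →
      DFun m B → (∀ i, DFun m (A i)) →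
        DFun m (fun u => NdDef_N d e (P u) (G u) (fun i => A i u) (B u)) := by
  classical
  intro n
  induction n with
  | zero =>
    intro e _ m P G B A hP hG hB _
    have h1 : (fun u => NdDef_N d e (P u) (G u) (fun i => A i u) (B u)) = fun u =>
        if Lev d (P u) (G u) then (if P u ∣ B u then 1 else 0) else 0 := by
      funext u
      unfold NdDef_N
      by_cases hl : Lev d (P u) (G u)
      · have : Fact (P u).Prime := ⟨hl.1⟩
        rw [if_pos hl, if_pos hl, nd_nil]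
        by_cases h2 : P u ∣ B u
        · rw [if_pos h2, if_pos ((ZMod.natCast_eq_zero_iff _ _).2 h2)]
        · rw [if_neg h2, if_neg fun h3 => h2 ((ZMod.natCast_eq_zero_iff _ _).1 h3)]
      · rw [if_neg hl, if_neg hl]
    rw [h1]
    exact DFun.ite (lev_def hd hP hG) (DFun.ite (delta_dvd hP hB) (DFun.const 1) (DFun.const 0))
      (DFun.const 0)
  | succ n ih =>
    intro e he m P G B A hP hG hB hA
    choose rep hrep1 hrep2 using fun α => rep_def hd α
    have hR : ∀ α, DFun m (fun u => rep α (P u) (G u)) := fun α =>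
      DFun.comp2 (g := rep α) (hrep1 α) hP hG
    have h1 : (fun u => NdDef_N d e (P u) (G u) (fun i => A i u) (B u)) = _ :=
      funext fun u => NdDef_step hd e he rep hrep2 (P u) (G u) (fun i => A i u) (B u)
    rw [h1]
    have he' : ∀ i, Fin.tail e i ∣ d := fun i => he i.succ
    have hN : ∀ {C : (Fin m → ℕ) → ℕ}, DFun m C → DFun m (fun u =>
        NdDef_N d (Fin.tail e) (P u) (G u) (Fin.tail fun i => A i u) (C u)) := fun hC =>
      ih (Fin.tail e) he' (A := fun i => A i.succ) hP hG hC (fun i => hA i.succ)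
    have hE : DFun m (fun u => (P u - 1) / d) := NdDef_E hd hP
    have hMd : DFun m (fun u => NdDef_M (P u)) := NdDef_M_def hP
    refine DFun.ite (lev_def hd hP hG) ?_ (DFun.const 0)
    refine DFun.ite (delta_dvd hP (hA 0)) (hP.mul (hN hB)) ?_
    refine DFun.ite (delta_dvd hP hB) ?_ ?_
    · refine (hN (DFun.const 0)).add ((DFun.const (e 0)).mul (hE.mul ?_))
      refine DFun.finSum _ fun α => ?_
      by_cases hα : e 0 ∣ α
      · simp only [if_pos hα]
        exact hN ((hP.sub (DFun.const 1)).mul ((hA 0).mul (hR α)))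
      · simp only [if_neg hα]
        exact DFun.const 0
    · refine DFun.finSum _ fun γ => ?_
      refine DFun.ite ?_ ?_ (DFun.const 0)
      · refine Delta0.eqFun (NdDef_pow hP hB hE) ?_
        exact DFun.modPos ((NdDef_pow hP (hA 0) hE).mul (NdDef_pow hP hG (DFun.const γ))) hMd
          fun u => NdDef_M_pos _
      · refine (hN hB).add ((DFun.const (e 0)).mul (DFun.add ?_ ?_))
        · by_cases hγ : e 0 ∣ γ
          · simp only [if_pos hγ]
            exact hN (DFun.const 0)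
          · simp only [if_neg hγ]
            exact DFun.const 0
        · refine DFun.finSum _ fun α => DFun.finSum _ fun β => ?_
          by_cases hγ : e 0 ∣ α + γ
          · simp only [if_pos hγ]
            exact (NdDef_cc hd α β hP hG).mul (hN (hB.mul (hR β)))
          · simp only [if_neg hγ]
            exact DFun.const 0

open scoped Classical in
theorem nd_def {d : ℕ} (hd : 0 < d) {n : ℕ} (e : Fin n → ℕ) (he : ∀ i, e i ∣ d) :
    DFun (n + 3) (fun v => if Lev d (v 0) (v 1) then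
      ND (v 0) e (fun i => (v i.succ.succ.succ : ZMod (v 0))) (v 2 : ZMod (v 0)) else 0) := by
  exact NdDef_main hd e he (P := fun v => v 0) (G := fun v => v 1) (B := fun v => v 2)
    (A := fun i v => v i.succ.succ.succ) (DFun.proj 0) (DFun.proj 1) (DFun.proj 2)
    (fun i => DFun.proj _)

end Pool.Agent.DgE
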