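import Pool.Agent.DgE.OD

/-!
# Package DgE-ODeq: equality and divisibility of definable functions with values in `ℤ[ζ]`

*`OD.eq0`*: let `b` be a basis of `K` over `ℚ` (`Module.finBasis`), `q_(s, t)` the coordinates of
`ζ ^ s` and `D > 0` a common denominator: `D q_(s, t) = z_(s, t)` integers. `f v = 0` iff
`∑_(s < d) (c s v - c' s v) z_(s, t) = 0` for all `t` (finitely many): an equality of two natural
polynomial expressions in `DFun` (move the negative terms to the other side, `Int.toNat`):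
`Delta0.eqFun`, `Delta0.allOf`. ∎

*`OD.dvd`*: `δ ∣ D` with a natural `D > 0`, so `δ ∣ f v` depends only on the residues of `c s v`,
`c' s v` modulo `D`, `s < d`: it is equivalent to a finite disjunction, over the residue vectors
`r, r' : Fin d → Fin D` with `δ ∣ ∑ (r s - r' s) ζ ^ s`, of `∀ s, c s v % D = r s ∧ c' s v % D = r' s`
(`Delta0.exOf`, `Delta0.allOf`, `DFun.mod`). ∎

Difficulty: 1.5 h.
-/

set_option autoImplicit false

namespace Pool.Agent.DgE

open Finset NumberField Pool.Agent.Grz Pool.Agent.GAvg Pool.Agent.PTr Pool.Agent.MTr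
  Pool.Agent.LPC Pool.Agent.ECD

variable {K : Type*} [Field K] {ζ : 𝓞 K} {d n : ℕ}

private theorem prop_ODeq (q : Prop) : Delta0 n (fun _ => q) := by
  by_cases h : q
  · exact (Delta0.eqFun (DFun.const 0) (DFun.const 0)).of_iff fun v => by simp [h]
  · exact (Delta0.eqFun (DFun.const 0) (DFun.const 1)).of_iff fun v => by simp [h]

private theorem split_ODeq (z : ℤ) : z = (z.toNat : ℤ) - ((-z).toNat : ℤ) := by omega

theorem OD.eq0 [NumberField K] {f : (Fin n → ℕ) → 𝓞 K} (hf : OD ζ d n f) :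
    Delta0 n (fun v => f v = 0) := by
  obtain ⟨c, c', hc, hc', hfv⟩ := hf
  let b := Module.finBasis ℤ (𝓞 K)
  obtain ⟨z, hz⟩ : ∃ z : ℕ → Fin (Module.finrank ℤ (𝓞 K)) → ℤ, ∀ s t, z s t = b.repr (ζ ^ s) t :=
    ⟨fun s t => b.repr (ζ ^ s) t, fun _ _ => rfl⟩
  have key : ∀ v, f v = 0 ↔ ∀ t,
      ∑ s ∈ range d, (c s v * (z s t).toNat + c' s v * (-z s t).toNat) =
        ∑ s ∈ range d, (c' s v * (z s t).toNat + c s v * (-z s t).toNat) := by
    intro v
    have h1 : ∀ t, b.repr (f v) t = ∑ s ∈ range d, ((c s v : ℤ) - c' s v) * z s t := by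
      intro t
      have h2 : f v = ∑ s ∈ range d, ((c s v : ℤ) - c' s v) • ζ ^ s := by
        rw [hfv v]
        refine sum_congr rfl fun s _ => ?_
        rw [zsmul_eq_mul]
        push_cast
        rfl
      rw [h2, map_sum, Finsupp.coe_finsetSum, Finset.sum_apply]
      refine sum_congr rfl fun s _ => ?_
      rw [map_zsmul, Finsupp.smul_apply, hz, smul_eq_mul]
    have h3 : f v = 0 ↔ ∀ t, b.repr (f v) t = 0 := by
      constructor
      · intro h t
        rw [h, map_zero, Finsupp.zero_apply]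
      · intro h
        apply b.repr.injective
        rw [map_zero]
        ext t
        exact h t
    rw [h3]
    refine forall_congr' fun t => ?_
    rw [h1 t]
    have h4 : ∑ s ∈ range d, ((c s v : ℤ) - c' s v) * z s t =
        ((∑ s ∈ range d, (c s v * (z s t).toNat + c' s v * (-z s t).toNat) : ℕ) : ℤ) -
        ((∑ s ∈ range d, (c' s v * (z s t).toNat + c s v * (-z s t).toNat) : ℕ) : ℤ) := by
      rw [Nat.cast_sum, Nat.cast_sum, ← sum_sub_distrib]
      refine sum_congr rfl fun s _ => ?_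
      rw [Nat.cast_add, Nat.cast_add, Nat.cast_mul, Nat.cast_mul, Nat.cast_mul, Nat.cast_mul]
      conv_lhs => rw [split_ODeq (z s t)]
      ring
    rw [h4]
    omega
  refine (Delta0.allOf fun t : Fin (Module.finrank ℤ (𝓞 K)) => Delta0.eqFun
    (DFun.finSum (range d) fun s => ((hc s).mul (DFun.const (z s t).toNat)).add
      ((hc' s).mul (DFun.const (-z s t).toNat)))
    (DFun.finSum (range d) fun s => ((hc' s).mul (DFun.const (z s t).toNat)).add
      ((hc s).mul (DFun.const (-z s t).toNat)))).of_iff key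

theorem OD.dvd {f : (Fin n → ℕ) → 𝓞 K} (hf : OD ζ d n f) {δ : 𝓞 K} {D : ℕ} (hD : 0 < D)
    (h : δ ∣ (D : 𝓞 K)) : Delta0 n (fun v => δ ∣ f v) := by
  obtain ⟨c, c', hc, hc', hfv⟩ := hf
  have hcast : ∀ a : ℕ, δ ∣ (a : 𝓞 K) - ((a % D : ℕ) : 𝓞 K) := by
    intro a
    have h1 : (a : 𝓞 K) - ((a % D : ℕ) : 𝓞 K) = (D : 𝓞 K) * ((a / D : ℕ) : 𝓞 K) := by
      conv_lhs => rw [← Nat.div_add_mod a D]
      push_cast
      rw [Nat.mul_add_mod, Nat.mod_mod]
      ring
    rw [h1]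
    exact h.mul_right _
  have key : ∀ v, δ ∣ f v ↔ ∃ r : (Fin d → Fin D) × (Fin d → Fin D),
      δ ∣ ∑ s : Fin d, (((r.1 s : ℕ) : 𝓞 K) - ((r.2 s : ℕ) : 𝓞 K)) * ζ ^ (s : ℕ) ∧
        ∀ s : Fin d, c s v % D = r.1 s ∧ c' s v % D = r.2 s := by
    intro v
    have h2 : ∀ r : (Fin d → Fin D) × (Fin d → Fin D),
        (∀ s : Fin d, c s v % D = r.1 s ∧ c' s v % D = r.2 s) →
        (δ ∣ f v ↔ δ ∣ ∑ s : Fin d, (((r.1 s : ℕ) : 𝓞 K) - ((r.2 s : ℕ) : 𝓞 K)) *
          ζ ^ (s : ℕ)) := by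
      intro r hr
      refine dvd_iff_dvd_of_dvd_sub ?_
      rw [hfv v, Finset.sum_range, ← sum_sub_distrib]
      refine Finset.dvd_sum fun s _ => ?_
      rw [← sub_mul]
      refine Dvd.dvd.mul_right ?_ _
      have h3 := dvd_sub (hcast (c s v)) (hcast (c' s v))
      rw [(hr s).1, (hr s).2] at h3
      refine h3.trans (dvd_of_eq ?_)
      ring
    constructor
    · intro h3
      refine ⟨(fun s => ⟨c s v % D, Nat.mod_lt _ hD⟩, fun s => ⟨c' s v % D, Nat.mod_lt _ hD⟩),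
        ?_, fun s => ⟨rfl, rfl⟩⟩
      exact (h2 (fun s => ⟨c s v % D, Nat.mod_lt _ hD⟩, fun s => ⟨c' s v % D, Nat.mod_lt _ hD⟩)
        fun s => ⟨rfl, rfl⟩).1 h3
    · rintro ⟨r, h3, h4⟩
      exact (h2 r h4).2 h3
  refine (Delta0.exOf fun r : (Fin d → Fin D) × (Fin d → Fin D) =>
    (prop_ODeq (δ ∣ ∑ s : Fin d, (((r.1 s : ℕ) : 𝓞 K) - ((r.2 s : ℕ) : 𝓞 K)) *
      ζ ^ (s : ℕ))).and (Delta0.allOf fun s : Fin d =>
      (Delta0.eqFun (DFun.modAny (hc s) (DFun.const D)) (DFun.const (r.1 s : ℕ))).and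
      (Delta0.eqFun (DFun.modAny (hc' s) (DFun.const D)) (DFun.const (r.2 s : ℕ))))).of_iff key

end Pool.Agent.DgE
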