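import Pool.Agent.DgE.NdDef

/-!
# Package DgE-PrimeDef: diagonal equations modulo primes

*`nd_prime`*. Let `D = ∏ e i` and, for a prime `p`, `δ = Nat.gcd D (p - 1)`, a divisor of `D` (finitely
many values; which one is `Delta0`: `DFun.mod`-like, `δ ∣ p - 1` and no larger divisor of `D` divides
`p - 1`). By `nd_gcd` the exponents can be replaced by `e' i = Nat.gcd (e i) (p - 1)`, and
`Nat.gcd (e i) (p - 1) = Nat.gcd (e i) δ`, which divides `δ`. There is a `g < p` of order `δ` modulo `p`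
(`δ ∣ p - 1`), so for each fixed `δ ∣ D` the function is, for the primes `p` with this `δ`, the value
of `nd_def` for `δ` and `e' = fun i => Nat.gcd (e i) δ` at any such `g`: `DFun.ofGraph` (bound `p ^ n`),
`Delta0.bexFun` for `g`, and a finite case distinction over the divisors `δ` of `D` (`DFun.ite`, or
a finite sum of indicator-weighted functions). ∎

*`diag_prime`*: `ND p e a b` for natural `a i`, `b` is the number of the `x` in
`Fintype.piFinset (fun _ => range p)` with `∑ a i x i ^ e i ≡ b` modulo `p` (cast the coordinates: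
a bijection to `Fin n → ZMod p`; `ZMod.natCast_eq_natCast_iff`). ∎

Difficulty: 1.8 h.
-/

set_option autoImplicit false

namespace Pool.Agent.DgE

open Finset NumberField Pool.Agent.Grz Pool.Agent.GAvg Pool.Agent.PTr Pool.Agent.MTr
  Pool.Agent.LPC Pool.Agent.ECD

/-- an element of order `d` modulo `p` -/
private theorem PrimeDef_gen {p d : ℕ} (hp : p.Prime) (hd : d ∣ p - 1) :
    ∃ g, g ≤ p ∧ Lev d p g := by
  have : Fact p.Prime := ⟨hp⟩
  have : NeZero p := ⟨hp.ne_zero⟩
  obtain ⟨u, hu⟩ := IsCyclic.exists_generator (α := (ZMod p)ˣ)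
  have h1 : orderOf u = p - 1 := by
    rw [orderOf_eq_card_of_forall_mem_zpowers hu, Nat.card_eq_fintype_card, ZMod.card_units]
  obtain ⟨a, ha⟩ := hd
  have h2 : IsPrimitiveRoot u (p - 1) := h1 ▸ IsPrimitiveRoot.orderOf u
  have h3 : IsPrimitiveRoot (u ^ a) d :=
    h2.pow (Nat.sub_pos_of_lt hp.one_lt) (by rw [ha, mul_comm])
  refine ⟨((u ^ a : (ZMod p)ˣ) : ZMod p).val, (ZMod.val_lt _).le, hp, ?_⟩
  rw [ZMod.natCast_zmod_val]
  exact IsPrimitiveRoot.coe_units_iff.2 h3

/-- the bound for the number of solutions -/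
private theorem PrimeDef_le {p n : ℕ} (hp : p.Prime) (e : Fin n → ℕ) (a : Fin n → ZMod p)
    (b : ZMod p) : ND p e a b ≤ p ^ n := by
  have : NeZero p := ⟨hp.ne_zero⟩
  unfold ND
  calc Nat.card {x : Fin n → ZMod p // ∑ i, a i * x i ^ e i = b}
      ≤ Nat.card (Fin n → ZMod p) := Nat.card_le_card_of_injective _ Subtype.val_injective
    _ = p ^ n := by
      rw [Nat.card_eq_fintype_card, Fintype.card_fun, ZMod.card, Fintype.card_fin]

private theorem PrimeDef_congr {n : ℕ} {f g : (Fin n → ℕ) → ℕ} (h : DFun n g)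
    (e : ∀ v, f v = g v) : DFun n f := by
  have e' : f = g := funext e
  rw [e']
  exact h

/-- `Lev` is definable -/
private theorem PrimeDef_lev {d : ℕ} (hd : 0 < d) :
    Delta0 2 (fun v => Lev d (v 0) (v 1)) := by
  classical
  have h1 := nd_def hd (n := 0) (fun i => i.elim0) (fun i => i.elim0)
  have h2 := h1.comp (n := 2) (h := ![fun v => v 0, fun v => v 1, fun _ => 0]) (by
    intro i
    fin_cases i
    · exact DFun.proj 0
    · exact DFun.proj 1
    · exact DFun.const 0)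
  refine (Delta0.eqFun h2 (DFun.const 1)).of_iff fun v => ?_
  change Lev d (v 0) (v 1) ↔ (if Lev d (v 0) (v 1) then
    ND (v 0) (fun i : Fin 0 => i.elim0) (fun i : Fin 0 => _) ((0 : ℕ) : ZMod (v 0)) else 0) = 1
  constructor
  · intro h
    have : Fact (v 0).Prime := ⟨h.1⟩
    rw [if_pos h, nd_nil, if_pos Nat.cast_zero]
  · intro h
    by_contra hcon
    rw [if_neg hcon] at h
    exact absurd h (by norm_num)

open scoped Classical in
theorem nd_prime {n : ℕ} {e : Fin n → ℕ} (he : ∀ i, 0 < e i) :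
    DFun (n + 2) (fun v => if (v 0).Prime then
      ND (v 0) e (fun i => (v i.succ.succ : ZMod (v 0))) (v 1 : ZMod (v 0)) else 0) := by
  set D : ℕ := ∏ i, e i with hD
  have hD0 : 0 < D := Finset.prod_pos fun i _ => he i
  refine DFun.ofGraph (b := fun v => v 0 ^ n) (DFun.powConst (DFun.proj 0) n) (fun v => ?_) ?_
  · split_ifs with h
    · exact PrimeDef_le h _ _ _
    · exact Nat.zero_le _
  -- the variables: `w 0` is the value, `w 1 = p`, `w 2 = b`, `w (i + 3) = a i`
  have hF : ∀ d ∈ D.divisors, DFun (n + 3 + 1)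
      (fun w : Fin (n + 3 + 1) → ℕ => if Lev d (w 2) (w 0) then
        ND (w 2) (fun i => Nat.gcd (e i) d)
          (fun i => (w i.succ.succ.succ.succ : ZMod (w 2))) (w 3 : ZMod (w 2)) else 0) := by
    intro d hd
    have hd0 : 0 < d := Nat.pos_of_mem_divisors hd
    have h1 := nd_def hd0 (fun i => Nat.gcd (e i) d) (fun i => Nat.gcd_dvd_right _ _)
    have h2 := h1.comp (n := n + 3 + 1) (h := Fin.cons (fun w => w 2) (Fin.cons (fun w => w 0)
      (Fin.cons (fun w => w 3) fun i w => w i.succ.succ.succ.succ))) (by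
      intro i
      refine Fin.cases ?_ (fun i => ?_) i
      · exact DFun.proj 2
      refine Fin.cases ?_ (fun i => ?_) i
      · exact DFun.proj 0
      refine Fin.cases ?_ (fun i => ?_) i
      · exact DFun.proj 3
      · exact DFun.proj _)
    exact h2
  have hG : Delta0 (n + 3 + 1) (fun w : Fin (n + 3 + 1) → ℕ => ∃ d ∈ D.divisors,
      (d ∣ w 2 - 1 ∧ ∀ d' ∈ D.divisors, d' ∣ w 2 - 1 → d' ∣ d) ∧ Lev d (w 2) (w 0) ∧
        w 1 = if Lev d (w 2) (w 0) then
          ND (w 2) (fun i => Nat.gcd (e i) d)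
            (fun i => (w i.succ.succ.succ.succ : ZMod (w 2))) (w 3 : ZMod (w 2)) else 0) := by
    have hp1 : DFun (n + 3 + 1) (fun w : Fin (n + 3 + 1) → ℕ => w 2 - 1) :=
      (DFun.proj 2).sub (DFun.const 1)
    have h1 : ∀ d, Delta0 (n + 3 + 1) (fun w : Fin (n + 3 + 1) → ℕ => d ∈ D.divisors ∧
        ((d ∣ w 2 - 1 ∧ ∀ d' ∈ D.divisors, d' ∣ w 2 - 1 → d' ∣ d) ∧ Lev d (w 2) (w 0) ∧
        w 1 = if Lev d (w 2) (w 0) then
          ND (w 2) (fun i => Nat.gcd (e i) d)
            (fun i => (w i.succ.succ.succ.succ : ZMod (w 2))) (w 3 : ZMod (w 2)) else 0)) := by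
      intro d
      by_cases hd : d ∈ D.divisors
      · have h2 : Delta0 (n + 3 + 1) (fun w : Fin (n + 3 + 1) → ℕ =>
            ∀ d' ∈ D.divisors, d' ∣ w 2 - 1 → d' ∣ d) :=
          Delta0.finAll _ fun d' => (delta_dvd (DFun.const d') hp1).imp
            (delta_dvd (DFun.const d') (DFun.const d))
        have h3 : Delta0 (n + 3 + 1) (fun w : Fin (n + 3 + 1) → ℕ => Lev d (w 2) (w 0)) :=
          Delta0.comp2 (P := fun x y => Lev d x y) (PrimeDef_lev (Nat.pos_of_mem_divisors hd))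
            (DFun.proj 2) (DFun.proj 0)
        exact (((delta_dvd (DFun.const d) hp1).and h2).and
          (h3.and (Delta0.eqFun (DFun.proj 1) (hF d hd)))).of_iff fun w =>
            ⟨fun h => h.2, fun h => ⟨hd, h⟩⟩
      · exact (Delta0.eqFun (DFun.const 0) (DFun.const 1)).of_iff fun w => by simp [hd]
    refine (Delta0.finEx D.divisors h1).of_iff fun w => ?_
    constructor
    · rintro ⟨d, hd, h⟩
      exact ⟨d, hd, hd, h⟩
    · rintro ⟨d, hd, -, h⟩
      exact ⟨d, hd, h⟩
  have hpr : Delta0 (n + 2 + 1) (fun w : Fin (n + 2 + 1) → ℕ => (w 1).Prime) :=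
    delta_prime (DFun.proj 1)
  have hall := (hpr.not.and (Delta0.eqFun (DFun.proj 0) (DFun.const 0))).or
    (hpr.and (Delta0.bexFun (b := fun w : Fin (n + 2 + 1) → ℕ => w 1) (DFun.proj 1)
      (P := fun g w => ∃ d ∈ D.divisors,
        (d ∣ w 1 - 1 ∧ ∀ d' ∈ D.divisors, d' ∣ w 1 - 1 → d' ∣ d) ∧ Lev d (w 1) g ∧
          w 0 = if Lev d (w 1) g then
            ND (w 1) (fun i => Nat.gcd (e i) d)
              (fun i => (w i.succ.succ.succ : ZMod (w 1))) (w 2 : ZMod (w 1)) else 0) hG))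
  refine hall.of_iff fun w => ?_
  change (w 0 = if (w 1).Prime then ND (w 1) e (fun i => (w i.succ.succ.succ : ZMod (w 1)))
    (w 2 : ZMod (w 1)) else 0) ↔ _
  by_cases hp : (w 1).Prime
  · rw [if_pos hp]
    have : Fact (w 1).Prime := ⟨hp⟩
    have key : ∀ d ∈ D.divisors, (d ∣ w 1 - 1 ∧ ∀ d' ∈ D.divisors, d' ∣ w 1 - 1 → d' ∣ d) →
        ND (w 1) e (fun i => (w i.succ.succ.succ : ZMod (w 1))) (w 2 : ZMod (w 1)) =
          ND (w 1) (fun i => Nat.gcd (e i) d) (fun i => (w i.succ.succ.succ : ZMod (w 1)))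
            (w 2 : ZMod (w 1)) := by
      rintro d hd ⟨h1, h2⟩
      rw [nd_gcd he]
      congr 1
      funext i
      have hi : e i ∣ D := Finset.dvd_prod_of_mem e (Finset.mem_univ i)
      have h3 : Nat.gcd (e i) (w 1 - 1) ∣ d :=
        h2 _ (Nat.mem_divisors.2 ⟨(Nat.gcd_dvd_left _ _).trans hi, hD0.ne'⟩)
          (Nat.gcd_dvd_right _ _)
      exact Nat.dvd_antisymm (Nat.dvd_gcd (Nat.gcd_dvd_left _ _) h3)
        (Nat.dvd_gcd (Nat.gcd_dvd_left _ _) ((Nat.gcd_dvd_right _ _).trans h1))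
    constructor
    · intro h
      refine Or.inr ⟨hp, ?_⟩
      have hdd : Nat.gcd D (w 1 - 1) ∈ D.divisors :=
        Nat.mem_divisors.2 ⟨Nat.gcd_dvd_left _ _, hD0.ne'⟩
      have hcond : (Nat.gcd D (w 1 - 1) ∣ w 1 - 1 ∧ ∀ d' ∈ D.divisors, d' ∣ w 1 - 1 →
          d' ∣ Nat.gcd D (w 1 - 1)) :=
        ⟨Nat.gcd_dvd_right _ _, fun d' hd' h' => Nat.dvd_gcd (Nat.dvd_of_mem_divisors hd') h'⟩
      obtain ⟨g, hg, hlev⟩ := PrimeDef_gen hp (Nat.gcd_dvd_right D (w 1 - 1))
      refine ⟨g, hg, _, hdd, hcond, hlev, ?_⟩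
      rw [if_pos hlev, h]
      exact key _ hdd hcond
    · rintro (⟨h, -⟩ | ⟨-, g, hg, d, hd, hcond, hlev, h⟩)
      · exact absurd hp h
      · rw [if_pos hlev] at h
        rw [h]
        exact (key d hd hcond).symm
  · rw [if_neg hp]
    constructor
    · intro h
      exact Or.inl ⟨hp, h⟩
    · rintro (⟨-, h⟩ | ⟨h, -⟩)
      · exact h
      · exact absurd h hp

open scoped Classical in
theorem diag_prime {n : ℕ} {e : Fin n → ℕ} (he : ∀ i, 0 < e i) :
    DFun (n + 2) (fun v => if (v 0).Prime then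
      #{x ∈ Fintype.piFinset (fun _ : Fin n => range (v 0)) |
        ∑ i, v i.succ.succ * x i ^ e i ≡ v 1 [MOD v 0]} else 0) := by
  refine PrimeDef_congr (nd_prime he) fun v => ?_
  by_cases hp : (v 0).Prime
  · rw [if_pos hp, if_pos hp]
    have : NeZero (v 0) := ⟨hp.ne_zero⟩
    unfold ND
    rw [Nat.card_eq_fintype_card, Fintype.card_subtype]
    refine Finset.card_nbij' (fun x i => (x i : ZMod (v 0))) (fun y i => (y i).val) ?_ ?_ ?_ ?_
    · intro x hx
      rw [Finset.mem_coe, Finset.mem_filter] at hx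
      rw [Finset.mem_coe, Finset.mem_filter]
      refine ⟨Finset.mem_univ _, ?_⟩
      have h1 := (ZMod.natCast_eq_natCast_iff _ _ _).2 hx.2
      push_cast at h1
      exact h1
    · intro y hy
      rw [Finset.mem_coe, Finset.mem_filter] at hy
      rw [Finset.mem_coe, Finset.mem_filter, Fintype.mem_piFinset]
      refine ⟨fun i => Finset.mem_range.2 (ZMod.val_lt _), ?_⟩
      rw [← ZMod.natCast_eq_natCast_iff]
      push_cast
      simp only [ZMod.natCast_zmod_val]
      exact hy.2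
    · intro x hx
      rw [Finset.mem_coe, Finset.mem_filter, Fintype.mem_piFinset] at hx
      funext i
      exact ZMod.val_cast_of_lt (Finset.mem_range.1 (hx.1 i))
    · intro y _
      funext i
      exact ZMod.natCast_zmod_val _
  · rw [if_neg hp, if_neg hp]

end Pool.Agent.DgE
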