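import Pool.Agent.DgE.Defs

/-!
# Package DgE-Scale: the number of solutions depends only on the class of the right side

*`nd_class`*: `y = b' / b` satisfies `y ^ ((p - 1) / d) = 1`, so `y = z ^ d` for a `z ≠ 0` (the group
`(ZMod p)ˣ` is cyclic of order `p - 1`, `d ∣ p - 1`; for instance `IsCyclic` and
`Subgroup` lemmas, or `y = ω ^ k` with a generator `ω`: `p - 1 ∣ k (p - 1) / d`, so `d ∣ k`). The map
`x i ↦ z ^ (d / e i) * x i` is a bijection of the solutions for `b` to those for `b'`. ∎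

*`nd_nil`*, *`nd_coef`*: definitions; for `nd_coef` the first coordinate is free
(`Fin.consEquiv`, `Fin.sum_univ_succ`). ∎

*`nd_gcd`*: for `e > 0`, `e' = Nat.gcd e (p - 1)` there is a bijection `σ` of `ZMod p` with
`σ(x) ^ e' = x ^ e`: `e = e' f` with `f` coprime to `(p - 1) / e'`; by
`ZMod.unitsMap_surjective` there is an `f' > 0` coprime to `p - 1` with `f' ≡ f` modulo `(p - 1) / e'`;
`e f' `-powers: `e' f' ≡ e' f` modulo `p - 1`, so `x ^ e = (x ^ f') ^ e'` for all `x` (also `x = 0`), and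
`x ↦ x ^ f'` is a bijection. Apply it to each coordinate. ∎

Difficulty: 1.8 h.
-/

set_option autoImplicit false

namespace Pool.Agent.DgE

open Finset

variable {p : ℕ} [Fact p.Prime] {n : ℕ}

private theorem Scale_pow_mod {M : Type*} [Monoid M] {x : M} {m a b : ℕ} (hx : x ^ m = 1)
    (h : a ≡ b [MOD m]) : x ^ a = x ^ b := by
  have h1 : ∀ c : ℕ, x ^ c = x ^ (c % m) := by
    intro c
    conv_lhs => rw [← Nat.div_add_mod c m, pow_add, pow_mul, hx, one_pow, one_mul]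
  rw [h1 a, h1 b, h]

private theorem Scale_root {d : ℕ} [NeZero d] (hd : d ∣ p - 1) {y : ZMod p} (hy : y ≠ 0)
    (h : y ^ ((p - 1) / d) = 1) : ∃ z : ZMod p, z ≠ 0 ∧ z ^ d = y := by
  have hp1 : 0 < p - 1 := by
    have := (Fact.out : p.Prime).two_le
    omega
  obtain ⟨ω, hω⟩ := IsCyclic.exists_monoid_generator (α := (ZMod p)ˣ)
  have hord : orderOf ω = p - 1 := by
    have h1 : ∀ u : (ZMod p)ˣ, u ∈ Subgroup.zpowers ω := by
      intro u
      obtain ⟨k, hk⟩ := hω u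
      exact ⟨(k : ℤ), by simpa using hk⟩
    rw [orderOf_eq_card_of_forall_mem_zpowers h1, Nat.card_eq_fintype_card, ZMod.card_units]
  obtain ⟨k, hk⟩ := hω (Units.mk0 y hy)
  have hk' : ω ^ k = Units.mk0 y hy := hk
  obtain ⟨m, hm⟩ := hd
  have hd0 : 0 < d := NeZero.pos d
  have hmd : (p - 1) / d = m := by
    rw [hm]
    exact Nat.mul_div_cancel_left m hd0
  have hm0 : 0 < m := by
    rcases Nat.eq_zero_or_pos m with h0 | h0
    · rw [h0, mul_zero] at hm
      omega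
    · exact h0
  have h2 : ω ^ (k * m) = 1 := by
    rw [pow_mul, hk']
    apply Units.ext
    rw [Units.val_pow_eq_pow_val, Units.val_mk0, Units.val_one, ← hmd]
    exact h
  have h3 : d * m ∣ k * m := by
    rw [← hm, ← hord]
    exact orderOf_dvd_of_pow_eq_one h2
  obtain ⟨j, hj⟩ := Nat.dvd_of_mul_dvd_mul_right hm0 h3
  refine ⟨((ω ^ j : (ZMod p)ˣ) : ZMod p), Units.ne_zero _, ?_⟩
  rw [← Units.val_pow_eq_pow_val, ← pow_mul, mul_comm j d, ← hj, hk', Units.val_mk0]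

theorem nd_class {d : ℕ} [NeZero d] {g : ZMod p} (hg : IsPrimitiveRoot g d) {e : Fin n → ℕ}
    (he : ∀ i, e i ∣ d) (a : Fin n → ZMod p) {b b' : ZMod p} (hb : b ≠ 0) (hb' : b' ≠ 0)
    (h : b ^ ((p - 1) / d) = b' ^ ((p - 1) / d)) : ND p e a b = ND p e a b' := by
  have hg0 : g ≠ 0 := (hg.isUnit (NeZero.ne d)).ne_zero
  have hd : d ∣ p - 1 := hg.dvd_of_pow_eq_one _ (ZMod.pow_card_sub_one_eq_one hg0)
  have hy : b' / b ≠ 0 := div_ne_zero hb' hb
  have hy1 : (b' / b) ^ ((p - 1) / d) = 1 := by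
    rw [div_pow, ← h]
    exact div_self (pow_ne_zero _ hb)
  obtain ⟨z, hz0, hz⟩ := Scale_root hd hy hy1
  have hpow : ∀ (i : Fin n) (x : ZMod p),
      (z ^ (d / e i) * x) ^ e i = b' / b * x ^ e i := by
    intro i x
    rw [mul_pow, ← pow_mul, Nat.div_mul_cancel (he i), hz]
  refine Nat.card_congr (Equiv.subtypeEquiv
    (Equiv.piCongrRight fun i => Equiv.mulLeft₀ (z ^ (d / e i)) (pow_ne_zero _ hz0)) ?_)
  intro x
  have h1 : ∑ i, a i * (Equiv.piCongrRight (fun i => Equiv.mulLeft₀ (z ^ (d / e i))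
      (pow_ne_zero _ hz0)) x) i ^ e i = b' / b * ∑ i, a i * x i ^ e i := by
    rw [mul_sum]
    refine sum_congr rfl fun i _ => ?_
    have h2 : (Equiv.piCongrRight (fun i => Equiv.mulLeft₀ (z ^ (d / e i))
      (pow_ne_zero _ hz0)) x) i = z ^ (d / e i) * x i := rfl
    rw [h2, hpow]
    ring
  rw [h1]
  constructor
  · intro h3
    rw [h3, div_mul_cancel₀ _ hb]
  · intro h3
    have h4 : b' / b * ∑ i, a i * x i ^ e i = b' / b * b := by
      rw [h3, div_mul_cancel₀ _ hb]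
    exact mul_left_cancel₀ hy h4

theorem nd_nil (e : Fin 0 → ℕ) (a : Fin 0 → ZMod p) (b : ZMod p) :
    ND p e a b = if b = 0 then 1 else 0 := by
  rw [ND]
  by_cases hb : b = 0
  · rw [if_pos hb]
    have : Unique {x : Fin 0 → ZMod p // ∑ i, a i * x i ^ e i = b} :=
      { default := ⟨fun i => i.elim0, by rw [univ_eq_empty, sum_empty, hb]⟩
        uniq := fun x => Subtype.ext (funext fun i => i.elim0) }
    exact Nat.card_unique
  · rw [if_neg hb]
    have : IsEmpty {x : Fin 0 → ZMod p // ∑ i, a i * x i ^ e i = b} := by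
      refine ⟨?_⟩
      rintro ⟨x, h⟩
      rw [univ_eq_empty, sum_empty] at h
      exact hb h.symm
    exact Nat.card_of_isEmpty

theorem nd_coef (e₀ : ℕ) (e : Fin n → ℕ) (a : Fin n → ZMod p) (b : ZMod p) :
    ND p (Fin.cons e₀ e : Fin (n + 1) → ℕ) (Fin.cons 0 a : Fin (n + 1) → ZMod p) b =
      p * ND p e a b := by
  have hs : ∀ x : Fin (n + 1) → ZMod p,
      ∑ i, (Fin.cons 0 a : Fin (n + 1) → ZMod p) i *
        x i ^ (Fin.cons e₀ e : Fin (n + 1) → ℕ) i = ∑ i, a i * Fin.tail x i ^ e i := by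
    intro x
    rw [Fin.sum_univ_succ, Fin.cons_zero, zero_mul, zero_add]
    rfl
  have E : {x : Fin (n + 1) → ZMod p // ∑ i, (Fin.cons 0 a : Fin (n + 1) → ZMod p) i *
        x i ^ (Fin.cons e₀ e : Fin (n + 1) → ℕ) i = b} ≃
      ZMod p × {x : Fin n → ZMod p // ∑ i, a i * x i ^ e i = b} :=
    { toFun := fun x => (x.1 0, ⟨Fin.tail x.1, by rw [← hs]; exact x.2⟩)
      invFun := fun y => ⟨Fin.cons y.1 y.2.1, by rw [hs, Fin.tail_cons]; exact y.2.2⟩
      left_inv := fun x => Subtype.ext (Fin.cons_self_tail x.1)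
      right_inv := fun y => rfl }
  rw [ND, Nat.card_congr E, Nat.card_prod, Nat.card_zmod, ND]

private theorem Scale_bij {e : ℕ} (he : 0 < e) :
    ∃ σ : ZMod p ≃ ZMod p, ∀ x, σ x ^ Nat.gcd e (p - 1) = x ^ e := by
  have hp1 : 0 < p - 1 := by
    have := (Fact.out : p.Prime).two_le
    omega
  obtain ⟨m, hm⟩ : ∃ m, m = p - 1 := ⟨_, rfl⟩
  rw [← hm] at hp1 ⊢
  have hg0 : 0 < Nat.gcd e m := Nat.gcd_pos_of_pos_left m he
  obtain ⟨e', he'⟩ : ∃ e', e' = Nat.gcd e m := ⟨_, rfl⟩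
  obtain ⟨f, hf⟩ : e' ∣ e := he' ▸ Nat.gcd_dvd_left e m
  obtain ⟨m', hm'⟩ : e' ∣ m := he' ▸ Nat.gcd_dvd_right e m
  have he0 : 0 < e' := he' ▸ hg0
  have hcop : Nat.Coprime f m' := by
    have h1 := Nat.coprime_div_gcd_div_gcd hg0
    rw [← he'] at h1
    have h2 : e / e' = f := by rw [hf]; exact Nat.mul_div_cancel_left f he0
    have h3 : m / e' = m' := by rw [hm']; exact Nat.mul_div_cancel_left m' he0
    rwa [h2, h3] at h1
  have hdvd : m' ∣ m := ⟨e', by rw [hm', mul_comm]⟩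
  have : NeZero m := ⟨hp1.ne'⟩
  have hm'0 : m' ≠ 0 := by
    rintro rfl
    rw [mul_zero] at hm'
    omega
  have : NeZero m' := ⟨hm'0⟩
  obtain ⟨u, hu⟩ := ZMod.unitsMap_surjective hdvd (ZMod.unitOfCoprime f hcop)
  obtain ⟨F, hF⟩ : ∃ F, F = (u : ZMod m).val + m := ⟨_, rfl⟩
  have hF0 : 0 < F := by omega
  have hFc : Nat.Coprime F m := by
    rw [hF, Nat.coprime_add_self_left]
    exact ZMod.val_coe_unit_coprime u
  have hFf : F ≡ f [MOD m'] := by
    have h1 : ((u : ZMod m).val : ZMod m') = f := by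
      have h2 := congrArg (fun v : (ZMod m')ˣ => (v : ZMod m')) hu
      have h3 : ((ZMod.unitsMap hdvd u : (ZMod m')ˣ) : ZMod m') = ((u : ZMod m).cast : ZMod m') :=
        rfl
      have h4 : ((ZMod.unitOfCoprime f hcop : (ZMod m')ˣ) : ZMod m') = f := rfl
      rw [ZMod.natCast_val, ← h3, ← h4]
      exact h2
    rw [← ZMod.natCast_eq_natCast_iff, hF, Nat.cast_add, h1]
    have h5 : (m : ZMod m') = 0 := (ZMod.natCast_eq_zero_iff _ _).2 hdvd
    rw [h5, add_zero]
  have hexp : F * e' ≡ e [MOD m] := by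
    have h1 := Nat.ModEq.mul_left' e' hFf
    rw [← hm', ← hf, mul_comm] at h1
    exact h1
  have hfer : ∀ x : ZMod p, x ≠ 0 → x ^ m = 1 := by
    intro x hx
    rw [hm]
    exact ZMod.pow_card_sub_one_eq_one hx
  have hinj : Function.Injective fun x : ZMod p => x ^ F := by
    intro x y hxy
    have hxy' : x ^ F = y ^ F := hxy
    by_cases hy : y = 0
    · rw [hy, zero_pow hF0.ne'] at hxy'
      rw [hy]
      exact pow_eq_zero_iff hF0.ne' |>.1 hxy'
    · have hx : x ≠ 0 := by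
        rintro rfl
        rw [zero_pow hF0.ne'] at hxy'
        exact hy (pow_eq_zero_iff hF0.ne' |>.1 hxy'.symm)
      have h1 : (x / y) ^ F = 1 := by
        rw [div_pow, hxy']
        exact div_self (pow_ne_zero _ hy)
      have h2 : (x / y) ^ m = 1 := hfer _ (div_ne_zero hx hy)
      have h3 := pow_gcd_eq_one.2 ⟨h1, h2⟩
      rw [hFc.gcd_eq_one, pow_one] at h3
      exact (div_eq_one_iff_eq hy).1 h3
  refine ⟨Equiv.ofBijective _ (Finite.injective_iff_bijective.1 hinj), fun x => ?_⟩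
  show (x ^ F) ^ Nat.gcd e m = x ^ e
  rw [← he', ← pow_mul]
  by_cases hx : x = 0
  · rw [hx, zero_pow (Nat.mul_pos hF0 he0).ne', zero_pow he.ne']
  · exact Scale_pow_mod (hfer x hx) hexp

theorem nd_gcd {e : Fin n → ℕ} (he : ∀ i, 0 < e i) (a : Fin n → ZMod p) (b : ZMod p) :
    ND p e a b = ND p (fun i => Nat.gcd (e i) (p - 1)) a b := by
  choose σ hσ using fun i => Scale_bij (p := p) (he i)
  refine Nat.card_congr (Equiv.subtypeEquiv (Equiv.piCongrRight σ) fun x => ?_)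
  have h1 : ∑ i, a i * (Equiv.piCongrRight σ x) i ^ Nat.gcd (e i) (p - 1) =
      ∑ i, a i * x i ^ e i := by
    refine sum_congr rfl fun i _ => ?_
    have h2 : (Equiv.piCongrRight σ x) i = σ i (x i) := rfl
    rw [h2, hσ]
  rw [h1]

end Pool.Agent.DgE
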